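import Pool.Agent.U74.LN.St
import Pool.Agent.N431.CE.Fin

/-!
# Edge stabilizers in abelian subgroups of the vertex stabilizers
-/

set_option autoImplicit false

namespace Pool.Agent.U74.LN

open SimpleGraph Subgroup
open scoped Pointwise commutatorElement
open Pool.Agent.Y110.FJ
open Pool.Agent.N509.TK
open Pool.Agent.N509.TX (AcylF C_edge)
open Pool.Agent.N431.CE (Es mem_Es Es_comm Es_smul cylF)
open Pool.Agent.U385.FJ (QC cyl_series)

variable {C : ∀ (G : Type) [Group G], Prop}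
variable {G V : Type} [Group G] [MulAction G V] {T : SimpleGraph V}

/-- the stabilizer of the edge `{v, u}` has at most `k` elements -/
def Sml (G : Type) {V : Type} [Group G] [MulAction G V] (k : ℕ) (v u : V) : Prop :=
  ∀ F : Finset G, (∀ g ∈ F, g ∈ Es G v u) → F.card ≤ k

theorem Sml_comm {k : ℕ} {v u : V} (h : Sml G k v u) : Sml G k u v := by
  intro F hF
  refine h F fun g hg => ?_
  have := hF g hg
  rwa [Es_comm] at this

theorem Sml_smul {k : ℕ} {v u : V} (g : G) (h : Sml G k v u) : Sml G k (g • v) (g • u) := by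
  classical
  intro F hF
  have h1 := h (F.image fun x => g⁻¹ * x * g) (by
    intro y hy
    rw [Finset.mem_image] at hy
    obtain ⟨x, hx, rfl⟩ := hy
    obtain ⟨h2, h3⟩ := hF x hx
    have h2' : x • g • v = g • v := h2
    have h3' : x • g • u = g • u := h3
    constructor
    · show (g⁻¹ * x * g) • v = v
      rw [mul_smul, mul_smul, h2', inv_smul_smul]
    · show (g⁻¹ * x * g) • u = u
      rw [mul_smul, mul_smul, h3', inv_smul_smul])
  rwa [Finset.card_image_of_injective] at h1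
  intro a b hab
  have hab : g⁻¹ * a * g = g⁻¹ * b * g := hab
  exact mul_left_cancel (mul_right_cancel hab)

/-- an equivariant family of abelian subgroups `A v u` of the stabilizers of `v` which contain the edge
stabilizers with more than `k` elements -/
structure AEnv (G : Type) {V : Type} [Group G] [MulAction G V] (T : SimpleGraph V) (k : ℕ)
    (A : V → V → Subgroup G) : Prop where
  fix : ∀ v u, T.Adj v u → ∀ x ∈ A v u, x • v = v
  conj : ∀ (g : G) (v u : V), T.Adj v u → ∀ x ∈ A v u, g * x * g⁻¹ ∈ A (g • v) (g • u)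
  ab : ∀ v u, T.Adj v u → ¬ Sml G k v u → ∀ x ∈ A v u, ∀ y ∈ A v u, x * y = y * x
  le : ∀ v u, T.Adj v u → ¬ Sml G k v u → Es G v u ≤ A v u
  small : ∀ v a b, T.Adj v a → T.Adj v b → ¬ Sml G k v a → ¬ Sml G k v b → A v a ≠ A v b →
    ∀ F : Finset G, (∀ g ∈ F, g ∈ Es G v a ∧ g ∈ Es G v b) → F.card ≤ k

/-- the relation on the edges at a vertex -/
def ra (G : Type) {V : Type} [Group G] [MulAction G V] (k : ℕ) (A : V → V → Subgroup G) (w a b : V) : Prop :=
  a = b ∨ (¬ Sml G k w a ∧ ¬ Sml G k w b ∧ A w a = A w b)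

theorem AEnv.conj_eq {k : ℕ} {A : V → V → Subgroup G} (h : AEnv G T k A)
    (hact : ∀ (g : G) (u v : V), T.Adj u v → T.Adj (g • u) (g • v)) (g : G) {v u : V} (hvu : T.Adj v u)
    (x : G) : x ∈ A v u ↔ g * x * g⁻¹ ∈ A (g • v) (g • u) := by
  refine ⟨h.conj g v u hvu x, fun h1 => ?_⟩
  have h2 := h.conj g⁻¹ _ _ (hact g v u hvu) _ h1
  rw [inv_smul_smul, inv_smul_smul] at h2
  have h3 : g⁻¹ * (g * x * g⁻¹) * g⁻¹⁻¹ = x := by group
  rwa [h3] at h2

/-- the relation on the edges of the tree -/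
def ra' (G : Type) {V : Type} [Group G] [MulAction G V] (T : SimpleGraph V) (k : ℕ)
    (A : V → V → Subgroup G) (w a b : V) : Prop :=
  a = b ∨ (T.Adj w a ∧ T.Adj w b ∧ ¬ Sml G k w a ∧ ¬ Sml G k w b ∧ A w a = A w b)

theorem ra_LR {k : ℕ} {A : V → V → Subgroup G} (h : AEnv G T k A)
    (hact : ∀ (g : G) (u v : V), T.Adj u v → T.Adj (g • u) (g • v)) : LR G T (ra' G T k A) := by
  refine ⟨fun w a _ => Or.inl rfl, ?_, ?_, ?_⟩
  · rintro w a b _ _ (h1 | ⟨h1, h2, h3, h4, h5⟩)
    · exact Or.inl h1.symm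
    · exact Or.inr ⟨h2, h1, h4, h3, h5.symm⟩
  · rintro w a b c _ _ _ (h1 | ⟨h1, h2, h3, h4, h5⟩) (h6 | ⟨h6, h7, h8, h9, h10⟩)
    · exact Or.inl (h1.trans h6)
    · rw [h1]
      exact Or.inr ⟨h6, h7, h8, h9, h10⟩
    · rw [← h6]
      exact Or.inr ⟨h1, h2, h3, h4, h5⟩
    · exact Or.inr ⟨h1, h7, h3, h9, h5.trans h10⟩
  · rintro g w a b (h1 | ⟨h1, h2, h3, h4, h5⟩)
    · exact Or.inl (by rw [h1])
    · have hs : ∀ u v : V, ¬ Sml G k u v → ¬ Sml G k (g • u) (g • v) := by
        intro u v h6 h7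
        have h8 := Sml_smul g⁻¹ h7
        rw [inv_smul_smul, inv_smul_smul] at h8
        exact h6 h8
      refine Or.inr ⟨hact g _ _ h1, hact g _ _ h2, hs _ _ h3, hs _ _ h4, ?_⟩
      ext x
      have h6 := h.conj_eq hact g h1 (g⁻¹ * x * g)
      have h7 := h.conj_eq hact g h2 (g⁻¹ * x * g)
      have h8 : g * (g⁻¹ * x * g) * g⁻¹ = x := by group
      rw [h8] at h6 h7
      rw [← h6, ← h7, h5]

theorem ra_gen {k : ℕ} {A : V → V → Subgroup G} {p q : Dt T}
    (h : Relation.EqvGen (lk T (ra' G T k A)) p q) :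
    (Sml G k p.1.1 p.1.2 ↔ Sml G k q.1.1 q.1.2) ∧
      (Sml G k p.1.1 p.1.2 → q.1 = p.1 ∨ q.1 = p.1.swap) := by
  induction h with
  | rel p q h1 =>
    rcases h1 with h1 | ⟨h1, h2 | ⟨-, -, h3, h4, -⟩⟩
    · rw [h1]
      exact ⟨⟨Sml_comm, Sml_comm⟩, fun _ => Or.inr rfl⟩
    · have h3 : q.1 = p.1 := Prod.ext h1.symm h2.symm
      rw [h3]
      exact ⟨Iff.rfl, fun _ => Or.inl rfl⟩
    · refine ⟨⟨fun h5 => absurd h5 h3, fun h5 => ?_⟩, fun h5 => absurd h5 h3⟩
      rw [h1] at h4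
      exact absurd h5 h4
  | refl p => exact ⟨Iff.rfl, fun _ => Or.inl rfl⟩
  | symm p q _ ih =>
    refine ⟨ih.1.symm, fun h1 => ?_⟩
    rcases ih.2 (ih.1.2 h1) with h2 | h2
    · exact Or.inl h2.symm
    · right
      rw [h2, Prod.swap_swap]
  | trans p q s _ _ ih1 ih2 =>
    refine ⟨ih1.1.trans ih2.1, fun h1 => ?_⟩
    rcases ih1.2 h1 with h2 | h2 <;> rcases ih2.2 (ih1.1.1 h1) with h3 | h3
    · exact Or.inl (h3.trans h2)
    · exact Or.inr (by rw [h3, h2])
    · exact Or.inr (by rw [h3, h2])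
    · exact Or.inl (by rw [h3, h2, Prod.swap_swap])

/-- **edge stabilizers in abelian subgroups** -/
theorem ab_main (hC : ClosedE C) (hM : ∀ (G : Type) [Group G], derivedSeries G 2 = ⊥ → C G)
    (hA : AcylF C) (hT : T.IsTree) (hact : ∀ (g : G) (u v : V), T.Adj u v → T.Adj (g • u) (g • v))
    (hV : ∀ v : V, C (MulAction.stabilizer G v)) (k : ℕ) (A : V → V → Subgroup G)
    (h : AEnv G T k A)
    (hQ : ∀ v u, T.Adj v u → ¬ Sml G k v u →
      QC C (MulAction.stabilizer G v ⊓ Subgroup.normalizer (A v u : Set G)) (A v u)) : C G := by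
  classical
  have hr := ra_LR h hact
  refine cylF hC hA hT hact hr k ?_ hV fun y K hK => ?_
  · intro w a b ha hb hab F hF
    have hab' : a ≠ b := fun h1 => hab (Or.inl h1)
    by_cases h1 : Sml G k w a
    · exact h1 F fun g hg => ⟨(hF g hg).1, (hF g hg).2.1⟩
    · by_cases h2 : Sml G k w b
      · exact h2 F fun g hg => ⟨(hF g hg).1, (hF g hg).2.2⟩
      · refine h.small w a b ha hb h1 h2 (fun h3 => hab (Or.inr ⟨ha, hb, h1, h2, h3⟩)) F fun g hg => ?_
        exact ⟨⟨(hF g hg).1, (hF g hg).2.1⟩, ⟨(hF g hg).1, (hF g hg).2.2⟩⟩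
  obtain ⟨⟨⟨v0, a0⟩, h0⟩, hy⟩ := Quotient.exists_rep y
  have h0 : T.Adj v0 a0 := h0
  have hy : cy (ra' G T k A) h0 = y := hy
  by_cases hs : Sml G k v0 a0
  · subst hy
    refine C_edge hC v0 a0 (hV v0) K fun g hg => ?_
    have h1 := hK g hg v0 a0 h0 rfl
    have h2 := (ra_gen (p := dt h0) (q := dt (hact g v0 a0 h0)) (Quotient.exact h1.symm)).2 hs
    rcases h2 with h3 | h3
    · exact Or.inl ⟨congrArg Prod.fst h3, congrArg Prod.snd h3⟩
    · exact Or.inr ⟨congrArg Prod.fst h3, congrArg Prod.snd h3⟩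
  · have hbig : ∀ (v u : V) (hvu : T.Adj v u), cy (ra' G T k A) hvu = y → ¬ Sml G k v u := by
      intro v u hvu hvy hsm
      exact hs ((ra_gen (p := dt h0) (q := dt hvu) (Quotient.exact (hy.trans hvy.symm))).1.2 hsm)
    have hR : ∀ v, ∃ R : Subgroup G, ∀ (u : V) (hvu : T.Adj v u), cy (ra' G T k A) hvu = y → R = A v u := by
      intro v
      by_cases hv : Mem y v
      · obtain ⟨u, hvu, hvy⟩ := hv
        refine ⟨A v u, fun u' hvu' hvy' => ?_⟩
        rcases gl hT hr hvu hvu' (hvy.trans hvy'.symm) with h1 | ⟨_, _, _, _, h1⟩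
        · rw [h1]
        · exact h1
      · exact ⟨⊥, fun u hvu hvy => absurd ⟨u, hvu, hvy⟩ hv⟩
    choose R hR using hR
    have hRf : ∀ v, Mem y v → ∀ x ∈ R v, x • v = v := by
      rintro v ⟨u, hvu, hvy⟩ x hx
      rw [hR v u hvu hvy] at hx
      exact h.fix v u hvu x hx
    have hRc : ∀ g ∈ K, ∀ v, Mem y v → ∀ x ∈ R v, g * x * g⁻¹ ∈ R (g • v) := by
      rintro g hg v ⟨u, hvu, hvy⟩ x hx
      rw [hR v u hvu hvy] at hx
      rw [hR (g • v) (g • u) (hact g v u hvu) (hK g hg v u hvu hvy)]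
      exact h.conj g v u hvu x hx
    have hRab : ∀ v, Mem y v → ∀ x ∈ R v, ∀ z ∈ R v, x * z = z * x := by
      rintro v ⟨u, hvu, hvy⟩ x hx z hz
      rw [hR v u hvu hvy] at hx hz
      exact h.ab v u hvu (hbig v u hvu hvy) x hx z hz
    refine cyl_series hC hM hT hact hr y K hK 1
      (fun i v => if i = 0 then ⊥ else R v) ?_ ?_ ?_ ?_ ?_ ?_ ?_ ?_
    · intro v _
      exact if_pos rfl
    · intro i hi v _
      have : i = 0 := by omega
      subst this
      rw [if_pos rfl]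
      exact bot_le
    · intro i hi v hv x hx
      by_cases h1 : i = 0
      · rw [if_pos h1, Subgroup.mem_bot] at hx
        rw [hx, one_smul]
      · rw [if_neg h1] at hx
        exact hRf v hv x hx
    · intro i hi g hg v hv x hx
      by_cases h1 : i = 0
      · rw [if_pos h1, Subgroup.mem_bot] at hx ⊢
        rw [hx, mul_one, mul_inv_cancel]
      · rw [if_neg h1] at hx ⊢
        exact hRc g hg v hv x hx
    · intro i hi u v huv huy x hx hxv
      by_cases h1 : i = 0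
      · rw [if_pos h1] at hx ⊢
        exact hx
      · rw [if_neg h1] at hx ⊢
        have hxu := hRf u ⟨v, huv, huy⟩ x hx
        have hvy : cy (ra' G T k A) huv.symm = y := (cy_symm huv).trans huy
        rw [hR v u huv.symm hvy]
        exact h.le v u huv.symm (hbig v u huv.symm hvy) ⟨hxv, hxu⟩
    · intro i hi v hv
      have : i = 0 := by omega
      subst this
      rw [if_pos rfl, if_neg (by omega), Subgroup.commutator_le]
      intro a ha b hb
      rw [Subgroup.mem_bot, commutatorElement_eq_one_iff_mul_comm]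
      exact hRab v hv a ha b hb
    · intro u v huv huy g _ hgu hgv
      rw [if_neg (by omega), hR u v huv huy]
      exact h.le u v huv (hbig u v huv huy) ⟨hgu, hgv⟩
    · rintro v ⟨u, hvu, hvy⟩
      rw [if_neg (by omega), hR v u hvu hvy]
      refine (hQ v u hvu (hbig v u hvu hvy)).mono ?_
      rintro g ⟨hgK, hgv⟩
      have hgv' : g • v = v := hgv
      refine ⟨hgv, ?_⟩
      show g ∈ Subgroup.normalizer (A v u : Set G)
      have h1 : ∀ g ∈ K, g • v = v → ∀ x ∈ A v u, g * x * g⁻¹ ∈ A v u := by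
        intro g hg hgv x hx
        rw [← hR v u hvu hvy] at hx ⊢
        have h2 := hRc g hg v ⟨u, hvu, hvy⟩ x hx
        rwa [hgv] at h2
      rw [Subgroup.mem_normalizer_iff]
      intro x
      refine ⟨h1 g hgK hgv' x, fun h2 => ?_⟩
      have h3 := h1 g⁻¹ (inv_mem hgK) (by rw [inv_smul_eq_iff, hgv']) _ h2
      have h4 : g⁻¹ * (g * x * g⁻¹) * g⁻¹⁻¹ = x := by group
      rwa [h4] at h3

/-- quotients of subgroups of the normalizers of abelian subgroups -/
theorem SQ.norm {H : Subgroup G} (h : SQ C H) {A : Subgroup G}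
    (hAab : ∀ x ∈ A, ∀ y ∈ A, x * y = y * x) : QC C (H ⊓ Subgroup.normalizer (A : Set G)) A := by
  refine h.quot (H ⊓ Subgroup.normalizer (A : Set G)) A
    (Subgroup.inclusion inf_le_left) (Subgroup.inclusion_injective _) ?_ ?_
  · refine ⟨⊤, ?_, by rw [Subgroup.index_top]; exact one_ne_zero⟩
    refine Group.isSolvable_of_comm fun a b => ?_
    apply Subtype.ext
    apply Subtype.ext
    apply Subtype.ext
    exact hAab _ (Subgroup.mem_subgroupOf.1 a.1.2) _ (Subgroup.mem_subgroupOf.1 b.1.2)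
  · refine ⟨fun x hx g => ?_⟩
    rw [Subgroup.mem_subgroupOf] at hx ⊢
    exact (Subgroup.mem_normalizer_iff.1 g.2.2 _).1 hx

end Pool.Agent.U74.LN
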