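import Pool.Agent.U74.LN.Nl
import Pool.Agent.U74.LQ.Fin

/-!
# Edge stabilizers in normal subgroups with unique roots
-/

set_option autoImplicit false

namespace Pool.Agent.U74.LN

open SimpleGraph Subgroup
open scoped Pointwise commutatorElement
open Subgroup.Commensurable (commensurator)
open Pool.Agent.Y110.FJ
open Pool.Agent.N509.TX (AcylF)
open Pool.Agent.N431.CE (Es mem_Es Es_comm Es_smul)
open Pool.Agent.U385.FJ (UR)

variable {C : ∀ (G : Type) [Group G], Prop}
variable {G V : Type} [Group G] [MulAction G V] {T : SimpleGraph V}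

/-- the conditions on an infinite edge stabilizer -/
def GoodE (G : Type) {V : Type} [Group G] [MulAction G V] (T : SimpleGraph V)
    (P : V → V → Subgroup G) (v u : V) : Prop :=
  (VS (Es G v u) ∧ LNorm (Es G v u)) ∨
    (∀ a b, T.Adj a b → Commensurable (Es G a b) (Es G v u) → Stb G a b) ∨
    (Group.IsNilpotent (Es G v u) ∧
      ∀ a b, T.Adj a b → Commensurable (Es G a b) (Es G v u) → Es G a b ≤ P a b ∧ UR (P a b))

theorem mix_main (hC : ClosedE C) (hM : ∀ (G : Type) [Group G], derivedSeries G 2 = ⊥ → C G)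
    (hA : AcylF C) (hT : T.IsTree) (hact : ∀ (g : G) (u v : V), T.Adj u v → T.Adj (g • u) (g • v))
    (hI : IsoE G T) (hsq : ∀ v : V, SQ C (MulAction.stabilizer G v)) (P : V → V → Subgroup G)
    (hP : Env G T P) (hE : ∀ v u, T.Adj v u → Infinite (Es G v u) → GoodE G T P v u) : C G := by
  refine comm_main hC hA hT hact (fun v => (hsq v).mem hC) hI fun v u hvu hinf => ?_
  rcases hE v u hvu hinf with ⟨h1, h2⟩ | h | ⟨h1, h2⟩
  · exact comm_lnorm hC hM hA hT hact hI hsq v u hvu hinf h1 h2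
  · exact comm_stable hC hM hT hact hI hsq v u hvu hinf h
  · exact comm_nil hC hM hT hact hI hsq P hP v u hvu hinf h1 h2

section reps

variable (G)

/-- representatives of the orbits -/
noncomputable def rp (v : V) : V := (Quotient.mk (MulAction.orbitRel G V) v).out

theorem rp_smul (g : G) (v : V) : rp G (g • v) = rp G v := by
  unfold rp
  congr 1
  exact Quotient.sound ⟨g, rfl⟩

theorem exists_gq (v : V) : ∃ g : G, g • rp G v = v := by
  have h1 : (MulAction.orbitRel G V).r (rp G v) v := Quotient.mk_out v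
  obtain ⟨g, hg⟩ := h1
  have hg' : g • v = rp G v := hg
  exact ⟨g⁻¹, by rw [← hg', inv_smul_smul]⟩

/-- an element which moves the representative to the vertex -/
noncomputable def gq (v : V) : G := Classical.choose (exists_gq G v)

theorem gq_smul (v : V) : gq G v • rp G v = v := Classical.choose_spec (exists_gq G v)

end reps

/-- normal subgroups with unique roots of the vertex stabilizers give an equivariant family -/
theorem exists_env (hact : ∀ (g : G) (u v : V), T.Adj u v → T.Adj (g • u) (g • v))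
    (hQ : ∀ v : V, ∃ Q : Subgroup G, (∀ x ∈ Q, x • v = v) ∧ (∀ g : G, g • v = v → ∀ x ∈ Q, g * x * g⁻¹ ∈ Q) ∧
      UR Q ∧ ∀ u, T.Adj v u → Infinite (Es G v u) → Es G v u ≤ Q) :
    ∃ P : V → V → Subgroup G, Env G T P ∧
      ∀ v u, T.Adj v u → Infinite (Es G v u) → Es G v u ≤ P v u ∧ UR (P v u) := by
  classical
  choose Q hQf hQn hQu hQe using hQ
  have hm : ∀ (v : V) (x : G), x ∈ (Q (rp G v)).map (MulAut.conj (gq G v)).toMonoidHom ↔
      (gq G v)⁻¹ * x * gq G v ∈ Q (rp G v) := by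
    intro v x
    constructor
    · rintro ⟨y, hy, rfl⟩
      show (gq G v)⁻¹ * (gq G v * y * (gq G v)⁻¹) * gq G v ∈ Q (rp G v)
      have h1 : (gq G v)⁻¹ * (gq G v * y * (gq G v)⁻¹) * gq G v = y := by group
      rw [h1]
      exact hy
    · intro h
      refine ⟨_, h, ?_⟩
      show gq G v * ((gq G v)⁻¹ * x * gq G v) * (gq G v)⁻¹ = x
      group
  refine ⟨fun v _ => (Q (rp G v)).map (MulAut.conj (gq G v)).toMonoidHom, ⟨?_, ?_, ?_⟩, ?_⟩
  · intro v u _ x hx
    have h1 := hQf _ _ ((hm v x).1 hx)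
    have h2 : (gq G v)⁻¹ • x • gq G v • rp G v = rp G v := by
      rw [← mul_smul, ← mul_smul]
      exact h1
    rw [gq_smul, inv_smul_eq_iff, gq_smul] at h2
    exact h2
  · intro g v u _ x hx
    have h1 := (hm v x).1 hx
    refine (hm (g • v) _).2 ?_
    rw [rp_smul]
    have h2 : ((gq G (g • v))⁻¹ * g * gq G v) • rp G v = rp G v := by
      rw [mul_smul, mul_smul, gq_smul, inv_smul_eq_iff]
      conv_lhs => rw [← gq_smul G (g • v)]
      rw [rp_smul]
    have h3 := hQn _ _ h2 _ h1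
    have h4 : (gq G (g • v))⁻¹ * g * gq G v * ((gq G v)⁻¹ * x * gq G v) *
        ((gq G (g • v))⁻¹ * g * gq G v)⁻¹ = (gq G (g • v))⁻¹ * (g * x * g⁻¹) * gq G (g • v) := by group
    rwa [h4] at h3
  · exact fun _ _ _ _ _ _ => rfl
  · intro v u hvu hinf
    constructor
    · intro x hx
      refine (hm v x).2 ?_
      have h1 : T.Adj (rp G v) ((gq G v)⁻¹ • u) := by
        have := hact (gq G v)⁻¹ _ _ hvu
        have h2 : (gq G v)⁻¹ • v = rp G v := by rw [inv_smul_eq_iff, gq_smul]
        rwa [h2] at this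
      have h2 : (gq G v)⁻¹ • v = rp G v := by rw [inv_smul_eq_iff, gq_smul]
      have h3 : Es G (rp G v) ((gq G v)⁻¹ • u) = ConjAct.toConjAct (gq G v)⁻¹ • Es G v u := by
        rw [← Es_smul, h2]
      have h4 : Infinite (Es G (rp G v) ((gq G v)⁻¹ • u)) := by
        rw [h3]
        exact (Subgroup.equivSMul (ConjAct.toConjAct (gq G v)⁻¹) (Es G v u)).toEquiv.infinite_iff.1 hinf
      refine hQe _ _ h1 h4 ?_
      rw [h3, Subgroup.mem_pointwise_smul_iff_inv_smul_mem, ← ConjAct.toConjAct_inv,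
        ConjAct.toConjAct_smul, inv_inv]
      have h5 : gq G v * ((gq G v)⁻¹ * x * gq G v) * (gq G v)⁻¹ = x := by group
      rw [h5]
      exact hx
    · intro x hx y hy m hm' hxy
      have h1 := hQu _ _ ((hm v x).1 hx) _ ((hm v y).1 hy) m hm' (by
        have e : ∀ z : G, ((gq G v)⁻¹ * z * gq G v) ^ m = (gq G v)⁻¹ * z ^ m * gq G v := fun z => by
          have := conj_pow (i := m) (a := (gq G v)⁻¹) (b := z)
          rwa [inv_inv] at this
        rw [e, e, hxy])
      exact mul_left_cancel (mul_right_cancel h1)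

theorem comm_inf {A B : Subgroup G} (h : Commensurable A B) (hB : Infinite B) : Infinite A := by
  by_contra hcon
  have := comm_fin h.symm (not_infinite_iff_finite.1 hcon)
  exact not_finite B

/-- **nilpotent edge stabilizers in normal subgroups with unique roots** -/
theorem normal_main (hC : ClosedE C) (hM : ∀ (G : Type) [Group G], derivedSeries G 2 = ⊥ → C G)
    (hA : AcylF C) (hT : T.IsTree) (hact : ∀ (g : G) (u v : V), T.Adj u v → T.Adj (g • u) (g • v))
    (hI : IsoE G T) (hsq : ∀ v : V, SQ C (MulAction.stabilizer G v))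
    (hN : ∀ v u, T.Adj v u → Infinite (Es G v u) → Group.IsNilpotent (Es G v u))
    (hQ : ∀ v : V, ∃ Q : Subgroup G, (∀ x ∈ Q, x • v = v) ∧ (∀ g : G, g • v = v → ∀ x ∈ Q, g * x * g⁻¹ ∈ Q) ∧
      UR Q ∧ ∀ u, T.Adj v u → Infinite (Es G v u) → Es G v u ≤ Q) : C G := by
  obtain ⟨P, hP, hP'⟩ := exists_env hact hQ
  refine mix_main hC hM hA hT hact hI hsq P hP fun v u hvu hinf => Or.inr (Or.inr ⟨hN v u hvu hinf, ?_⟩)
  exact fun a b hab hc => hP' a b hab (comm_inf hc hinf)

/-- cyclic edge stabilizers -/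
theorem cyc_IsoE (hN : ∀ v u, T.Adj v u → IsCyclic (Es G v u)) : IsoE G T := by
  intro w a ha
  refine ⟨Nat.card (Es G w a) + 1, fun b hb _ => ?_⟩
  by_cases hinf : Infinite (Es G w a)
  · rcases Pool.Agent.U385.FJ.cyc_iso (hN w a ha) (hN w b hb) hinf with h | h
    · exact Or.inl h
    · right
      rw [h]
      refine ⟨inferInstance, ?_⟩
      rw [Subgroup.card_bot]
      omega
  · have hfin : Finite (Es G w a) := not_infinite_iff_finite.1 hinf
    right
    have hle : Es G w a ⊓ Es G w b ≤ Es G w a := inf_le_left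
    refine ⟨Finite.of_injective _ (Subgroup.inclusion_injective hle), ?_⟩
    have := Nat.card_le_card_of_injective _ (Subgroup.inclusion_injective hle)
    omega

/-- **congruence subgroups** of general linear groups over the integers -/
theorem int_main (hC : ClosedE C) (hM : ∀ (G : Type) [Group G], derivedSeries G 2 = ⊥ → C G)
    (hA : AcylF C) (hL : ∀ m : ℕ, C (Matrix.GeneralLinearGroup (Fin m) ℚ)) (hT : T.IsTree)
    (hact : ∀ (g : G) (u v : V), T.Adj u v → T.Adj (g • u) (g • v)) (hI : IsoE G T)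
    (hN : ∀ v u, T.Adj v u → Infinite (Es G v u) → Group.IsNilpotent (Es G v u))
    (hV : ∀ v : V, ∃ (l n : ℕ) (ρ : MulAction.stabilizer G v →* Matrix.GeneralLinearGroup (Fin n) ℤ),
      l.Prime ∧ 3 ≤ l ∧ Function.Injective ρ ∧ ∀ u, T.Adj v u → Infinite (Es G v u) →
        ∀ x : MulAction.stabilizer G v, (x : G) • u = u →
          Matrix.GeneralLinearGroup.map (Int.castRingHom (ZMod l)) (ρ x) = 1) : C G := by
  refine normal_main hC hM hA hT hact hI (fun v => ?_) hN fun v => ?_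
  · obtain ⟨l, n, ρ, -, -, hρ, -⟩ := hV v
    exact lin_sq hC hM ⟨ℚ, inferInstance, n, (Matrix.GeneralLinearGroup.map (Int.castRingHom ℚ)).comp ρ,
      (Pool.Agent.U74.LQ.map_inj _ Int.cast_injective n).comp hρ, hL⟩
  · obtain ⟨l, n, ρ, hl, h3, hρ, hE⟩ := hV v
    obtain ⟨K, hK⟩ : ∃ K, K = (Matrix.GeneralLinearGroup.map (n := Fin n) (Int.castRingHom (ZMod l))).ker :=
      ⟨_, rfl⟩
    have hKn : K.Normal := by
      rw [hK]
      infer_instance
    have hcong := Pool.Agent.U74.LQ.cong_ker hL l hl h3 n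
    have hroots : ∀ x ∈ K, ∀ y ∈ K, ∀ m : ℕ, m ≠ 0 → x ^ m = y ^ m → x = y := by
      intro x hx y hy m hm hxy
      rw [hK] at hx hy
      have := hcong.roots ⟨x, hx⟩ ⟨y, hy⟩ m hm (Subtype.ext hxy)
      exact congrArg Subtype.val this
    refine ⟨(K.comap ρ).map (MulAction.stabilizer G v).subtype, ?_, ?_, ?_, ?_⟩
    · rintro _ ⟨x, -, rfl⟩
      exact x.2
    · rintro g hg _ ⟨x, hx, rfl⟩
      refine ⟨⟨g, hg⟩ * x * ⟨g, hg⟩⁻¹, ?_, rfl⟩
      exact (hKn.comap ρ).conj_mem x hx _
    · rintro _ ⟨x, hx, rfl⟩ _ ⟨y, hy, rfl⟩ m hm hxy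
      have h1 : x ^ m = y ^ m := Subtype.ext hxy
      have h2 := hroots _ hx _ hy m hm (by rw [← map_pow, h1, map_pow])
      rw [hρ h2]
    · intro u huv hinf x hx
      refine ⟨⟨x, hx.1⟩, ?_, rfl⟩
      show ρ ⟨x, hx.1⟩ ∈ K
      rw [hK, MonoidHom.mem_ker]
      exact hE u huv hinf ⟨x, hx.1⟩ hx.2

end Pool.Agent.U74.LN
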