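import Pool.Agent.U74.LN.Cg

/-!
# Cyclic edge stabilizers which are balanced or stable
-/

set_option autoImplicit false

namespace Pool.Agent.U74.LN

open SimpleGraph Subgroup
open scoped Pointwise commutatorElement
open Subgroup.Commensurable (commensurator)
open Pool.Agent.Y110.FJ
open Pool.Agent.N509.TX (AcylF)
open Pool.Agent.N431.CE (Es mem_Es Es_comm Es_smul mem_comm_iff)
open Pool.Agent.U385.FJ (UR)

variable {C : ∀ (G : Type) [Group G], Prop}

/-- no power of an element of infinite order of `E` is conjugate to a power with another absolute value -/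
def Bal {G : Type} [Group G] (E : Subgroup G) : Prop :=
  ∀ c ∈ E, ¬ IsOfFinOrder c → ∀ (g : G) (p q : ℤ), p ≠ 0 → q ≠ 0 → g * c ^ p * g⁻¹ = c ^ q → |p| = |q|

theorem bal_lnorm {G : Type} [Group G] {E : Subgroup G} (hE : IsCyclic E) (hinf : Infinite E)
    (hb : Bal E) : LNorm E := by
  classical
  intro L hL hLc
  obtain ⟨⟨c, hc⟩, hgen⟩ := hE.exists_generator
  have hcE : ∀ x ∈ E, ∃ k : ℤ, c ^ k = x := by
    intro x hx
    obtain ⟨k, hk⟩ := hgen ⟨x, hx⟩
    exact ⟨k, congrArg Subtype.val hk⟩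
  have hco : ¬ IsOfFinOrder c := by
    intro h
    have h1 : Finite (Subgroup.zpowers c) := (finite_zpowers.2 h).to_subtype
    have h2 : E ≤ Subgroup.zpowers c := fun x hx => by
      obtain ⟨k, hk⟩ := hcE x hx
      exact ⟨k, hk⟩
    have h3 : Finite E := Finite.of_injective _ (Subgroup.inclusion_injective h2)
    exact not_finite E
  have hpow : ∀ k : ℤ, c ^ k = 1 → k = 0 := by
    intro k hk
    by_contra hk0
    exact hco (isOfFinOrder_iff_zpow_eq_one.2 ⟨k, hk0, hk⟩)
  have key : ∀ g ∈ commensurator E, ∃ p : ℕ, p ≠ 0 ∧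
      (g * c ^ p * g⁻¹ = c ^ p ∨ g * c ^ p * g⁻¹ = (c ^ p)⁻¹) := by
    intro g hg
    rw [mem_comm_iff] at hg
    have h1 : g * c * g⁻¹ ∈ E.map (MulAut.conj g).toMonoidHom := ⟨c, hc, rfl⟩
    obtain ⟨n, hn, -, hn'⟩ := Subgroup.exists_pow_mem_of_relIndex_ne_zero hg.2 h1
    have h2 : g * c ^ n * g⁻¹ ∈ E := by
      have h3 : (g * c * g⁻¹) ^ n = g * c ^ n * g⁻¹ := by rw [conj_pow]
      rw [← h3]
      exact hn'.1
    obtain ⟨q, hq⟩ := hcE _ h2
    have hq0 : q ≠ 0 := by
      rintro rfl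
      rw [zpow_zero] at hq
      have h4 : c ^ n = 1 := by
        have h5 : g⁻¹ * (g * c ^ n * g⁻¹) * g = c ^ n := by group
        rw [← h5, ← hq]
        group
      have h6 := hpow n (by rw [zpow_natCast, h4])
      omega
    have h7 := hb c hc hco g n q (by omega) hq0 (by rw [zpow_natCast, hq])
    refine ⟨n, by omega, ?_⟩
    rcases abs_eq_abs.1 h7 with h8 | h8
    · left
      rw [← hq, ← h8, zpow_natCast]
    · right
      have h9 : q = -n := by omega
      rw [← hq, h9, zpow_neg, zpow_natCast]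
  obtain ⟨S, hS⟩ := hL
  have hSL : ∀ s ∈ S, s ∈ commensurator E := fun s hs => hLc (hS ▸ Subgroup.subset_closure hs)
  choose! p hp0 hp using key
  obtain ⟨N, hN⟩ : ∃ N : ℕ, N = ∏ s ∈ S, p s := ⟨_, rfl⟩
  have hN0 : N ≠ 0 := by
    rw [hN]
    exact Finset.prod_ne_zero_iff.2 fun s hs => hp0 s (hSL s hs)
  have hsN : ∀ s ∈ S, s * c ^ N * s⁻¹ = c ^ N ∨ s * c ^ N * s⁻¹ = (c ^ N)⁻¹ := by
    intro s hs
    obtain ⟨m, hm⟩ : p s ∣ N := by
      rw [hN]
      exact Finset.dvd_prod_of_mem p hs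
    have h1 : s * c ^ N * s⁻¹ = (s * c ^ p s * s⁻¹) ^ m := by
      rw [conj_pow, ← pow_mul, hm]
    rcases hp s (hSL s hs) with h2 | h2
    · left
      rw [h1, h2, ← pow_mul, hm]
    · right
      rw [h1, h2, inv_pow, ← pow_mul, hm]
  have hLN : ∀ g ∈ L, g * c ^ N * g⁻¹ = c ^ N ∨ g * c ^ N * g⁻¹ = (c ^ N)⁻¹ := by
    intro g hg
    rw [← hS] at hg
    induction hg using Subgroup.closure_induction with
    | mem x hx => exact hsN x hx
    | one => left; simp
    | mul x y _ _ hx hy =>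
      have h1 : x * y * c ^ N * (x * y)⁻¹ = x * (y * c ^ N * y⁻¹) * x⁻¹ := by group
      rw [h1]
      rcases hy with hy | hy
      · rw [hy]
        exact hx
      · have h2 : x * (c ^ N)⁻¹ * x⁻¹ = (x * c ^ N * x⁻¹)⁻¹ := by group
        rw [hy, h2]
        rcases hx with hx | hx
        · right
          rw [hx]
        · left
          rw [hx, inv_inv]
    | inv x _ hx =>
      rcases hx with hx | hx
      · left
        nth_rewrite 1 [← hx]
        group
      · right
        have h3 : x⁻¹ * (x * c ^ N * x⁻¹)⁻¹ * x = (c ^ N)⁻¹ := by group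
        rw [hx, inv_inv] at h3
        rw [inv_inv]
        exact h3
  refine ⟨Subgroup.zpowers (c ^ N), ?_, ?_, ?_⟩
  · rw [Subgroup.zpowers_le]
    exact pow_mem hc N
  · refine Pool.Agent.U385.FJ.cyc_index hE (pow_mem hc N) (Subgroup.mem_zpowers _) fun m hm h => ?_
    rw [← pow_mul] at h
    have := hpow ((N * m : ℕ) : ℤ) (by rw [zpow_natCast, h])
    have h1 : N * m = 0 := by exact_mod_cast this
    rcases Nat.mul_eq_zero.1 h1 with h2 | h2
    · exact hN0 h2
    · exact hm h2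
  · rintro g hg _ ⟨k, rfl⟩
    have h1 : g * (c ^ N) ^ k * g⁻¹ = (g * c ^ N * g⁻¹) ^ k := by rw [conj_zpow]
    show g * (c ^ N) ^ k * g⁻¹ ∈ _
    rw [h1]
    rcases hLN g hg with h2 | h2
    · rw [h2]
      exact zpow_mem (Subgroup.mem_zpowers _) k
    · rw [h2]
      exact zpow_mem (inv_mem (Subgroup.mem_zpowers _)) k

variable {G V : Type} [Group G] [MulAction G V] {T : SimpleGraph V}

/-- **cyclic edge stabilizers which are balanced or stable** -/
theorem cyc_mix (hC : ClosedE C) (hM : ∀ (G : Type) [Group G], derivedSeries G 2 = ⊥ → C G)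
    (hA : AcylF C) (hT : T.IsTree) (hact : ∀ (g : G) (u v : V), T.Adj u v → T.Adj (g • u) (g • v))
    (hsq : ∀ v : V, SQ C (MulAction.stabilizer G v)) (hN : ∀ v u, T.Adj v u → IsCyclic (Es G v u))
    (h : ∀ v u, T.Adj v u → Infinite (Es G v u) →
      Bal (Es G v u) ∨ ∀ a b, T.Adj a b → Commensurable (Es G a b) (Es G v u) → Stb G a b) : C G := by
  refine mix_main hC hM hA hT hact (cyc_IsoE hN) hsq (fun _ _ => ⊥) ?_ fun v u hvu hinf => ?_
  · refine ⟨fun v u _ x hx => ?_, fun g v u _ x hx => ?_, fun v u w _ _ _ => rfl⟩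
    · rw [Subgroup.mem_bot.1 hx, one_smul]
    · rw [Subgroup.mem_bot.1 hx, mul_one, mul_inv_cancel]
      exact Subgroup.one_mem _
  · rcases h v u hvu hinf with h1 | h1
    · refine Or.inl ⟨⟨⊤, ?_, by rw [Subgroup.index_top]; exact one_ne_zero⟩, bal_lnorm (hN v u hvu) hinf h1⟩
      have := hN v u hvu
      refine Group.isSolvable_of_comm fun a b => ?_
      obtain ⟨z, hz⟩ := this.exists_generator
      obtain ⟨i, hi⟩ := hz a.1
      obtain ⟨j, hj⟩ := hz b.1
      apply Subtype.ext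
      show a.1 * b.1 = b.1 * a.1
      rw [← hi, ← hj]
      exact (Commute.zpow_zpow_self z i j).eq
    · exact Or.inr (Or.inl h1)

end Pool.Agent.U74.LN
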