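import Pool.Agent.U74.LN.Vs

/-!
# The class of groups all of whose quotients by virtually solvable groups are in `C`
-/

set_option autoImplicit false

namespace Pool.Agent.U74.LN

open Subgroup
open Pool.Agent.Y110.FJ
open Pool.Agent.R941.FJ (C_equiv C_le C_cyc)
open Pool.Agent.U74.LQ
open scoped commutatorElement

variable {C : ∀ (G : Type) [Group G], Prop}

/-- elements which act trivially on a finite quotient -/
theorem exists_act {N : Type} [Group N] (R S : Subgroup N) (hR : R.Normal) (hSn : S.Normal)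
    (hSf : S.relIndex R ≠ 0) :
    ∃ M : Subgroup N, M.index ≠ 0 ∧ ∀ g ∈ M, ∀ x ∈ R, x⁻¹ * (g * x * g⁻¹) ∈ S := by
  obtain ⟨Q, hQ⟩ : ∃ Q : Subgroup R, Q = S.subgroupOf R := ⟨_, rfl⟩
  have hQf : Finite (R ⧸ Q) := by
    rw [hQ]
    exact Subgroup.index_ne_zero_iff_finite.1 hSf
  have hmQ : ∀ x : R, x ∈ Q ↔ (x : N) ∈ S := fun x => by rw [hQ, Subgroup.mem_subgroupOf]
  let a : N → R ⧸ Q → R ⧸ Q := fun g => Quotient.map' (fun y => ⟨g * y * g⁻¹, hR.conj_mem y y.2 g⟩) (by
    intro x y hxy
    rw [QuotientGroup.leftRel_apply, hmQ] at hxy ⊢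
    have h1 := hSn.conj_mem _ hxy g
    have h2 : g * ((x⁻¹ * y : R) : N) * g⁻¹ = (g * x * g⁻¹)⁻¹ * (g * y * g⁻¹) := by
      push_cast
      group
    rw [h2] at h1
    exact h1)
  have ha : ∀ (g : N) (x : R), a g (QuotientGroup.mk x) = QuotientGroup.mk ⟨g * x * g⁻¹, hR.conj_mem x x.2 g⟩ :=
    fun _ _ => rfl
  have hamul : ∀ g h q, a (g * h) q = a g (a h q) := by
    intro g h q
    obtain ⟨x, rfl⟩ := QuotientGroup.mk_surjective q
    rw [ha, ha, ha]
    congr 1
    exact Subtype.ext (by simp [mul_assoc])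
  have haone : ∀ q, a 1 q = q := by
    intro q
    obtain ⟨x, rfl⟩ := QuotientGroup.mk_surjective q
    rw [ha]
    congr 1
    exact Subtype.ext (by simp)
  let act : MulAction N (R ⧸ Q) := { smul := a, one_smul := haone, mul_smul := hamul }
  refine ⟨(MulAction.toPermHom N (R ⧸ Q)).ker, ?_, ?_⟩
  · rw [Subgroup.index_ker]
    exact Nat.card_pos.ne'
  · intro g hg x hx
    rw [MonoidHom.mem_ker] at hg
    have h1 : a g (QuotientGroup.mk ⟨x, hx⟩) = QuotientGroup.mk ⟨x, hx⟩ :=
      congrArg (fun e : Equiv.Perm (R ⧸ Q) => e (QuotientGroup.mk ⟨x, hx⟩)) hg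
    rw [ha, eq_comm, QuotientGroup.eq, hmQ] at h1
    exact h1

/-- solvable subgroups which are solvable modulo a normal subgroup -/
theorem solv_of {G : Type} [Group G] (S : Subgroup G) (hS : S.Normal) (K : Subgroup G)
    (h1 : Group.IsSolvable S) (h2 : Group.IsSolvable (K.map (QuotientGroup.mk' S))) : Group.IsSolvable K := by
  let f : K →* K.map (QuotientGroup.mk' S) := (QuotientGroup.mk' S).subgroupMap K
  have hker : Group.IsSolvable f.ker := by
    let j : f.ker →* S := (K.subtype.comp f.ker.subtype).codRestrict S fun x => by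
      have hx : f (x : K) = 1 := x.2
      have hx' : (QuotientGroup.mk' S) ((x : K) : G) = 1 := congrArg Subtype.val hx
      exact (QuotientGroup.eq_one_iff _).1 hx'
    refine Group.isSolvable_of_isSolvable_injective (f := j) ?_
    intro x y hxy
    exact Subtype.ext (Subtype.ext (congrArg (fun z : S => (z : G)) hxy))
  exact Group.isSolvable_of_ker_le_range f.ker.subtype f (by rw [Subgroup.range_subtype])

/-- extensions of virtually solvable groups -/
theorem VS.ext {G : Type} [Group G] (N : Subgroup G) (hN : N.Normal) (h : VS N) (h' : VS (G ⧸ N)) : VS G := by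
  obtain ⟨S0, hS0, hi⟩ := h
  obtain ⟨S, hSn, hSN, hSs, hSf⟩ := exists_rad N hN (S0.map N.subtype)
    (Group.isSolvable_of_surjective (f := N.subtype.subgroupMap S0) (MonoidHom.subgroupMap_surjective _ S0))
    (by
      rw [Subgroup.relIndex]
      have h1 : (S0.map N.subtype).subgroupOf N = S0 := by
        rw [← Subgroup.comap_subtype, Subgroup.comap_map_eq_self_of_injective N.subtype_injective]
      rw [h1]
      exact hi)
  obtain ⟨M, hMi, hM⟩ := exists_act N S hN hSn hSf
  obtain ⟨B, hB, hBi⟩ := h'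
  obtain ⟨H, hH⟩ : ∃ H : Subgroup G, H = B.comap (QuotientGroup.mk' N) := ⟨_, rfl⟩
  have hHi : H.index ≠ 0 := by
    rw [hH, Subgroup.index_comap_of_surjective _ (QuotientGroup.mk'_surjective N)]
    exact hBi
  have hKi : (M ⊓ H).index ≠ 0 := Subgroup.index_inf_ne_zero hMi hHi
  refine ⟨M ⊓ H, ?_, hKi⟩
  -- `M ∩ N` is solvable
  have h1 : Group.IsSolvable (M ⊓ N : Subgroup G) := by
    refine solv_of S hSn _ hSs (Group.isSolvable_of_comm ?_)
    rintro ⟨_, x, ⟨hxM, hxN⟩, rfl⟩ ⟨_, y, ⟨hyM, hyN⟩, rfl⟩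
    apply Subtype.ext
    show (QuotientGroup.mk (x * y) : G ⧸ S) = QuotientGroup.mk (y * x)
    rw [QuotientGroup.eq]
    have h2 := hSn.conj_mem _ (hM y hyM x hxN) y⁻¹
    have h3 : (x * y)⁻¹ * (y * x) = y⁻¹ * (x⁻¹ * (y * x * y⁻¹)) * y⁻¹⁻¹ := by group
    rw [h3]
    exact h2
  -- `M ∩ H` modulo `N` is solvable
  let f : ↥(M ⊓ H) →* B := ((QuotientGroup.mk' N).comp (M ⊓ H).subtype).codRestrict B fun x =>
    hH.le x.2.2
  have hker : Group.IsSolvable f.ker := by
    let j : f.ker →* (M ⊓ N : Subgroup G) := ((M ⊓ H).subtype.comp f.ker.subtype).codRestrict _ fun x => by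
      have hx : f (x : ↥(M ⊓ H)) = 1 := x.2
      have hx' : (QuotientGroup.mk' N) ((x : ↥(M ⊓ H)) : G) = 1 := congrArg Subtype.val hx
      exact ⟨(x : ↥(M ⊓ H)).2.1, (QuotientGroup.eq_one_iff _).1 hx'⟩
    refine Group.isSolvable_of_isSolvable_injective (f := j) ?_
    intro x y hxy
    exact Subtype.ext (Subtype.ext (congrArg (fun z : (M ⊓ N : Subgroup G) => (z : G)) hxy))
  exact Group.isSolvable_of_ker_le_range f.ker.subtype f (by rw [Subgroup.range_subtype])

/-- subgroups -/
theorem SQ.of_injective (hC : ClosedE C) {A B : Type} [Group A] [Group B] (φ : A →* B)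
    (hφ : Function.Injective φ) (h : SQ C B) : SQ C A := by
  intro N R hR hvs
  have h1 := h.quot (N) (R.map N.subtype) (φ.comp N.subtype) (hφ.comp N.subtype_injective) ?_ ?_
  · obtain ⟨P, _, f, hP, hf⟩ := h1
    refine Pool.Agent.U74.BC.emb_of_ker hC (QuotientGroup.mk' R) (QuotientGroup.mk'_surjective R) f ?_ hP
    intro x
    rw [hf x, QuotientGroup.mk'_apply, QuotientGroup.eq_one_iff]
    constructor
    · intro hx
      exact ⟨x, hx, rfl⟩
    · rintro ⟨y, hy, hyx⟩
      rwa [← Subtype.ext hyx]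
  · have h2 : (R.map N.subtype).subgroupOf N = R := by
      rw [← Subgroup.comap_subtype, Subgroup.comap_map_eq_self_of_injective N.subtype_injective]
    rw [h2]
    exact hvs
  · have h2 : (R.map N.subtype).subgroupOf N = R := by
      rw [← Subgroup.comap_subtype, Subgroup.comap_map_eq_self_of_injective N.subtype_injective]
    rw [h2]
    exact hR

/-- quotients by virtually solvable normal subgroups -/
theorem SQ.quotient (hC : ClosedE C) {A : Type} [Group A] (h : SQ C A) (K : Subgroup A) [hK : K.Normal]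
    (hvs : VS K) : SQ C (A ⧸ K) := by
  intro N R hR hR'
  obtain ⟨N1, hN1⟩ : ∃ N1 : Subgroup A, N1 = N.comap (QuotientGroup.mk' K) := ⟨_, rfl⟩
  let π : N1 →* N := ((QuotientGroup.mk' K).comp N1.subtype).codRestrict N fun x =>
    hN1.le x.2
  have hπ : Function.Surjective π := by
    rintro ⟨q, hq⟩
    obtain ⟨x, rfl⟩ := QuotientGroup.mk_surjective q
    refine ⟨⟨x, ?_⟩, rfl⟩
    rw [hN1]
    exact hq
  obtain ⟨R1, hR1⟩ : ∃ R1 : Subgroup N1, R1 = R.comap π := ⟨_, rfl⟩
  have hn1 : R1.Normal := by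
    rw [hR1]
    exact hR.comap π
  have hm1 : ∀ x, x ∈ R1 ↔ π x ∈ R := fun x => by rw [hR1, Subgroup.mem_comap]
  have hvs1 : VS R1 := by
    let f : R1 →* R := (π.comp R1.subtype).codRestrict R fun x => (hm1 _).1 x.2
    have hfs : Function.Surjective f := by
      rintro ⟨y, hy⟩
      obtain ⟨x, rfl⟩ := hπ y
      exact ⟨⟨x, (hm1 x).2 hy⟩, rfl⟩
    have hk : VS f.ker := by
      let j : f.ker →* K := ((N1.subtype.comp R1.subtype).comp f.ker.subtype).codRestrict K fun x => by
        have hx : f (x : R1) = 1 := x.2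
        have hx1 : π ((x : R1) : N1) = 1 := congrArg Subtype.val hx
        have hx2 : (QuotientGroup.mk' K) (((x : R1) : N1) : A) = 1 := congrArg Subtype.val hx1
        exact (QuotientGroup.eq_one_iff _).1 hx2
      refine VS.of_injective j ?_ hvs
      intro x y hxy
      exact Subtype.ext (Subtype.ext (Subtype.ext (congrArg (fun z : K => (z : A)) hxy)))
    refine VS.ext f.ker inferInstance hk ?_
    exact VS.of_injective (QuotientGroup.kerLift f) (QuotientGroup.kerLift_injective f) hR'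
  have h1 := h N1 R1 hvs1
  refine Pool.Agent.U74.BC.emb_of_ker hC ((QuotientGroup.mk' R).comp π)
    ((QuotientGroup.mk'_surjective R).comp hπ) (QuotientGroup.mk' R1) ?_ h1
  intro x
  rw [QuotientGroup.mk'_apply, QuotientGroup.eq_one_iff, hm1]
  exact QuotientGroup.eq_one_iff (π x)

end Pool.Agent.U74.LN
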