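import Pool.Agent.U74.LN.Main
import Pool.Agent.U74.LN.Sq

/-!
# Edge groups which are equal or almost disjoint; unit groups of fields of prime degree
-/

set_option autoImplicit false

namespace Pool.Agent.U74.LN

open SimpleGraph Subgroup
open scoped Pointwise
open Subgroup.Commensurable (commensurator)
open Pool.Agent.Y110.FJ
open Pool.Agent.N509.TX (AcylF)
open Pool.Agent.N431.CE (Es mem_Es Es_comm Es_smul)

variable {C : ∀ (G : Type) [Group G], Prop}

variable {G V : Type} [Group G] [MulAction G V] {T : SimpleGraph V}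

/-- edge stabilizers at a vertex are equal or have a small intersection -/
def EqOrSmall (G : Type) {V : Type} [Group G] [MulAction G V] (T : SimpleGraph V) : Prop :=
  ∀ w a, T.Adj w a → ∃ N : ℕ, ∀ b, T.Adj w b →
    Es G w a = Es G w b ∨
      (Finite ↥(Es G w a ⊓ Es G w b) ∧ Nat.card ↥(Es G w a ⊓ Es G w b) ≤ N)

theorem path_eq (hE : EqOrSmall G T) (R : Subgroup G) (hR : Infinite R) {v a : V} (p : T.Walk v a) :
    (∀ x ∈ p.support, ∀ r ∈ R, r • x = x) → ∀ u b, T.Adj v u → T.Adj a b → (∀ r ∈ R, r • u = u) →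
      (∀ r ∈ R, r • b = b) → Es G v u = Es G a b := by
  have key : ∀ w s t, T.Adj w s → T.Adj w t → (∀ r ∈ R, r • w = w) → (∀ r ∈ R, r • s = s) →
      (∀ r ∈ R, r • t = t) → Es G w s = Es G w t := by
    intro w s t hs ht hw hfs hft
    obtain ⟨N, hN⟩ := hE w s hs
    rcases hN t ht with h1 | ⟨h1, -⟩
    · exact h1
    · exfalso
      have h2 : R ≤ Es G w s ⊓ Es G w t := fun r hr => ⟨⟨hw r hr, hfs r hr⟩, ⟨hw r hr, hft r hr⟩⟩
      have h3 := inf_of_le h2 hR
      exact not_finite_iff_infinite.2 h3 h1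
  induction p with
  | nil =>
    intro hp u b hu hb hfu hfb
    exact key _ u b hu hb (hp _ (Walk.start_mem_support _)) hfu hfb
  | @cons v w a hvw p ih =>
    intro hp u b hu hb hfu hfb
    have hv := hp v (Walk.start_mem_support _)
    have hw := hp w (by
      rw [Walk.support_cons]
      exact List.mem_cons_of_mem _ (Walk.start_mem_support _))
    have h1 := key v u w hu hvw hv hfu hw
    have h2 := ih (fun x hx => hp x (by
      rw [Walk.support_cons]
      exact List.mem_cons_of_mem _ hx)) v b hvw.symm hb hv hfb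
    rw [Es_comm] at h2
    exact h1.trans h2

theorem fin_inf_of_comm {A B : Subgroup G} (h : Commensurable A B) (hA : Infinite A) :
    Infinite ↥(A ⊓ B) := by
  by_contra hcon
  have hfin : Finite ↥(A ⊓ B) := not_infinite_iff_finite.1 hcon
  have h1 : (A ⊓ B).relIndex A ≠ 0 := by
    rw [Subgroup.inf_relIndex_left]
    exact h.2
  have hc : Commensurable A (A ⊓ B) :=
    ⟨by rw [Subgroup.relIndex_eq_one.2 inf_le_left]; exact one_ne_zero, h1⟩
  have := comm_fin hc hfin
  exact not_finite A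

/-- edge groups which are equal or almost disjoint -/
theorem eq_act (hT : T.IsTree) (hact : ∀ (g : G) (u v : V), T.Adj u v → T.Adj (g • u) (g • v))
    (hsq : ∀ v : V, SQ C (MulAction.stabilizer G v))
    (hvs : ∀ u v, T.Adj u v → Infinite (Es G u v) → VS (Es G u v)) (hE : EqOrSmall G T) : LAct C G T := by
  refine ⟨hT, hact, hsq, hvs, fun w a ha => ?_, fun u v huv hinf => ?_⟩
  · obtain ⟨N, hN⟩ := hE w a ha
    refine ⟨N, fun b hb _ => ?_⟩
    rcases hN b hb with h1 | h1
    · left
      rw [h1]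
    · exact Or.inr h1
  · intro L _ hL
    refine ⟨Es G u v, le_rfl, ?_, fun g hg x hx => ?_⟩
    · rw [Subgroup.relIndex_self]
      exact one_ne_zero
    · have h1 := hL hg
      rw [Commensurable.commensurator_mem_iff, ← Es_smul] at h1
      have h2 : Infinite ↥(Es G u v ⊓ Es G (g • u) (g • v)) := fin_inf_of_comm h1.symm hinf
      obtain ⟨p, hp, -⟩ := hT.existsUnique_path u (g • u)
      have h3 := path_eq hE (Es G u v ⊓ Es G (g • u) (g • v)) h2 p (fun x hx r hr =>
        Pool.Agent.U74.BC.fix_path hT hact hr.1.1 hr.2.1 p hp x hx) v (g • v) huv (hact g _ _ huv)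
        (fun r hr => hr.1.2) (fun r hr => hr.2.2)
      rw [h3]
      have e1 : x • u = u := hx.1
      have e2 : x • v = v := hx.2
      refine ⟨?_, ?_⟩
      · show (g * x * g⁻¹) • g • u = g • u
        rw [mul_smul, mul_smul, inv_smul_smul, e1]
      · show (g * x * g⁻¹) • g • v = g • v
        rw [mul_smul, mul_smul, inv_smul_smul, e2]

section Alg

variable {F M : Type*} [Field F] [Ring M] [Algebra F M]

/-- subfields of prime degree -/
def PrimeDeg (K : Subalgebra F M) : Prop := IsField K ∧ (Module.finrank F K).Prime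

theorem PrimeDeg.le_or (K L : Subalgebra F M) (hK : PrimeDeg K) : K ≤ L ∨ K ⊓ L = ⊥ := by
  obtain ⟨hf, hp⟩ := hK
  let _ := hf.toField
  have h1 : IsSimpleOrder (Subalgebra F K) := by
    have : IsDomain K := hf.isDomain
    exact Subalgebra.isSimpleOrder_of_finrank_prime F K hp
  rcases eq_bot_or_eq_top (L.comap K.val) with h2 | h2
  · right
    rw [eq_bot_iff]
    rintro x ⟨hxK, hxL⟩
    have h3 : (⟨x, hxK⟩ : K) ∈ L.comap K.val := hxL
    rw [h2, Algebra.mem_bot] at h3
    obtain ⟨c, hc⟩ := h3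
    rw [Algebra.mem_bot]
    exact ⟨c, congrArg Subtype.val hc⟩
  · left
    intro x hx
    have h3 : (⟨x, hx⟩ : K) ∈ L.comap K.val := by
      rw [h2]
      exact Algebra.mem_top
    exact h3

theorem PrimeDeg.eq_or (K L : Subalgebra F M) (hK : PrimeDeg K) (hL : PrimeDeg L) : K = L ∨ K ⊓ L = ⊥ := by
  rcases PrimeDeg.le_or K L hK with h1 | h1
  · rcases PrimeDeg.le_or L K hL with h2 | h2
    · exact Or.inl (le_antisymm h1 h2)
    · right
      rwa [inf_comm]
  · exact Or.inr h1

end Alg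

/-- the vertex stabilizers are groups of matrices with finitely many scalar matrices, the edge stabilizers
are the intersections with subfields of prime degree, or have bounded order -/
def UnitEdges (C : ∀ (G : Type) [Group G], Prop) (G : Type) {V : Type} [Group G] [MulAction G V]
    (T : SimpleGraph V) : Prop :=
  ∀ v : V, ∃ (F : Type) (_ : Field F) (n N : ℕ)
    (ρ : MulAction.stabilizer G v →* Matrix.GeneralLinearGroup (Fin n) F),
    Function.Injective ρ ∧ (∀ m : ℕ, C (Matrix.GeneralLinearGroup (Fin m) F)) ∧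
    {g | ∃ c : F, (ρ g : Matrix (Fin n) (Fin n) F) = c • 1}.Finite ∧
    ∀ u, T.Adj v u → (Finite (Es G v u) ∧ Nat.card (Es G v u) ≤ N) ∨
      ∃ K : Subalgebra F (Matrix (Fin n) (Fin n) F), PrimeDeg K ∧
        ∀ g : MulAction.stabilizer G v, (g : G) • u = u ↔ (ρ g : Matrix (Fin n) (Fin n) F) ∈ K

theorem small_of_le {A B : Subgroup G} {N M : ℕ} (h : A ≤ B) (hf : Finite B ∧ Nat.card B ≤ N) (hM : N ≤ M) :
    Finite A ∧ Nat.card A ≤ M := by
  obtain ⟨h1, h2⟩ := hf
  exact ⟨Finite.of_injective _ (Subgroup.inclusion_injective h),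
    (Nat.card_le_card_of_injective _ (Subgroup.inclusion_injective h)).trans (h2.trans hM)⟩

theorem unit_act (hC : ClosedE C) (hM : ∀ (G : Type) [Group G], derivedSeries G 2 = ⊥ → C G)
    (hT : T.IsTree) (hact : ∀ (g : G) (u v : V), T.Adj u v → T.Adj (g • u) (g • v))
    (h : UnitEdges C G T) : LAct C G T := by
  refine eq_act hT hact (fun v => ?_) (fun v u huv hinf => ?_) (fun w a ha => ?_)
  · obtain ⟨F, _, n, N, ρ, hρ, hF, -⟩ := h v
    exact lin_sq hC hM ⟨F, inferInstance, n, ρ, hρ, hF⟩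
  · obtain ⟨F, _, n, N, ρ, hρ, hF, -, hK⟩ := h v
    rcases hK u huv with ⟨hfi, -⟩ | ⟨K, hK, hm⟩
    · exact absurd hinf (not_infinite_iff_finite.2 hfi)
    refine ⟨⊤, Group.isSolvable_of_comm ?_, by rw [Subgroup.index_top]; exact one_ne_zero⟩
    rintro ⟨⟨x, hx⟩, -⟩ ⟨⟨y, hy⟩, -⟩
    have hx' := (hm ⟨x, hx.1⟩).1 hx.2
    have hy' := (hm ⟨y, hy.1⟩).1 hy.2
    have h1 := hK.1.mul_comm ⟨_, hx'⟩ ⟨_, hy'⟩
    have h2 : ρ (⟨x, hx.1⟩ * ⟨y, hy.1⟩) = ρ (⟨y, hy.1⟩ * ⟨x, hx.1⟩) := by
      rw [map_mul, map_mul]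
      exact Units.ext (congrArg Subtype.val h1)
    have h3 := hρ h2
    exact Subtype.ext (Subtype.ext (congrArg (fun z : MulAction.stabilizer G v => (z : G)) h3))
  · obtain ⟨F, _, n, N, ρ, hρ, hF, hfin, hK⟩ := h w
    refine ⟨{g | ∃ c : F, (ρ g : Matrix (Fin n) (Fin n) F) = c • 1}.ncard + N, fun b hb => ?_⟩
    rcases hK a ha with hfa | ⟨K, hK1, hm⟩
    · exact Or.inr (small_of_le inf_le_left hfa (Nat.le_add_left _ _))
    rcases hK b hb with hfb | ⟨L, hL1, hm'⟩
    · exact Or.inr (small_of_le inf_le_right hfb (Nat.le_add_left _ _))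
    rcases PrimeDeg.eq_or K L hK1 hL1 with h1 | h1
    · left
      subst h1
      apply le_antisymm
      · intro g hg
        exact ⟨hg.1, (hm' ⟨g, hg.1⟩).2 ((hm ⟨g, hg.1⟩).1 hg.2)⟩
      · intro g hg
        exact ⟨hg.1, (hm ⟨g, hg.1⟩).2 ((hm' ⟨g, hg.1⟩).1 hg.2)⟩
    · right
      let f : ↥(Es G w a ⊓ Es G w b) →
          {g : MulAction.stabilizer G w | ∃ c : F, (ρ g : Matrix (Fin n) (Fin n) F) = c • 1} := fun x =>
        ⟨⟨x, x.2.1.1⟩, by
          have h2 := (hm ⟨x, x.2.1.1⟩).1 x.2.1.2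
          have h3 := (hm' ⟨x, x.2.1.1⟩).1 x.2.2.2
          have h4 : (ρ ⟨x, x.2.1.1⟩ : Matrix (Fin n) (Fin n) F) ∈ K ⊓ L := ⟨h2, h3⟩
          rw [h1, Algebra.mem_bot] at h4
          obtain ⟨c, hc⟩ := h4
          refine ⟨c, ?_⟩
          rw [← hc, Algebra.algebraMap_eq_smul_one]⟩
      have hf : Function.Injective f := by
        intro x y hxy
        exact Subtype.ext (congrArg (fun z => ((z : MulAction.stabilizer G w) : G))
          (congrArg Subtype.val hxy))
      have hfi : Finite {g : MulAction.stabilizer G w | ∃ c : F, (ρ g : Matrix (Fin n) (Fin n) F) = c • 1} :=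
        hfin
      refine ⟨Finite.of_injective f hf, ?_⟩
      refine le_trans ?_ (Nat.le_add_right _ _)
      rw [← Nat.card_coe_set_eq]
      exact Nat.card_le_card_of_injective f hf

/-- groups of matrices whose determinants are roots of unity of bounded order have finitely many
scalar matrices -/
theorem fin_scalar {A : Type} [Group A] {F : Type} [Field F] {n : ℕ}
    (ρ : A →* Matrix.GeneralLinearGroup (Fin n) F) (hρ : Function.Injective ρ) (k : ℕ) (hk : k ≠ 0)
    (hdet : ∀ g, (ρ g : Matrix (Fin n) (Fin n) F).det ^ k = 1) :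
    {g | ∃ c : F, (ρ g : Matrix (Fin n) (Fin n) F) = c • 1}.Finite := by
  classical
  rcases Nat.eq_zero_or_pos n with hn | hn
  · subst hn
    refine Set.Subsingleton.finite ?_
    intro x _ y _
    exact hρ (Units.ext (Subsingleton.elim _ _))
  · have h1 : {c : F | c ^ (n * k) = 1}.Finite := by
      have h2 : {c : F | c ^ (n * k) = 1} ⊆ ((Polynomial.nthRoots (n * k) (1 : F)).toFinset : Set F) := by
        intro c hc
        rw [Finset.mem_coe, Multiset.mem_toFinset, Polynomial.mem_nthRoots (Nat.mul_pos hn (Nat.pos_of_ne_zero hk))]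
        exact hc
      exact (Finset.finite_toSet _).subset h2
    choose c hc using fun g : {g | ∃ c : F, (ρ g : Matrix (Fin n) (Fin n) F) = c • 1} => g.2
    refine Set.Finite.of_finite_image (f := fun g => (ρ g : Matrix (Fin n) (Fin n) F)) ?_ ?_
    · refine (h1.image fun c : F => c • (1 : Matrix (Fin n) (Fin n) F)).subset ?_
      rintro _ ⟨g, ⟨c, hc⟩, rfl⟩
      refine ⟨c, ?_, hc.symm⟩
      have h3 := hdet g
      rw [hc, Matrix.det_smul, Matrix.det_one, mul_one, Fintype.card_fin, ← pow_mul] at h3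
      exact h3
    · intro x _ y _ hxy
      exact hρ (Units.ext hxy)

end Pool.Agent.U74.LN
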