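import Pool.Agent.U74.LN.Cm
import Pool.Agent.U74.LN.Unit

/-!
# Arbitrary edge groups which are equal or almost disjoint; transvections with a given direction
-/

set_option autoImplicit false

namespace Pool.Agent.U74.LN

open SimpleGraph Subgroup
open scoped Pointwise
open Subgroup.Commensurable (commensurator)
open Pool.Agent.Y110.FJ
open Pool.Agent.R941.FJ (C_equiv C_le C_cyc)
open Pool.Agent.N509.TX (AcylF)
open Pool.Agent.N431.CE (Es mem_Es Es_comm Es_smul le_comm)
open Pool.Agent.U385.FJ (QC)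

variable {C : ∀ (G : Type) [Group G], Prop}
variable {G V : Type} [Group G] [MulAction G V] {T : SimpleGraph V}

/-- all groups with a normal subgroup isomorphic to `A` and cyclic quotient are in the class -/
def CycX (C : ∀ (G : Type) [Group G], Prop) (A : Type) [Group A] : Prop :=
  ∀ (H : Type) [Group H] (R : Subgroup H) [R.Normal], Nonempty (R ≃* A) → IsCyclic (H ⧸ R) → C H

/-- the quotient of the normalizer of `B` in `A` by `B` is in the class -/
def NormQ (C : ∀ (G : Type) [Group G], Prop) (A : Type) [Group A] (B : Subgroup A) : Prop :=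
  C (↥(Subgroup.normalizer (B : Set A)) ⧸ B.subgroupOf (Subgroup.normalizer (B : Set A)))

theorem eq_conj (hT : T.IsTree) (hact : ∀ (g : G) (u v : V), T.Adj u v → T.Adj (g • u) (g • v))
    (hE : EqOrSmall G T) {u v : V} (huv : T.Adj u v) (hinf : Infinite (Es G u v)) {g : G}
    (hg : g ∈ commensurator (Es G u v)) : ∀ x ∈ Es G u v, g * x * g⁻¹ ∈ Es G u v := by
  intro x hx
  have h1 := hg
  rw [Commensurable.commensurator_mem_iff, ← Es_smul] at h1
  have h2 : Infinite ↥(Es G u v ⊓ Es G (g • u) (g • v)) := fin_inf_of_comm h1.symm hinf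
  obtain ⟨p, hp, -⟩ := hT.existsUnique_path u (g • u)
  have h3 := path_eq hE (Es G u v ⊓ Es G (g • u) (g • v)) h2 p (fun x hx r hr =>
    Pool.Agent.U74.BC.fix_path hT hact hr.1.1 hr.2.1 p hp x hx) v (g • v) huv (hact g _ _ huv)
    (fun r hr => hr.1.2) (fun r hr => hr.2.2)
  rw [h3]
  have e1 : x • u = u := hx.1
  have e2 : x • v = v := hx.2
  refine ⟨?_, ?_⟩
  · show (g * x * g⁻¹) • g • u = g • u
    rw [mul_smul, mul_smul, inv_smul_smul, e1]
  · show (g * x * g⁻¹) • g • v = g • v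
    rw [mul_smul, mul_smul, inv_smul_smul, e2]

theorem normq_qc {v : V} {E : Subgroup G}
    (h : NormQ C (MulAction.stabilizer G v) (E.subgroupOf (MulAction.stabilizer G v))) :
    QC C (MulAction.stabilizer G v ⊓ Subgroup.normalizer (E : Set G)) E := by
  obtain ⟨B, hB⟩ : ∃ B : Subgroup (MulAction.stabilizer G v),
      B = E.subgroupOf (MulAction.stabilizer G v) := ⟨_, rfl⟩
  have hmB : ∀ x : MulAction.stabilizer G v, x ∈ B ↔ (x : G) ∈ E := fun x => by
    rw [hB, Subgroup.mem_subgroupOf]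
  rw [← hB] at h
  have hmem : ∀ x : ↥(MulAction.stabilizer G v ⊓ Subgroup.normalizer (E : Set G)),
      (⟨x, x.2.1⟩ : MulAction.stabilizer G v) ∈ Subgroup.normalizer (B : Set (MulAction.stabilizer G v)) := by
    intro x
    rw [Subgroup.mem_normalizer_iff]
    intro y
    rw [hmB, hmB]
    exact Subgroup.mem_normalizer_iff.1 x.2.2 y
  let f : ↥(MulAction.stabilizer G v ⊓ Subgroup.normalizer (E : Set G)) →*
      ↥(Subgroup.normalizer (B : Set (MulAction.stabilizer G v))) :=
    { toFun := fun x => ⟨⟨x, x.2.1⟩, hmem x⟩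
      map_one' := rfl
      map_mul' := fun x y => rfl }
  refine ⟨_, _, (QuotientGroup.mk' (B.subgroupOf (Subgroup.normalizer
    (B : Set (MulAction.stabilizer G v))))).comp f, h, fun x => ?_⟩
  show (QuotientGroup.mk (f x) : _ ⧸ B.subgroupOf (Subgroup.normalizer
    (B : Set (MulAction.stabilizer G v)))) = 1 ↔ _
  rw [QuotientGroup.eq_one_iff, Subgroup.mem_subgroupOf]
  exact hmB _

theorem comm_eq (hC : ClosedE C) (hA : AcylF C) (hT : T.IsTree)
    (hact : ∀ (g : G) (u v : V), T.Adj u v → T.Adj (g • u) (g • v))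
    (hV : ∀ v : V, C (MulAction.stabilizer G v)) (hE : EqOrSmall G T) (v u : V) (huv : T.Adj v u)
    (hinf : Infinite (Es G v u))
    (hN : ∀ a b, T.Adj a b → Infinite (Es G a b) →
      QC C (MulAction.stabilizer G a ⊓ Subgroup.normalizer (Es G a b : Set G)) (Es G a b))
    (hX : CycX C (Es G v u)) : C (commensurator (Es G v u)) := by
  classical
  obtain ⟨E, hEE⟩ : ∃ E : Subgroup G, E = Es G v u := ⟨_, rfl⟩
  obtain ⟨K, hK⟩ : ∃ K : Subgroup G, K = commensurator (Es G v u) := ⟨_, rfl⟩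
  rw [← hK]
  have hEK : E ≤ K := by
    rw [hK, hEE]
    exact le_comm _
  have hCE : C E := by
    rw [hEE]
    exact C_le hC.base inf_le_left (hV v)
  obtain ⟨R, hR⟩ : ∃ R : Subgroup K, R = E.subgroupOf K := ⟨_, rfl⟩
  have hmR : ∀ x : K, x ∈ R ↔ (x : G) ∈ E := fun x => by rw [hR, Subgroup.mem_subgroupOf]
  have hRn : R.Normal := by
    refine ⟨fun x hx g => ?_⟩
    rw [hmR, hEE] at hx ⊢
    have hg : (g : G) ∈ commensurator (Es G v u) := hK ▸ g.2
    exact eq_conj hT hact hE huv hinf hg _ hx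
  have hRE : Nonempty (R ≃* Es G v u) := by
    rw [hR, ← hEE]
    exact ⟨Subgroup.subgroupOfEquivOfLe hEK⟩
  obtain ⟨eR⟩ := hRE
  refine Pool.Agent.Y529.FJ.t_ext C hC _ R ?_ ?_ ?_
  · rw [hEE] at hCE
    exact C_equiv hC.base eR hCE
  · refine quo_fix (G := K) (T := T) hC hA hT (fun g u v h' => hact g u v h') R v ?_ ?_ ?_
    · intro r hr
      have := (hmR r).1 hr
      rw [hEE] at this
      exact this.1
    · intro a b hab hfa hfb
      have hfa' : ∀ r ∈ E, r • a = a := fun r hr => hfa ⟨r, hEK hr⟩ ((hmR _).2 hr)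
      have hfb' : ∀ r ∈ E, r • b = b := fun r hr => hfb ⟨r, hEK hr⟩ ((hmR _).2 hr)
      have hfv' : ∀ r ∈ E, r • v = v := fun r hr => (hEE ▸ hr : r ∈ Es G v u).1
      have hfu' : ∀ r ∈ E, r • u = u := fun r hr => (hEE ▸ hr : r ∈ Es G v u).2
      obtain ⟨p, hp, -⟩ := hT.existsUnique_path v a
      have h1 := path_eq hE E (hEE ▸ hinf) p (fun x hx r hr =>
        Pool.Agent.U74.BC.fix_path hT hact (hfv' r hr) (hfa' r hr) p hp x hx) u b huv hab hfu' hfb'
      have h2 : R = Es K a b := by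
        ext x
        rw [hmR, hEE, h1]
        rfl
      rw [← h2, Subgroup.relIndex_self]
      exact one_ne_zero
    · intro x hfx
      have hfx' : ∀ r ∈ E, r • x = x := fun r hr => hfx ⟨r, hEK hr⟩ ((hmR _).2 hr)
      have hfv' : ∀ r ∈ E, r • v = v := fun r hr => (hEE ▸ hr : r ∈ Es G v u).1
      have hfu' : ∀ r ∈ E, r • u = u := fun r hr => (hEE ▸ hr : r ∈ Es G v u).2
      -- a neighbour of `x` which is fixed
      obtain ⟨b, hxb, hb⟩ : ∃ b, T.Adj x b ∧ Es G x b = Es G v u := by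
        by_cases hxv : x = v
        · subst hxv
          exact ⟨u, huv, rfl⟩
        · obtain ⟨p, hp, -⟩ := hT.existsUnique_path x v
          cases p with
          | nil => exact absurd rfl hxv
          | @cons _ b _ hxb p =>
            have hfix : ∀ y ∈ (Walk.cons hxb p).support, ∀ r ∈ E, r • y = y := fun y hy r hr =>
              Pool.Agent.U74.BC.fix_path hT hact (hfx' r hr) (hfv' r hr) _ hp y hy
            have hfb : ∀ r ∈ E, r • b = b := hfix b (by
              rw [Walk.support_cons]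
              exact List.mem_cons_of_mem _ (Walk.start_mem_support _))
            refine ⟨b, hxb, ?_⟩
            exact path_eq hE E (hEE ▸ hinf) (Walk.cons hxb p) hfix b u hxb huv hfb hfu'
      have hinf' : Infinite (Es G x b) := by
        rw [hb]
        exact hinf
      obtain ⟨P, _, f, hP, hf⟩ := hN x b hxb hinf'
      have hle : ∀ g : MulAction.stabilizer K x, ((g : K) : G) ∈
          MulAction.stabilizer G x ⊓ Subgroup.normalizer (Es G x b : Set G) := by
        intro g
        refine ⟨g.2, ?_⟩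
        show ((g : K) : G) ∈ Subgroup.normalizer (Es G x b : Set G)
        rw [hb, Subgroup.mem_normalizer_iff]
        have hgK : ((g : K) : G) ∈ commensurator (Es G v u) := hK ▸ (g : K).2
        intro y
        constructor
        · exact eq_conj hT hact hE huv hinf hgK y
        · intro hy
          have h3 := eq_conj hT hact hE huv hinf (inv_mem hgK) _ hy
          have h4 : ((g : K) : G)⁻¹ * (((g : K) : G) * y * ((g : K) : G)⁻¹) * ((g : K) : G)⁻¹⁻¹ = y := by
            group
          rwa [h4] at h3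
      let j : MulAction.stabilizer K x →*
          ↥(MulAction.stabilizer G x ⊓ Subgroup.normalizer (Es G x b : Set G)) :=
        (K.subtype.comp (Subgroup.subtype _)).codRestrict _ hle
      refine ⟨P, _, f.comp j, hP, fun g => ?_⟩
      show f (j g) = 1 ↔ _
      rw [hf, hmR, hEE, ← hb]
      rfl
  · intro g _
    obtain ⟨M, hM⟩ : ∃ M : Subgroup K, M = R ⊔ Subgroup.zpowers g := ⟨_, rfl⟩
    rw [← hM]
    have hRM : R ≤ M := by
      rw [hM]
      exact le_sup_left
    have hgM : g ∈ M := by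
      rw [hM]
      exact Subgroup.mem_sup_right (Subgroup.mem_zpowers g)
    have hn : (R.subgroupOf M).Normal := hRn.subgroupOf M
    refine hX M (R.subgroupOf M) ⟨(Subgroup.subgroupOfEquivOfLe hRM).trans eR⟩ ?_
    refine ⟨⟨QuotientGroup.mk ⟨g, hgM⟩, fun q => ?_⟩⟩
    obtain ⟨⟨x, hx⟩, rfl⟩ := QuotientGroup.mk_surjective q
    have hx' : x ∈ R ⊔ Subgroup.zpowers g := hM ▸ hx
    obtain ⟨r, hr, z, ⟨k, rfl⟩, hrz⟩ := Subgroup.mem_sup_of_normal_left.1 hx'
    refine ⟨k, ?_⟩
    show (QuotientGroup.mk (⟨g, hgM⟩ : M) : M ⧸ R.subgroupOf M) ^ k = _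
    rw [← QuotientGroup.mk_zpow, QuotientGroup.eq, Subgroup.mem_subgroupOf]
    show (g ^ k)⁻¹ * x ∈ R
    have hrz' : r * g ^ k = x := hrz
    rw [← hrz', ← mul_assoc]
    have := hRn.conj_mem r hr (g ^ k)⁻¹
    rwa [inv_inv] at this

/-- **arbitrary edge groups which are equal or almost disjoint** -/
theorem eqs_main (hC : ClosedE C) (hA : AcylF C) (hT : T.IsTree)
    (hact : ∀ (g : G) (u v : V), T.Adj u v → T.Adj (g • u) (g • v))
    (hV : ∀ v : V, C (MulAction.stabilizer G v)) (hE : EqOrSmall G T)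
    (hN : ∀ v u, T.Adj v u → Infinite (Es G v u) →
      NormQ C (MulAction.stabilizer G v) ((Es G v u).subgroupOf (MulAction.stabilizer G v)) ∧
        CycX C (Es G v u)) : C G := by
  refine comm_main hC hA hT hact hV (fun w a ha => ?_) fun v u hvu hinf => ?_
  · obtain ⟨N, hN⟩ := hE w a ha
    refine ⟨N, fun b hb _ => ?_⟩
    rcases hN b hb with h1 | h1
    · left
      rw [h1]
    · exact Or.inr h1
  · exact comm_eq hC hA hT hact hV hE v u hvu hinf
      (fun a b hab hinf' => normq_qc (hN a b hab hinf').1) (hN v u hvu hinf).2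

/-- virtually solvable groups -/
theorem cycX_vs (hC : ClosedE C) (hM : ∀ (G : Type) [Group G], derivedSeries G 2 = ⊥ → C G)
    {A : Type} [Group A] (h : VS A) : CycX C A := by
  rintro H _ R _ ⟨e⟩ ⟨q, hq⟩
  obtain ⟨g, rfl⟩ := QuotientGroup.mk_surjective q
  have hR : VS R := VS.of_injective e.toMonoidHom e.injective h
  have h1 := C_vs hC hM (vs_sup R inferInstance hR g)
  have h2 : R ⊔ Subgroup.zpowers g = ⊤ := by
    rw [eq_top_iff]
    intro x _
    obtain ⟨k, hk⟩ := hq (QuotientGroup.mk x)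
    have hk' : (QuotientGroup.mk g : H ⧸ R) ^ k = QuotientGroup.mk x := hk
    rw [← QuotientGroup.mk_zpow, QuotientGroup.eq] at hk'
    have h3 : g ^ k * ((g ^ k)⁻¹ * x) = x := by group
    rw [← h3]
    exact mul_mem (Subgroup.mem_sup_right ⟨k, rfl⟩) (Subgroup.mem_sup_left hk')
  rw [h2] at h1
  exact C_equiv hC.base Subgroup.topEquiv.symm h1

/-- groups whose outer automorphisms have finite order -/
theorem cycX_out (hC : ClosedE C) {A : Type} [Group A] (hCA : C A)
    (hout : ∀ f : MulAut A, ∃ n : ℕ, n ≠ 0 ∧ f ^ n ∈ (MulAut.conj (G := A)).range) : CycX C A := by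
  rintro H _ R _ ⟨e⟩ ⟨q, hq⟩
  obtain ⟨g, rfl⟩ := QuotientGroup.mk_surjective q
  have hCR : C R := C_equiv hC.base e hCA
  by_cases hfin : Finite (H ⧸ R)
  · exact hC.base.finiteIndex H R ⟨Subgroup.index_ne_zero_iff_finite.2 hfin⟩ hCR
  have hpow : ∀ k : ℤ, g ^ k ∈ R → k = 0 := by
    intro k hk
    by_contra hk0
    apply hfin
    have h1 : (QuotientGroup.mk g : H ⧸ R) ^ k = 1 := by
      rw [← QuotientGroup.mk_zpow]
      exact (QuotientGroup.eq_one_iff _).2 hk
    have h2 : IsOfFinOrder (QuotientGroup.mk g : H ⧸ R) := isOfFinOrder_iff_zpow_eq_one.2 ⟨k, hk0, h1⟩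
    have h3 : Finite (Subgroup.zpowers (QuotientGroup.mk g : H ⧸ R)) := (finite_zpowers.2 h2).to_subtype
    have h4 : Subgroup.zpowers (QuotientGroup.mk g : H ⧸ R) = ⊤ := by
      rw [eq_top_iff]
      intro x _
      exact hq x
    rw [h4] at h3
    exact Finite.of_equiv _ Subgroup.topEquiv.toEquiv
  -- conjugation by `g`
  obtain ⟨f, hf⟩ : ∃ f : MulAut A, ∀ r : R, f (e r) = e (MulAut.conjNormal g r) :=
    ⟨(e.symm.trans (MulAut.conjNormal g)).trans e, fun r => by simp⟩
  obtain ⟨n, hn, c, hc⟩ := hout f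
  have hfn : ∀ (m : ℕ) (r : R), (f ^ m) (e r) = e (MulAut.conjNormal (g ^ m) r) := by
    intro m
    induction m with
    | zero => intro r; simp
    | succ m ih =>
      intro r
      rw [pow_succ', MulAut.mul_apply, ih, hf, pow_succ', map_mul, MulAut.mul_apply]
  obtain ⟨z, hz⟩ : ∃ z : H, z = ((e.symm c : R) : H)⁻¹ * g ^ n := ⟨_, rfl⟩
  have hcomm : ∀ r : R, z * r = r * z := by
    intro r
    have h1 := hfn n r
    rw [← hc] at h1
    have h2 : e (e.symm c * r * (e.symm c)⁻¹) = e (MulAut.conjNormal (g ^ n) r) := by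
      rw [map_mul, map_mul, map_inv, e.apply_symm_apply]
      exact h1
    have h3 := congrArg (Subtype.val) (e.injective h2)
    rw [MulAut.conjNormal_apply] at h3
    have h4 : ((e.symm c : R) : H) * r * ((e.symm c : R) : H)⁻¹ = g ^ n * r * (g ^ n)⁻¹ := h3
    rw [hz]
    have h5 : g ^ n * (r : H) = ((e.symm c : R) : H) * r * ((e.symm c : R) : H)⁻¹ * g ^ n := by
      rw [h4]
      group
    rw [mul_assoc, h5]
    group
  have hzk : ∀ k : ℤ, ∃ r : R, z ^ k = r * g ^ ((n : ℤ) * k) := by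
    have h1 : (QuotientGroup.mk z : H ⧸ R) = QuotientGroup.mk g ^ n := by
      rw [← QuotientGroup.mk_pow, QuotientGroup.eq, hz]
      have h6 : (((e.symm c : R) : H)⁻¹ * g ^ n)⁻¹ * g ^ n =
          (g ^ n)⁻¹ * ((e.symm c : R) : H) * (g ^ n)⁻¹⁻¹ := by group
      rw [h6]
      exact (inferInstance : R.Normal).conj_mem _ (e.symm c).2 _
    intro k
    have h2 : (QuotientGroup.mk (z ^ k) : H ⧸ R) = QuotientGroup.mk (g ^ ((n : ℤ) * k)) := by
      rw [QuotientGroup.mk_zpow, h1, QuotientGroup.mk_zpow, zpow_mul, zpow_natCast]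
    have h3 := QuotientGroup.eq.1 h2.symm
    refine ⟨⟨z ^ k * (g ^ ((n : ℤ) * k))⁻¹, ?_⟩, by group⟩
    have h4 := (inferInstance : R.Normal).conj_mem _ h3 (g ^ ((n : ℤ) * k))
    have h5 : g ^ ((n : ℤ) * k) * ((g ^ ((n : ℤ) * k))⁻¹ * z ^ k) * (g ^ ((n : ℤ) * k))⁻¹ =
        z ^ k * (g ^ ((n : ℤ) * k))⁻¹ := by group
    rwa [h5] at h4
  -- the direct product
  let ψ : R × Multiplicative ℤ →* H :=
    { toFun := fun p => (p.1 : H) * z ^ (Multiplicative.toAdd p.2)
      map_one' := by simp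
      map_mul' := by
        rintro ⟨a, i⟩ ⟨b, j⟩
        show ((a * b : R) : H) * z ^ (Multiplicative.toAdd i + Multiplicative.toAdd j) =
          (a : H) * z ^ (Multiplicative.toAdd i) * ((b : H) * z ^ (Multiplicative.toAdd j))
        have h1 : Commute (z ^ (Multiplicative.toAdd i)) (b : H) := (show Commute z (b : H) from hcomm b).zpow_left _
        rw [Subgroup.coe_mul, zpow_add, mul_assoc, mul_assoc, ← mul_assoc (z ^ _) (b : H), h1.eq, mul_assoc] }
  have hψ : Function.Injective ψ := by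
    rw [injective_iff_map_eq_one]
    rintro ⟨a, i⟩ h1
    have h1 : (a : H) * z ^ (Multiplicative.toAdd i) = 1 := h1
    obtain ⟨r, hr⟩ := hzk (Multiplicative.toAdd i)
    have h2 : g ^ ((n : ℤ) * Multiplicative.toAdd i) ∈ R := by
      have h3 : g ^ ((n : ℤ) * Multiplicative.toAdd i) = (r : H)⁻¹ * (a : H)⁻¹ := by
        have h4 : (a : H) * (r * g ^ ((n : ℤ) * Multiplicative.toAdd i)) = 1 := by rw [← hr, h1]
        rw [← mul_assoc] at h4
        rw [← mul_inv_rev]
        exact (inv_eq_of_mul_eq_one_right h4).symm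
      rw [h3]
      exact mul_mem (inv_mem r.2) (inv_mem a.2)
    have h3 := hpow _ h2
    have h4 : Multiplicative.toAdd i = 0 := by
      rcases mul_eq_zero.1 h3 with h5 | h5
      · exact absurd (by exact_mod_cast h5) hn
      · exact h5
    rw [h4, zpow_zero, mul_one] at h1
    have h5 : i = 1 := h4
    exact Prod.ext (Subtype.ext h1) h5
  have hCM : C ψ.range := by
    refine C_equiv hC.base (MonoidHom.ofInjective hψ).symm ?_
    exact hC.base.prod _ _ hCR hC.base.int
  refine hC.base.finiteIndex H ψ.range ?_ hCM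
  refine ⟨fun h0 => ?_⟩
  have hnpos : 0 < n := Nat.pos_of_ne_zero hn
  -- finitely many cosets
  have hsurj : Function.Surjective (fun i : Fin n => (QuotientGroup.mk (g ^ (i : ℕ)) : H ⧸ ψ.range)) := by
    intro q
    obtain ⟨x, rfl⟩ := QuotientGroup.mk_surjective q
    obtain ⟨k, hk⟩ := hq (QuotientGroup.mk x)
    have hk' : (QuotientGroup.mk g : H ⧸ R) ^ k = QuotientGroup.mk x := hk
    refine ⟨⟨(k % n).toNat, ?_⟩, ?_⟩
    · have h1 := Int.emod_lt_of_pos k (show (0 : ℤ) < n by exact_mod_cast hnpos)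
      have h2 := Int.emod_nonneg k (show (n : ℤ) ≠ 0 by exact_mod_cast hn)
      omega
    · show (QuotientGroup.mk (g ^ (k % n).toNat) : H ⧸ ψ.range) = QuotientGroup.mk x
      have h2 := Int.emod_nonneg k (show (n : ℤ) ≠ 0 by exact_mod_cast hn)
      rw [QuotientGroup.eq]
      have h3 : g ^ (k % n).toNat = g ^ (k % (n : ℤ)) := by
        rw [← zpow_natCast, Int.toNat_of_nonneg h2]
      rw [h3]
      -- `g ^ (-(k % n)) * x = g ^ (n * (k / n)) * r`
      rw [← QuotientGroup.mk_zpow, QuotientGroup.eq] at hk'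
      obtain ⟨r1, hr1⟩ := hzk (k / n)
      have h4 : (g ^ (k % (n : ℤ)))⁻¹ * x = g ^ ((n : ℤ) * (k / n)) * ((g ^ k)⁻¹ * x) := by
        have h5 : g ^ k = g ^ (k % (n : ℤ)) * g ^ ((n : ℤ) * (k / n)) := by
          rw [← zpow_add, Int.emod_add_mul_ediv]
        rw [h5]
        group
      rw [h4]
      have h6 : g ^ ((n : ℤ) * (k / n)) = (r1 : H)⁻¹ * z ^ (k / (n : ℤ)) := by
        rw [hr1]
        group
      rw [h6]
      have h7 : ∀ r : R, (r : H) ∈ ψ.range := fun r => ⟨(r, 1), by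
        show (r : H) * z ^ (0 : ℤ) = r
        rw [zpow_zero, mul_one]⟩
      have h8 : ∀ k : ℤ, z ^ k ∈ ψ.range := fun k => ⟨(1, Multiplicative.ofAdd k), by
        show ((1 : R) : H) * z ^ k = z ^ k
        rw [Subgroup.coe_one, one_mul]⟩
      exact mul_mem (mul_mem (inv_mem (h7 r1)) (h8 _)) (h7 ⟨_, hk'⟩)
  have := Finite.of_surjective _ hsurj
  exact Subgroup.index_ne_zero_of_finite h0

section lines

variable {F : Type} [Field F] {n : ℕ}

/-- the matrix `g` is trivial modulo the line of `w`: it is `1`, or a transvection or a dilation in the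
direction of `w` -/
def Dir (w : Fin n → F) (g : Matrix (Fin n) (Fin n) F) : Prop := ∃ φ : Fin n → F, g = 1 + Matrix.vecMulVec w φ

theorem dir_comm {w : Fin n → F} {a b : Matrix (Fin n) (Fin n) F} (ha : Dir w a) (hb : Dir w b)
    (ha1 : a.det = 1) (hb1 : b.det = 1) : a * b = b * a := by
  obtain ⟨φ, rfl⟩ := ha
  obtain ⟨ψ, rfl⟩ := hb
  have hdet : ∀ φ : Fin n → F, (1 + Matrix.vecMulVec w φ).det = 1 + φ ⬝ᵥ w := by
    intro φ
    rw [Matrix.vecMulVec_eq Unit, Matrix.det_one_add_replicateCol_mul_replicateRow]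
  rw [hdet] at ha1 hb1
  have h1 : φ ⬝ᵥ w = 0 := by linear_combination ha1
  have h2 : ψ ⬝ᵥ w = 0 := by linear_combination hb1
  simp only [mul_add, add_mul, mul_one, one_mul, Matrix.vecMulVec_mul_vecMulVec, h1, h2, zero_smul,
    Matrix.vecMulVec_zero]
  abel

theorem dir_one {w w' : Fin n → F} {a : Matrix (Fin n) (Fin n) F} (ha : Dir w a) (hb : Dir w' a)
    (h : ¬ ∃ c : F, c ≠ 0 ∧ w' = c • w) (hw' : w' ≠ 0) : a = 1 := by
  obtain ⟨φ, rfl⟩ := ha
  obtain ⟨ψ, hψ⟩ := hb
  have h1 : Matrix.vecMulVec w φ = Matrix.vecMulVec w' ψ := add_left_cancel hψ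
  have h2 : ψ = 0 := by
    by_contra h0
    obtain ⟨j, hj⟩ := Function.ne_iff.1 h0
    have hj : ψ j ≠ 0 := hj
    apply h
    have h3 : ∀ i, w i * φ j = w' i * ψ j := fun i => by
      have := congrFun (congrFun h1 i) j
      rwa [Matrix.vecMulVec_apply, Matrix.vecMulVec_apply] at this
    refine ⟨φ j / ψ j, ?_, ?_⟩
    · intro h4
      have h5 : φ j = 0 := by
        rcases div_eq_zero_iff.1 h4 with h6 | h6
        · exact h6
        · exact absurd h6 hj
      apply hw'
      funext i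
      have h7 := h3 i
      rw [h5, mul_zero] at h7
      rcases mul_eq_zero.1 h7.symm with h8 | h8
      · exact h8
      · exact absurd h8 hj
    · funext i
      have h7 := h3 i
      rw [Pi.smul_apply, smul_eq_mul]
      field_simp
      rw [← h7]
      ring
  rw [h1, h2, Matrix.vecMulVec_zero, add_zero]

theorem dir_smul {w : Fin n → F} {c : F} (hc : c ≠ 0) {a : Matrix (Fin n) (Fin n) F} :
    Dir (c • w) a ↔ Dir w a := by
  constructor
  · rintro ⟨φ, rfl⟩
    refine ⟨c • φ, ?_⟩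
    congr 1
    ext i j
    simp only [Matrix.vecMulVec_apply, Pi.smul_apply, smul_eq_mul]
    ring
  · rintro ⟨φ, rfl⟩
    refine ⟨c⁻¹ • φ, ?_⟩
    congr 1
    ext i j
    simp only [Matrix.vecMulVec_apply, Pi.smul_apply, smul_eq_mul]
    field_simp

end lines

/-- the vertex stabilizers are groups of matrices, the stabilizer of an edge at `v` consists of all
transvections and dilations in the stabilizer of `v` with a given direction, or has bounded order -/
def LineEdges (C : ∀ (G : Type) [Group G], Prop) (G : Type) {V : Type} [Group G] [MulAction G V]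
    (T : SimpleGraph V) : Prop :=
  ∀ v : V, ∃ (F : Type) (_ : Field F) (n N : ℕ)
    (ρ : MulAction.stabilizer G v →* Matrix.GeneralLinearGroup (Fin n) F),
    Function.Injective ρ ∧ (∀ m : ℕ, C (Matrix.GeneralLinearGroup (Fin m) F)) ∧
    ∀ u, T.Adj v u → (Finite (Es G v u) ∧ Nat.card (Es G v u) ≤ N) ∨
      ∃ w : Fin n → F, w ≠ 0 ∧
        ∀ g : MulAction.stabilizer G v, (g : G) • u = u ↔ Dir w (ρ g : Matrix (Fin n) (Fin n) F)

theorem line_act (hC : ClosedE C) (hM : ∀ (G : Type) [Group G], derivedSeries G 2 = ⊥ → C G)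
    (hT : T.IsTree) (hact : ∀ (g : G) (u v : V), T.Adj u v → T.Adj (g • u) (g • v))
    (h : LineEdges C G T) : LAct C G T := by
  refine eq_act hT hact (fun v => ?_) (fun v u huv hinf => ?_) (fun w a ha => ?_)
  · obtain ⟨F, _, n, N, ρ, hρ, hF, -⟩ := h v
    exact lin_sq hC hM ⟨F, inferInstance, n, ρ, hρ, hF⟩
  · obtain ⟨F, _, n, N, ρ, hρ, hF, hK⟩ := h v
    rcases hK u huv with ⟨hfi, -⟩ | ⟨w, hw, hm⟩
    · exact absurd hinf (not_infinite_iff_finite.2 hfi)
    refine ⟨⊤, ?_, by rw [Subgroup.index_top]; exact one_ne_zero⟩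
    let j : Es G v u →* MulAction.stabilizer G v := Subgroup.inclusion inf_le_left
    have hj : Function.Injective j := Subgroup.inclusion_injective _
    let d : Es G v u →* Fˣ := Matrix.GeneralLinearGroup.det.comp (ρ.comp j)
    have h1 : Group.IsSolvable d.ker := by
      refine Group.isSolvable_of_comm ?_
      rintro ⟨x, hx⟩ ⟨y, hy⟩
      have hx1 : (ρ (j x) : Matrix (Fin n) (Fin n) F).det = 1 := congrArg Units.val hx
      have hy1 : (ρ (j y) : Matrix (Fin n) (Fin n) F).det = 1 := congrArg Units.val hy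
      have h2 := dir_comm ((hm (j x)).1 x.2.2) ((hm (j y)).1 y.2.2) hx1 hy1
      have h3 : ρ (j (x * y)) = ρ (j (y * x)) := by
        rw [map_mul, map_mul, map_mul, map_mul]
        exact Units.ext h2
      exact Subtype.ext (hj (hρ h3))
    have h2 : Group.IsSolvable (Es G v u) :=
      Group.isSolvable_of_ker_le_range d.ker.subtype d (by rw [Subgroup.range_subtype])
    exact Group.isSolvable_of_isSolvable_injective
      (f := (Subgroup.topEquiv : (⊤ : Subgroup (Es G v u)) ≃* Es G v u).toMonoidHom)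
      (Subgroup.topEquiv : (⊤ : Subgroup (Es G v u)) ≃* Es G v u).injective
  · obtain ⟨F, _, n, N, ρ, hρ, hF, hK⟩ := h w
    refine ⟨N + 1, fun b hb => ?_⟩
    rcases hK a ha with hfa | ⟨x, hx, hm⟩
    · exact Or.inr (small_of_le inf_le_left hfa (Nat.le_add_right _ _))
    rcases hK b hb with hfb | ⟨y, hy, hm'⟩
    · exact Or.inr (small_of_le inf_le_right hfb (Nat.le_add_right _ _))
    by_cases hxy : ∃ c : F, c ≠ 0 ∧ y = c • x
    · left
      obtain ⟨c, hc, rfl⟩ := hxy
      apply le_antisymm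
      · intro g hg
        exact ⟨hg.1, (hm' ⟨g, hg.1⟩).2 ((dir_smul hc).2 ((hm ⟨g, hg.1⟩).1 hg.2))⟩
      · intro g hg
        exact ⟨hg.1, (hm ⟨g, hg.1⟩).2 ((dir_smul hc).1 ((hm' ⟨g, hg.1⟩).1 hg.2))⟩
    · right
      have h1 : Es G w a ⊓ Es G w b = ⊥ := by
        rw [eq_bot_iff]
        rintro g ⟨hga, hgb⟩
        have h2 := dir_one ((hm ⟨g, hga.1⟩).1 hga.2) ((hm' ⟨g, hga.1⟩).1 hgb.2) hxy hy
        have h3 : ρ ⟨g, hga.1⟩ = ρ 1 := by
          rw [map_one]
          exact Units.ext h2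
        exact congrArg Subtype.val (hρ h3)
      rw [h1]
      refine ⟨inferInstance, ?_⟩
      rw [Subgroup.card_bot]
      omega

end Pool.Agent.U74.LN
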