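import Pool.Agent.U74.LN.Vs
import Pool.Agent.U74.BC.Am

/-!
# Finite edge groups without a bound, and quotients by normal subgroups
-/

set_option autoImplicit false

namespace Pool.Agent.U74.LN

open SimpleGraph Subgroup
open Pool.Agent.Y110.FJ
open Pool.Agent.R941.FJ (C_equiv C_le C_cyc)
open Pool.Agent.N509.TX (AcylF finedge fg_subtree STree of_fg C_stab C_edge)
open Pool.Agent.N431.CE (Es mem_Es Es_comm Es_smul cylF rf rf_LR Rf Rf_gen le_comm mem_comm_iff)
open Pool.Agent.U74.BC (emb_of_ker fix_path)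
open Pool.Agent.U385.FJ (QC)

variable {C : ∀ (G : Type) [Group G], Prop}
variable {G V : Type} [Group G] [MulAction G V] {T : SimpleGraph V}

/-- finitely generated groups acting with finite edge stabilizers -/
theorem fin_edges_fg (hC : ClosedE C) (hA : AcylF C) (hfg : Group.FG G) (hT : T.IsTree)
    (hact : ∀ (g : G) (u v : V), T.Adj u v → T.Adj (g • u) (g • v))
    (hE : ∀ u v, T.Adj u v → Finite (Es G u v)) (hV : ∀ v : V, C (MulAction.stabilizer G v)) : C G := by
  classical
  obtain ⟨v0⟩ := hT.connected.nonempty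
  obtain ⟨W, _, T', ι, Φ, hS, ⟨w, hw⟩, hΦ, hΦ'⟩ := fg_subtree hT hact hfg v0
  obtain ⟨m, hm0⟩ : ∃ m : V × V → ℕ, ∀ e, m e = Nat.card (Es G e.1 e.2) := ⟨_, fun _ => rfl⟩
  refine finedge hC hA hfg hS.tree hS.act (∑ e ∈ Φ, m e) ?_ ?_
  · intro u v huv F hF
    obtain ⟨h, hh⟩ := hΦ' u v huv
    have key : ∀ e ∈ Φ, ({h • ι u, h • ι v} : Set V) = {e.1, e.2} → F.card ≤ m e := by
      intro e he hset
      rw [hm0]
      have := hE _ _ (hΦ e he)
      have hm : ∀ q ∈ F, h * q * h⁻¹ ∈ Es G e.1 e.2 := by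
        intro g hg
        obtain ⟨h1, h2⟩ := hF _ hg
        have h3 : g • ι u = ι u := hS.fix.1 h1
        have h4 : g • ι v = ι v := hS.fix.1 h2
        have h5 : ∀ x ∈ ({h • ι u, h • ι v} : Set V), (h * g * h⁻¹) • x = x := by
          rintro x (rfl | rfl)
          · rw [mul_smul, mul_smul, inv_smul_smul, h3]
          · rw [mul_smul, mul_smul, inv_smul_smul, h4]
        rw [hset] at h5
        exact ⟨h5 _ (Or.inl rfl), h5 _ (Or.inr rfl)⟩
      let f : F → Es G e.1 e.2 := fun q => ⟨h * q * h⁻¹, hm q q.2⟩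
      have hf : Function.Injective f := by
        intro a b hab
        have h7 : h * (a : G) * h⁻¹ = h * b * h⁻¹ := congrArg Subtype.val hab
        exact Subtype.ext (mul_left_cancel (mul_right_cancel h7))
      have h8 := Nat.card_le_card_of_injective f hf
      simpa using h8
    have hle : ∀ e ∈ Φ, m e ≤ ∑ e ∈ Φ, m e := fun e he =>
      Finset.single_le_sum (f := m) (fun _ _ => Nat.zero_le _) he
    rcases hh with hh | hh
    · exact (key _ hh rfl).trans (hle _ hh)
    · exact (key _ hh (Set.pair_comm _ _)).trans (hle _ hh)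
  · intro w
    rw [hS.stab]
    exact hV _

/-- **groups acting with finite edge stabilizers** -/
theorem fin_edges (hC : ClosedE C) (hA : AcylF C) (hT : T.IsTree)
    (hact : ∀ (g : G) (u v : V), T.Adj u v → T.Adj (g • u) (g • v))
    (hE : ∀ u v, T.Adj u v → Finite (Es G u v)) (hV : ∀ v : V, C (MulAction.stabilizer G v)) : C G := by
  refine of_fg hC fun H hH => fin_edges_fg hC hA hH hT (fun g u v h => hact g u v h) ?_ ?_
  · intro u v huv
    have := hE u v huv
    let f : Es H u v → Es G u v := fun x => ⟨x, x.2⟩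
    refine Finite.of_injective f ?_
    intro a b hab
    exact Subtype.ext (Subtype.ext (congrArg (fun x : Es G u v => (x : G)) hab))
  · exact fun v => C_stab hC H v (hV v)

/-- the quotient by a normal subgroup which acts trivially -/
theorem quo_R (hC : ClosedE C) (hA : AcylF C) (hT : T.IsTree)
    (hact : ∀ (g : G) (u v : V), T.Adj u v → T.Adj (g • u) (g • v)) (R : Subgroup G) [hn : R.Normal]
    (hR : ∀ r ∈ R, ∀ v : V, r • v = v) (hE : ∀ u v, T.Adj u v → R.relIndex (Es G u v) ≠ 0)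
    (hV : ∀ v : V, QC C (MulAction.stabilizer G v) R) : C (G ⧸ R) := by
  let ρ : G ⧸ R →* Equiv.Perm V :=
    QuotientGroup.lift R (MulAction.toPermHom G V) (by
      intro r hr
      ext v
      exact hR r hr v)
  let _ : MulAction (G ⧸ R) V := MulAction.compHom V ρ
  have hsm : ∀ (g : G) (v : V), ((g : G ⧸ R)) • v = g • v := fun _ _ => rfl
  refine fin_edges (T := T) hC hA hT ?_ ?_ ?_
  · intro q u v h
    obtain ⟨g, rfl⟩ := QuotientGroup.mk_surjective q
    exact hact g u v h
  · intro u v huv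
    have hfin : Finite (Es G u v ⧸ R.subgroupOf (Es G u v)) :=
      Subgroup.index_ne_zero_iff_finite.1 (hE u v huv)
    let f : Es G u v ⧸ R.subgroupOf (Es G u v) → Es (G ⧸ R) u v := fun q =>
      Quotient.liftOn' q (fun g => (⟨((g : G) : G ⧸ R), g.2⟩ : Es (G ⧸ R) u v)) (by
        intro a b hab
        rw [QuotientGroup.leftRel_apply, Subgroup.mem_subgroupOf] at hab
        apply Subtype.ext
        show ((a : G) : G ⧸ R) = ((b : G) : G ⧸ R)
        rw [QuotientGroup.eq]
        exact hab)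
    refine Finite.of_surjective f ?_
    rintro ⟨q, hq⟩
    obtain ⟨g, rfl⟩ := QuotientGroup.mk_surjective q
    exact ⟨((⟨g, hq⟩ : Es G u v) : Es G u v ⧸ R.subgroupOf (Es G u v)), rfl⟩
  · intro v
    obtain ⟨P, _, f, hP, hf⟩ := hV v
    let φ : MulAction.stabilizer G v →* MulAction.stabilizer (G ⧸ R) v :=
      ((QuotientGroup.mk' R).comp (Subgroup.subtype _)).codRestrict _ fun g => g.2
    refine emb_of_ker hC φ ?_ f ?_ hP
    · rintro ⟨q, hq⟩
      obtain ⟨g, rfl⟩ := QuotientGroup.mk_surjective q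
      exact ⟨⟨g, hq⟩, rfl⟩
    · intro x
      rw [hf x, ← QuotientGroup.eq_one_iff]
      exact ⟨fun h => congrArg Subtype.val h, fun h => Subtype.ext h⟩

/-- the quotient by a normal subgroup which fixes a vertex -/
theorem quo_fix (hC : ClosedE C) (hA : AcylF C) (hT : T.IsTree)
    (hact : ∀ (g : G) (u v : V), T.Adj u v → T.Adj (g • u) (g • v)) (R : Subgroup G) [hn : R.Normal]
    (v0 : V) (hv0 : ∀ r ∈ R, r • v0 = v0)
    (hE : ∀ u v, T.Adj u v → (∀ r ∈ R, r • u = u) → (∀ r ∈ R, r • v = v) → R.relIndex (Es G u v) ≠ 0)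
    (hV : ∀ v : V, (∀ r ∈ R, r • v = v) → QC C (MulAction.stabilizer G v) R) : C (G ⧸ R) := by
  classical
  obtain ⟨S, hS⟩ : ∃ S : Set V, S = {v | ∀ r ∈ R, r • v = v} := ⟨_, rfl⟩
  have hmS : ∀ v, v ∈ S ↔ ∀ r ∈ R, r • v = v := fun v => by rw [hS]; rfl
  have hSs : ∀ (g : G) (v : V), v ∈ S → g • v ∈ S := by
    intro g v hv
    rw [hmS] at hv ⊢
    intro r hr
    have h1 := hv _ (hn.conj_mem r hr g⁻¹)
    rw [inv_inv, mul_smul, mul_smul, inv_smul_eq_iff] at h1
    exact h1
  let iA : MulAction G S :=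
    { smul := fun g v => ⟨g • (v : V), hSs g v v.2⟩
      one_smul := fun v => Subtype.ext (one_smul G (v : V))
      mul_smul := fun g h v => Subtype.ext (mul_smul g h (v : V)) }
  have hsm : ∀ (g : G) (v : S), ((g • v : S) : V) = g • (v : V) := fun _ _ => rfl
  have htree : (T.induce S).IsTree := by
    refine ⟨?_, hT.isAcyclic.induce _⟩
    have : Nonempty S := ⟨⟨v0, (hmS v0).2 hv0⟩⟩
    refine ⟨fun v u => ?_⟩
    obtain ⟨p, hp, -⟩ := hT.existsUnique_path (v : V) (u : V)
    exact ⟨p.induce _ fun x hx => (hmS x).2 fun r hr =>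
      fix_path hT hact ((hmS _).1 v.2 r hr) ((hmS _).1 u.2 r hr) p hp x hx⟩
  have hst : ∀ v : S, MulAction.stabilizer G v = MulAction.stabilizer G (v : V) := by
    intro v
    ext g
    rw [MulAction.mem_stabilizer_iff, MulAction.mem_stabilizer_iff, ← hsm]
    exact ⟨fun h => congrArg Subtype.val h, fun h => Subtype.ext h⟩
  refine quo_R (V := S) (T := T.induce S) hC hA htree ?_ R ?_ ?_ ?_
  · intro g u v h
    exact hact g _ _ h
  · intro r hr v
    exact Subtype.ext ((hmS _).1 v.2 r hr)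
  · intro u v h
    have h1 : Es G u v = Es G (u : V) (v : V) := by
      unfold Es
      rw [hst, hst]
    rw [h1]
    exact hE _ _ h ((hmS _).1 u.2) ((hmS _).1 v.2)
  · intro v
    rw [hst]
    exact hV _ ((hmS _).1 v.2)

end Pool.Agent.U74.LN
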