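import Pool.Agent.U74.LN.Fe

/-!
# Isolated virtually solvable edge groups which are locally normalized
-/

set_option autoImplicit false

namespace Pool.Agent.U74.LN

open SimpleGraph Subgroup
open scoped Pointwise
open Subgroup.Commensurable (commensurator)
open Pool.Agent.Y110.FJ
open Pool.Agent.R941.FJ (C_equiv C_le C_cyc)
open Pool.Agent.N509.TK
open Pool.Agent.N509.TX (AcylF finedge fg_subtree STree of_fg C_stab C_edge)
open Pool.Agent.N431.CE (Es mem_Es Es_comm Es_smul cylF rf rf_LR Rf Rf_gen le_comm mem_comm_iff)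
open Pool.Agent.U385.FJ (QC)

variable {C : ∀ (G : Type) [Group G], Prop}

/-- every finitely generated subgroup of the commensurator of `E` normalizes a subgroup of finite
index of `E` -/
def LNorm {G : Type} [Group G] (E : Subgroup G) : Prop :=
  ∀ L : Subgroup G, L.FG → L ≤ commensurator E →
    ∃ R : Subgroup G, R ≤ E ∧ R.relIndex E ≠ 0 ∧ ∀ g ∈ L, ∀ x ∈ R, g * x * g⁻¹ ∈ R

/-- the data of the theorem -/
structure LAct (C : ∀ (G : Type) [Group G], Prop) (G : Type) {V : Type} [Group G] [MulAction G V]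
    (T : SimpleGraph V) : Prop where
  tree : T.IsTree
  act : ∀ (g : G) (u v : V), T.Adj u v → T.Adj (g • u) (g • v)
  sq : ∀ v : V, SQ C (MulAction.stabilizer G v)
  vs : ∀ u v, T.Adj u v → Infinite (Es G u v) → VS (Es G u v)
  iso : ∀ w a, T.Adj w a → ∃ N : ℕ, ∀ b, T.Adj w b → b ≠ a →
    Commensurable (Es G w a) (Es G w b) ∨
      (Finite ↥(Es G w a ⊓ Es G w b) ∧ Nat.card ↥(Es G w a ⊓ Es G w b) ≤ N)
  ln : ∀ u v, T.Adj u v → Infinite (Es G u v) → LNorm (Es G u v)

variable {G V : Type} [Group G] [MulAction G V] {T : SimpleGraph V}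

theorem inf_of_le {R K : Subgroup G} (h : R ≤ K) (hR : Infinite R) : Infinite K :=
  Infinite.of_injective _ (Subgroup.inclusion_injective h)

theorem comm_fin {A B : Subgroup G} (h : Commensurable A B) (hB : Finite B) : Finite A := by
  have h1 : Finite (B.subgroupOf A) := by
    refine Finite.of_injective (fun x : B.subgroupOf A => (⟨x.1, x.2⟩ : B)) ?_
    intro a b hab
    exact Subtype.ext (Subtype.ext (congrArg (fun t : B => (t : G)) hab))
  have h2 : Finite (A ⧸ B.subgroupOf A) := Subgroup.index_ne_zero_iff_finite.1 h.2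
  exact Finite.of_subgroup_quotient (B.subgroupOf A)

/-- edges in the set of fixed points of an infinite group -/
theorem LAct.path (h : LAct C G T) (R : Subgroup G) (hR : Infinite R) {v a : V} (p : T.Walk v a) :
    (∀ x ∈ p.support, ∀ r ∈ R, r • x = x) → ∀ u b, T.Adj v u → T.Adj a b → (∀ r ∈ R, r • u = u) →
      (∀ r ∈ R, r • b = b) → Commensurable (Es G v u) (Es G a b) := by
  have key : ∀ w s t, T.Adj w s → T.Adj w t → (∀ r ∈ R, r • w = w) → (∀ r ∈ R, r • s = s) →
      (∀ r ∈ R, r • t = t) → Commensurable (Es G w s) (Es G w t) := by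
    intro w s t hs ht hw hfs hft
    by_cases hst : s = t
    · rw [hst]
    · obtain ⟨N, hN⟩ := h.iso w s hs
      rcases hN t ht (Ne.symm hst) with h1 | ⟨h1, -⟩
      · exact h1
      · exfalso
        have h2 : R ≤ Es G w s ⊓ Es G w t := fun r hr => ⟨⟨hw r hr, hfs r hr⟩, ⟨hw r hr, hft r hr⟩⟩
        have h3 := inf_of_le h2 hR
        exact not_finite_iff_infinite.2 h3 h1
  induction p with
  | nil =>
    intro hp u b hu hb hfu hfb
    exact key _ u b hu hb (hp _ (Walk.start_mem_support _)) hfu hfb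
  | @cons v w a hvw p ih =>
    intro hp u b hu hb hfu hfb
    have hv := hp v (Walk.start_mem_support _)
    have hw := hp w (by
      rw [Walk.support_cons]
      exact List.mem_cons_of_mem _ (Walk.start_mem_support _))
    have h1 := key v u w hu hvw hv hfu hw
    have h2 := ih (fun x hx => hp x (by
      rw [Walk.support_cons]
      exact List.mem_cons_of_mem _ hx)) v b hvw.symm hb hv hfb
    rw [Es_comm] at h2
    exact h1.trans h2

/-- the commensurators of the infinite edge groups -/
theorem LAct.comm (hC : ClosedE C) (hM : ∀ (G : Type) [Group G], derivedSeries G 2 = ⊥ → C G)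
    (hA : AcylF C) (h : LAct C G T) (v u : V) (huv : T.Adj v u) (hinf : Infinite (Es G v u)) :
    C (commensurator (Es G v u)) := by
  classical
  refine of_fg hC fun H hH => ?_
  obtain ⟨L, hL⟩ : ∃ L : Subgroup G, L = H.map (commensurator (Es G v u)).subtype := ⟨_, rfl⟩
  have hLfg : L.FG := by
    rw [hL]
    obtain ⟨S, hS⟩ := (Group.fg_iff_subgroup_fg H).1 hH
    refine ⟨S.image (commensurator (Es G v u)).subtype, ?_⟩
    rw [← hS, MonoidHom.map_closure, Finset.coe_image]
  have hLle : L ≤ commensurator (Es G v u) := by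
    rw [hL]
    rintro _ ⟨x, -, rfl⟩
    exact x.2
  obtain ⟨R, hRE, hRi, hRn⟩ := h.ln v u huv hinf L hLfg hLle
  suffices hCL : C ↥(L ⊔ R) by
    have h1 : C L := C_le hC.base le_sup_left hCL
    rw [hL] at h1
    exact C_equiv hC.base (H.equivMapOfInjective _ (Subgroup.subtype_injective _)) h1
  obtain ⟨K, hK⟩ : ∃ K : Subgroup G, K = L ⊔ R := ⟨_, rfl⟩
  rw [← hK]
  have hRK : R ≤ K := by
    rw [hK]
    exact le_sup_right
  have hKn : K ≤ Subgroup.normalizer (R : Set G) := by
    rw [hK]
    refine sup_le ?_ Subgroup.le_normalizer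
    intro g hg
    rw [Subgroup.mem_normalizer_iff]
    intro x
    constructor
    · exact hRn g hg x
    · intro hx
      have h1 := hRn g⁻¹ (inv_mem hg) _ hx
      have h2 : g⁻¹ * (g * x * g⁻¹) * g⁻¹⁻¹ = x := by group
      rwa [h2] at h1
  obtain ⟨R', hR'⟩ : ∃ R' : Subgroup K, R' = R.subgroupOf K := ⟨_, rfl⟩
  have hmR : ∀ x : K, x ∈ R' ↔ (x : G) ∈ R := fun x => by rw [hR', Subgroup.mem_subgroupOf]
  have hR'n : R'.Normal := by
    refine ⟨fun x hx g => ?_⟩
    rw [hmR] at hx ⊢
    exact (Subgroup.mem_normalizer_iff.1 (hKn g.2) _).1 hx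
  have hRinf : Infinite R := by
    by_contra hcon
    have hfin : Finite R := not_infinite_iff_finite.1 hcon
    have hc : Commensurable (Es G v u) R := 
      ⟨by rw [Subgroup.relIndex_eq_one.2 hRE]; exact one_ne_zero, hRi⟩
    have := comm_fin hc hfin
    exact not_finite (Es G v u)
  have hvsR : VS R := VS.of_injective (Subgroup.inclusion hRE) (Subgroup.inclusion_injective _)
    (h.vs v u huv hinf)
  have hvsR' : VS R' := by
    let j : R' →* R := (K.subtype.comp R'.subtype).codRestrict R fun x => (hmR _).1 x.2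
    refine VS.of_injective j ?_ hvsR
    intro a b hab
    exact Subtype.ext (Subtype.ext (congrArg (fun t : R => (t : G)) hab))
  refine ext_vs hC hM R' hvsR' ?_
  refine quo_fix (G := K) (T := T) hC hA h.tree (fun g u v h' => h.act g u v h') R' v ?_ ?_ ?_
  · intro r hr
    exact (hRE ((hmR r).1 hr)).1
  · intro a b hab hfa hfb
    have hfa' : ∀ r ∈ R, r • a = a := fun r hr => hfa ⟨r, hRK hr⟩ ((hmR _).2 hr)
    have hfb' : ∀ r ∈ R, r • b = b := fun r hr => hfb ⟨r, hRK hr⟩ ((hmR _).2 hr)
    have hfv' : ∀ r ∈ R, r • v = v := fun r hr => (hRE hr).1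
    have hfu' : ∀ r ∈ R, r • u = u := fun r hr => (hRE hr).2
    obtain ⟨p, hp, -⟩ := h.tree.existsUnique_path v a
    have h1 := h.path R hRinf p (fun x hx r hr =>
      Pool.Agent.U74.BC.fix_path h.tree h.act (hfv' r hr) (hfa' r hr) p hp x hx) u b huv hab hfu' hfb'
    have h2 : R.relIndex (Es G a b) ≠ 0 := Subgroup.relIndex_ne_zero_trans hRi h1.1
    have h3 := Subgroup.relIndex_comap_ne_zero K.subtype h2
    rw [hR']
    exact h3
  · intro x hfx
    have h1 := (h.sq x).quot (MulAction.stabilizer K x) R'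
      ((K.subtype.comp (Subgroup.subtype _)).codRestrict _ fun g => g.2) ?_ ?_ ?_
    · exact h1
    · intro a b hab
      exact Subtype.ext (Subtype.ext (congrArg (fun t : MulAction.stabilizer G x => (t : G)) hab))
    · let j : R'.subgroupOf (MulAction.stabilizer K x) →* R' :=
        ((Subgroup.subtype _).comp (Subgroup.subtype _)).codRestrict R' fun y => y.2
      refine VS.of_injective j ?_ hvsR'
      intro a b hab
      exact Subtype.ext (Subtype.ext (congrArg (fun t : R' => (t : K)) hab))
    · exact hR'n.subgroupOf _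

/-- finitely generated groups -/
theorem LAct.main_fg (hC : ClosedE C) (hM : ∀ (G : Type) [Group G], derivedSeries G 2 = ⊥ → C G)
    (hA : AcylF C) (h : LAct C G T) (H : Subgroup G) (hfg : Group.FG H) : C H := by
  classical
  obtain ⟨v0⟩ := h.tree.connected.nonempty
  have hactH : ∀ (g : H) (u v : V), T.Adj u v → T.Adj (g • u) (g • v) := fun g u v h' => h.act g u v h'
  obtain ⟨W, _, T', ι, Φ, hS, ⟨w, hw⟩, hΦ, hΦ'⟩ := fg_subtree h.tree hactH hfg v0
  choose! m hm using h.iso
  obtain ⟨M, hM0⟩ : ∃ M : V × V → ℕ, ∀ e, M e = m e.1 e.2 + m e.2 e.1 + Nat.card (Es G e.1 e.2) :=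
    ⟨_, fun _ => rfl⟩
  have hle : ∀ e ∈ Φ, M e ≤ ∑ e ∈ Φ, M e := fun e he =>
    Finset.single_le_sum (f := M) (fun _ _ => Nat.zero_le _) he
  have hfix : ∀ (g : H) (w : W), g • w = w ↔ (g : G) • ι w = ι w := fun g w => hS.fix
  -- intersections of edge groups
  have key : ∀ (w a b : W), T'.Adj w a → T'.Adj w b → ¬ rf G (ι w) (ι a) (ι b) →
      Finite ↥(Es G (ι w) (ι a) ⊓ Es G (ι w) (ι b)) ∧
        Nat.card ↥(Es G (ι w) (ι a) ⊓ Es G (ι w) (ι b)) ≤ ∑ e ∈ Φ, M e := by
    intro w a b ha hb hrf
    have hba : ι b ≠ ι a := fun h1 => hrf (Or.inl h1.symm)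
    obtain ⟨g, hg⟩ := hΦ' w a ha
    have key2 : ∀ n : ℕ, m ((g : G) • ι w) ((g : G) • ι a) ≤ n →
        Nat.card (Es G ((g : G) • ι w) ((g : G) • ι a)) ≤ n →
        Finite ↥(Es G (ι w) (ι a) ⊓ Es G (ι w) (ι b)) ∧
          Nat.card ↥(Es G (ι w) (ι a) ⊓ Es G (ι w) (ι b)) ≤ n := by
      intro n hn hn'
      have h1 := hm ((g : G) • ι w) ((g : G) • ι a) (h.act g _ _ (hS.adj _ _ ha)) ((g : G) • ι b)
        (h.act g _ _ (hS.adj _ _ hb)) (fun h' => hba (MulAction.injective (g : G) h'))
      rcases h1 with h1 | ⟨h1, h2⟩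
      · rw [Es_smul, Es_smul] at h1
        have h3 : Commensurable (Es G (ι w) (ι a)) (Es G (ι w) (ι b)) :=
          (Commensurable.commensurable_conj _).2 h1
        have h4 : Finite (Es G (ι w) (ι a)) := by
          by_contra hcon
          rw [not_finite_iff_infinite] at hcon
          by_cases h5 : Infinite (Es G (ι w) (ι b))
          · exact hrf (Or.inr ⟨hcon, h5, h3⟩)
          · have := comm_fin h3 (not_infinite_iff_finite.1 h5)
            exact not_finite (Es G (ι w) (ι a))
        have h5 : Nat.card (Es G (ι w) (ι a)) = Nat.card (Es G ((g : G) • ι w) ((g : G) • ι a)) := by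
          rw [Es_smul]
          exact Nat.card_congr (Subgroup.equivSMul _ _).toEquiv
        have h6 : Finite ↥(Es G (ι w) (ι a) ⊓ Es G (ι w) (ι b)) :=
          Finite.of_injective _ (Subgroup.inclusion_injective (inf_le_left :
            Es G (ι w) (ι a) ⊓ Es G (ι w) (ι b) ≤ Es G (ι w) (ι a)))
        refine ⟨h6, ?_⟩
        have h7 := Nat.card_le_card_of_injective _ (Subgroup.inclusion_injective (inf_le_left :
            Es G (ι w) (ι a) ⊓ Es G (ι w) (ι b) ≤ Es G (ι w) (ι a)))
        exact h7.trans (h5.le.trans hn')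
      · let f : ↥(Es G (ι w) (ι a) ⊓ Es G (ι w) (ι b)) →
            ↥(Es G ((g : G) • ι w) ((g : G) • ι a) ⊓ Es G ((g : G) • ι w) ((g : G) • ι b)) := fun x =>
          ⟨(g : G) * x * (g : G)⁻¹, by
            have e1 : (x : G) • ι w = ι w := x.2.1.1
            have e2 : (x : G) • ι a = ι a := x.2.1.2
            have e3 : (x : G) • ι b = ι b := x.2.2.2
            refine ⟨⟨?_, ?_⟩, ⟨?_, ?_⟩⟩
            · show ((g : G) * x * (g : G)⁻¹) • (g : G) • ι w = (g : G) • ι w
              rw [mul_smul, mul_smul, inv_smul_smul, e1]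
            · show ((g : G) * x * (g : G)⁻¹) • (g : G) • ι a = (g : G) • ι a
              rw [mul_smul, mul_smul, inv_smul_smul, e2]
            · show ((g : G) * x * (g : G)⁻¹) • (g : G) • ι w = (g : G) • ι w
              rw [mul_smul, mul_smul, inv_smul_smul, e1]
            · show ((g : G) * x * (g : G)⁻¹) • (g : G) • ι b = (g : G) • ι b
              rw [mul_smul, mul_smul, inv_smul_smul, e3]⟩
        have hf : Function.Injective f := by
          intro x y hxy
          have h6 : (g : G) * (x : G) * (g : G)⁻¹ = (g : G) * y * (g : G)⁻¹ := congrArg Subtype.val hxy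
          exact Subtype.ext (mul_left_cancel (mul_right_cancel h6))
        exact ⟨Finite.of_injective f hf, (Nat.card_le_card_of_injective f hf).trans (h2.trans hn)⟩
    rcases hg with hg | hg
    · have h3 := hle _ hg
      rw [hM0] at h3
      refine key2 _ ?_ ?_
      · exact le_trans (by
          show m ((g : G) • ι w) ((g : G) • ι a) ≤ _
          rw [add_assoc]
          exact Nat.le_add_right _ _) h3
      · exact le_trans (Nat.le_add_left _ _) h3
    · have h3 := hle _ hg
      rw [hM0] at h3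
      refine key2 _ ?_ ?_
      · exact le_trans (by
          show m ((g : G) • ι w) ((g : G) • ι a) ≤ _
          rw [add_assoc, add_left_comm]
          exact Nat.le_add_right _ _) h3
      · rw [Es_comm]
        exact le_trans (Nat.le_add_left _ _) h3
  -- the relation on the edges of the subtree
  have hr : LR H T' (fun w a b => rf G (ι w) (ι a) (ι b)) := by
    have h0 := rf_LR (G := G) (T := T)
    refine ⟨fun w a ha => h0.refl _ _ (hS.adj _ _ ha), fun w a b ha hb hab => ?_,
      fun w a b c ha hb hc hab hbc => ?_, fun g w a b hab => ?_⟩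
    · exact h0.symm _ _ _ (hS.adj _ _ ha) (hS.adj _ _ hb) hab
    · exact h0.trans _ _ _ _ (hS.adj _ _ ha) (hS.adj _ _ hb) (hS.adj _ _ hc) hab hbc
    · show rf G (ι (g • w)) (ι (g • a)) (ι (g • b))
      rw [hS.eqv, hS.eqv, hS.eqv]
      exact h0.eqv (g : G) _ _ _ hab
  refine cylF hC hA hS.tree hS.act hr (∑ e ∈ Φ, M e) ?_ ?_ ?_
  · intro w a b ha hb hab F hF
    obtain ⟨hfin, h1⟩ := key w a b ha hb hab
    refine le_trans ?_ h1
    have h5 : ∀ g ∈ F, (g : G) ∈ Es G (ι w) (ι a) ⊓ Es G (ι w) (ι b) := by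
      intro g hg
      obtain ⟨h2, h3, h4⟩ := hF g hg
      rw [hfix] at h2 h3 h4
      exact ⟨⟨h2, h3⟩, ⟨h2, h4⟩⟩
    let f : F → ↥(Es G (ι w) (ι a) ⊓ Es G (ι w) (ι b)) := fun g => ⟨(g : H), h5 g g.2⟩
    have h2 := Nat.card_le_card_of_injective f (fun x y hxy => Subtype.ext
      (Subtype.ext (congrArg (fun t : ↥(Es G (ι w) (ι a) ⊓ Es G (ι w) (ι b)) => (t : G)) hxy)))
    simpa using h2
  · intro w
    rw [hS.stab]
    exact C_stab hC H _ ((h.sq _).mem hC)
  · intro y K hK
    obtain ⟨⟨⟨v0, a0⟩, h0⟩, hy⟩ := Quotient.exists_rep y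
    have h0 : T'.Adj v0 a0 := h0
    have hy : cy (fun w a b => rf G (ι w) (ι a) (ι b)) h0 = y := hy
    subst hy
    -- equivalence in the subtree implies equivalence in the tree
    have hmono : ∀ p q : Dt T', Relation.EqvGen (lk T' (fun w a b => rf G (ι w) (ι a) (ι b))) p q →
        Relation.EqvGen (lk T (rf G)) (⟨(ι p.1.1, ι p.1.2), hS.adj _ _ p.2⟩ : Dt T)
          (⟨(ι q.1.1, ι q.1.2), hS.adj _ _ q.2⟩ : Dt T) := by
      intro p q hpq
      induction hpq with
      | rel p q h1 =>
        refine Relation.EqvGen.rel _ _ ?_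
        rcases h1 with h1 | ⟨h1, h2⟩
        · left
          show (ι q.1.1, ι q.1.2) = (ι p.1.2, ι p.1.1)
          rw [h1]
          rfl
        · right
          exact ⟨congrArg ι h1, h2⟩
      | refl p => exact Relation.EqvGen.refl _
      | symm p q _ ih => exact Relation.EqvGen.symm _ _ ih
      | trans p q s _ _ ih1 ih2 => exact Relation.EqvGen.trans _ _ _ ih1 ih2
    by_cases hinf : Infinite (Es G (ι v0) (ι a0))
    · have hle : K.map H.subtype ≤ commensurator (Es G (ι v0) (ι a0)) := by
        rintro _ ⟨g, hg, rfl⟩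
        rw [Commensurable.commensurator_mem_iff, ← Es_smul]
        have h3 := hK g hg v0 a0 h0 rfl
        have h4 := hmono _ _ (Quotient.exact h3)
        have h5 := (Rf_gen h4).comm
        have h6 : Commensurable (Es G (ι (g • v0)) (ι (g • a0))) (Es G (ι v0) (ι a0)) := h5
        rw [hS.eqv, hS.eqv] at h6
        exact h6
      exact C_equiv hC.base (K.equivMapOfInjective H.subtype H.subtype_injective)
        (C_le hC.base hle (h.comm hC hM hA _ _ (hS.adj _ _ h0) hinf))
    · refine C_edge hC v0 a0 ?_ K fun g hg => ?_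
      · rw [hS.stab]
        exact C_stab hC H _ ((h.sq _).mem hC)
      · have h3 := hK g hg v0 a0 h0 rfl
        have h4 := hmono _ _ (Quotient.exact h3)
        rcases Rf_gen h4 with (h5 | h5) | ⟨_, h5, _⟩
        · left
          have h6 := congrArg Prod.fst h5
          have h7 := congrArg Prod.snd h5
          exact ⟨(hS.inj h6).symm, (hS.inj h7).symm⟩
        · right
          have h6 := congrArg Prod.fst h5
          have h7 := congrArg Prod.snd h5
          exact ⟨(hS.inj h7).symm, (hS.inj h6).symm⟩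
        · exact absurd h5 hinf

/-- **isolated virtually solvable edge groups which are locally normalized** -/
theorem LAct.main (hC : ClosedE C) (hM : ∀ (G : Type) [Group G], derivedSeries G 2 = ⊥ → C G)
    (hA : AcylF C) (h : LAct C G T) : C G :=
  of_fg hC fun H hH => h.main_fg hC hM hA H hH

end Pool.Agent.U74.LN
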