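import Pool.Agent.U74.LN.St

/-!
# Commensurators of edge stabilizers: local normalization, and nilpotent groups with envelopes
-/

set_option autoImplicit false

namespace Pool.Agent.U74.LN

open SimpleGraph Subgroup
open scoped Pointwise commutatorElement
open Subgroup.Commensurable (commensurator)
open Pool.Agent.Y110.FJ
open Pool.Agent.R941.FJ (C_equiv C_le C_cyc)
open Pool.Agent.N509.TK
open Pool.Agent.N509.TX (AcylF finedge fg_subtree STree of_fg C_stab C_edge)
open Pool.Agent.N431.CE (Es mem_Es Es_comm Es_smul le_comm mem_comm_iff)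
open Pool.Agent.U385.FJ (QC Series series_main quot_mem UR Zs Dn Zs_zero Zs_mono Zs_le Zs_conj Zs_comm
  Zs_comm_top Zs_top Zs_sub Zs_dense mem_Zs)
open Pool.Agent.U74.BC (fix_path)

variable {C : ∀ (G : Type) [Group G], Prop}
variable {G V : Type} [Group G] [MulAction G V] {T : SimpleGraph V}

/-- virtually solvable edge groups which are locally normalized -/
theorem comm_lnorm (hC : ClosedE C) (hM : ∀ (G : Type) [Group G], derivedSeries G 2 = ⊥ → C G)
    (hA : AcylF C) (hT : T.IsTree) (hact : ∀ (g : G) (u v : V), T.Adj u v → T.Adj (g • u) (g • v))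
    (hI : IsoE G T) (hsq : ∀ v : V, SQ C (MulAction.stabilizer G v)) (v u : V) (huv : T.Adj v u)
    (hinf : Infinite (Es G v u)) (hvs : VS (Es G v u)) (hln : LNorm (Es G v u)) :
    C (commensurator (Es G v u)) := by
  classical
  refine of_fg hC fun H hH => ?_
  obtain ⟨L, hL⟩ : ∃ L : Subgroup G, L = H.map (commensurator (Es G v u)).subtype := ⟨_, rfl⟩
  have hLfg : L.FG := by
    rw [hL]
    obtain ⟨S, hS⟩ := (Group.fg_iff_subgroup_fg H).1 hH
    refine ⟨S.image (commensurator (Es G v u)).subtype, ?_⟩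
    rw [← hS, MonoidHom.map_closure, Finset.coe_image]
  have hLle : L ≤ commensurator (Es G v u) := by
    rw [hL]
    rintro _ ⟨x, -, rfl⟩
    exact x.2
  obtain ⟨R, hRE, hRi, hRn⟩ := hln L hLfg hLle
  suffices hCL : C ↥(L ⊔ R) by
    have h1 : C L := C_le hC.base le_sup_left hCL
    rw [hL] at h1
    exact C_equiv hC.base (H.equivMapOfInjective _ (Subgroup.subtype_injective _)) h1
  obtain ⟨K, hK⟩ : ∃ K : Subgroup G, K = L ⊔ R := ⟨_, rfl⟩
  rw [← hK]
  have hRK : R ≤ K := by
    rw [hK]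
    exact le_sup_right
  have hKn : K ≤ Subgroup.normalizer (R : Set G) := by
    rw [hK]
    refine sup_le ?_ Subgroup.le_normalizer
    intro g hg
    rw [Subgroup.mem_normalizer_iff]
    intro x
    constructor
    · exact hRn g hg x
    · intro hx
      have h1 := hRn g⁻¹ (inv_mem hg) _ hx
      have h2 : g⁻¹ * (g * x * g⁻¹) * g⁻¹⁻¹ = x := by group
      rwa [h2] at h1
  obtain ⟨R', hR'⟩ : ∃ R' : Subgroup K, R' = R.subgroupOf K := ⟨_, rfl⟩
  have hmR : ∀ x : K, x ∈ R' ↔ (x : G) ∈ R := fun x => by rw [hR', Subgroup.mem_subgroupOf]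
  have hR'n : R'.Normal := by
    refine ⟨fun x hx g => ?_⟩
    rw [hmR] at hx ⊢
    exact (Subgroup.mem_normalizer_iff.1 (hKn g.2) _).1 hx
  have hRinf : Infinite R := by
    by_contra hcon
    have hfin : Finite R := not_infinite_iff_finite.1 hcon
    have hc : Commensurable (Es G v u) R := 
      ⟨by rw [Subgroup.relIndex_eq_one.2 hRE]; exact one_ne_zero, hRi⟩
    have := comm_fin hc hfin
    exact not_finite (Es G v u)
  have hvsR : VS R := VS.of_injective (Subgroup.inclusion hRE) (Subgroup.inclusion_injective _)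
    hvs
  have hvsR' : VS R' := by
    let j : R' →* R := (K.subtype.comp R'.subtype).codRestrict R fun x => (hmR _).1 x.2
    refine VS.of_injective j ?_ hvsR
    intro a b hab
    exact Subtype.ext (Subtype.ext (congrArg (fun t : R => (t : G)) hab))
  refine ext_vs hC hM R' hvsR' ?_
  refine quo_fix (G := K) (T := T) hC hA hT (fun g u v h' => hact g u v h') R' v ?_ ?_ ?_
  · intro r hr
    exact (hRE ((hmR r).1 hr)).1
  · intro a b hab hfa hfb
    have hfa' : ∀ r ∈ R, r • a = a := fun r hr => hfa ⟨r, hRK hr⟩ ((hmR _).2 hr)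
    have hfb' : ∀ r ∈ R, r • b = b := fun r hr => hfb ⟨r, hRK hr⟩ ((hmR _).2 hr)
    have hfv' : ∀ r ∈ R, r • v = v := fun r hr => (hRE hr).1
    have hfu' : ∀ r ∈ R, r • u = u := fun r hr => (hRE hr).2
    obtain ⟨p, hp, -⟩ := hT.existsUnique_path v a
    have h1 := path_comm hI R hRinf p (fun x hx r hr =>
      Pool.Agent.U74.BC.fix_path hT hact (hfv' r hr) (hfa' r hr) p hp x hx) u b huv hab hfu' hfb'
    have h2 : R.relIndex (Es G a b) ≠ 0 := Subgroup.relIndex_ne_zero_trans hRi h1.1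
    have h3 := Subgroup.relIndex_comap_ne_zero K.subtype h2
    rw [hR']
    exact h3
  · intro x hfx
    have h1 := (hsq x).quot (MulAction.stabilizer K x) R'
      ((K.subtype.comp (Subgroup.subtype _)).codRestrict _ fun g => g.2) ?_ ?_ ?_
    · exact h1
    · intro a b hab
      exact Subtype.ext (Subtype.ext (congrArg (fun t : MulAction.stabilizer G x => (t : G)) hab))
    · let j : R'.subgroupOf (MulAction.stabilizer K x) →* R' :=
        ((Subgroup.subtype _).comp (Subgroup.subtype _)).codRestrict R' fun y => y.2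
      refine VS.of_injective j ?_ hvsR'
      intro a b hab
      exact Subtype.ext (Subtype.ext (congrArg (fun t : R' => (t : K)) hab))
    · exact hR'n.subgroupOf _
theorem near_base (v0 u0 : V) : Near (Es G v0 u0) v0 := by
  unfold Near
  rw [Subgroup.relIndex_eq_one.2 (show Es G v0 u0 ≤ MulAction.stabilizer G v0 from fun g hg => hg.1)]
  exact one_ne_zero

theorem near_base' (v0 u0 : V) : Near (Es G v0 u0) u0 := by
  unfold Near
  rw [Subgroup.relIndex_eq_one.2 (show Es G v0 u0 ≤ MulAction.stabilizer G u0 from fun g hg => hg.2)]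
  exact one_ne_zero

/-- edges between near points -/
theorem near_comm (hT : T.IsTree) (hact : ∀ (g : G) (u v : V), T.Adj u v → T.Adj (g • u) (g • v))
    (hI : IsoE G T) (v0 u0 : V) (h0 : T.Adj v0 u0) (hinf : Infinite (Es G v0 u0)) :
    ∀ v u, T.Adj v u → Near (Es G v0 u0) v → Near (Es G v0 u0) u →
      Commensurable (Es G v u) (Es G v0 u0) := by
  intro v u hvu hv hu
  obtain ⟨R, hR⟩ : ∃ R : Subgroup G, R = Es G v u ⊓ Es G v0 u0 := ⟨_, rfl⟩
  have hRi : R.relIndex (Es G v0 u0) ≠ 0 := by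
    rw [hR, Subgroup.inf_relIndex_right]
    exact Subgroup.relIndex_inf_ne_zero hv hu
  have hRinf : Infinite R := by
    by_contra hcon
    have hfin : Finite R := not_infinite_iff_finite.1 hcon
    have hc : Commensurable (Es G v0 u0) R :=
      ⟨by rw [Subgroup.relIndex_eq_one.2 (by rw [hR]; exact inf_le_right)]; exact one_ne_zero, hRi⟩
    have := comm_fin hc hfin
    exact not_finite (Es G v0 u0)
  obtain ⟨p, hp, -⟩ := hT.existsUnique_path v0 v
  have hRE : ∀ r ∈ R, r ∈ Es G v0 u0 := fun r hr => by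
    rw [hR] at hr
    exact hr.2
  have hRv : ∀ r ∈ R, r ∈ Es G v u := fun r hr => by
    rw [hR] at hr
    exact hr.1
  exact (path_comm hI R hRinf p (fun x hx r hr =>
    fix_path hT hact (hRE r hr).1 (hRv r hr).1 p hp x hx) u0 u h0 hvu
    (fun r hr => (hRE r hr).2) (fun r hr => (hRv r hr).2)).symm

/-- every near point has a near neighbour -/
theorem near_nbr (hT : T.IsTree) (hact : ∀ (g : G) (u v : V), T.Adj u v → T.Adj (g • u) (g • v))
    (v0 u0 : V) (h0 : T.Adj v0 u0) (v : V) (hv : Near (Es G v0 u0) v) :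
    ∃ u, T.Adj v u ∧ Near (Es G v0 u0) u := by
  obtain ⟨p, hp, -⟩ := hT.existsUnique_path v v0
  have h1 := near_path hT hact hv (near_base (G := G) v0 u0) p hp
  cases p with
  | nil => exact ⟨u0, h0, near_base' v0 u0⟩
  | @cons _ w _ h p =>
    refine ⟨w, h, h1 w ?_⟩
    rw [Walk.support_cons]
    exact List.mem_cons_of_mem _ (Walk.start_mem_support _)

/-- an equivariant family of subgroups `P v u` of the stabilizers of `v`, which depends only on the
commensurability class of the stabilizer of the edge `{v, u}` -/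
structure Env (G : Type) {V : Type} [Group G] [MulAction G V] (T : SimpleGraph V)
    (P : V → V → Subgroup G) : Prop where
  fix : ∀ v u, T.Adj v u → ∀ x ∈ P v u, x • v = v
  conj : ∀ (g : G) (v u : V), T.Adj v u → ∀ x ∈ P v u, g * x * g⁻¹ ∈ P (g • v) (g • u)
  same : ∀ v u w, T.Adj v u → T.Adj v w → Commensurable (Es G v u) (Es G v w) → P v u = P v w

/-- commensurators of nilpotent edge stabilizers with envelopes with unique roots -/
theorem comm_nil (hC : ClosedE C) (hM : ∀ (G : Type) [Group G], derivedSeries G 2 = ⊥ → C G)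
    (hT : T.IsTree) (hact : ∀ (g : G) (u v : V), T.Adj u v → T.Adj (g • u) (g • v))
    (hI : IsoE G T) (hsq : ∀ v : V, SQ C (MulAction.stabilizer G v)) (P : V → V → Subgroup G)
    (hP : Env G T P) (v0 u0 : V) (h0 : T.Adj v0 u0)
    (hinf : Infinite (Es G v0 u0)) (hN : Group.IsNilpotent (Es G v0 u0))
    (hS : ∀ v u, T.Adj v u → Commensurable (Es G v u) (Es G v0 u0) → Es G v u ≤ P v u ∧ UR (P v u)) :
    C (commensurator (Es G v0 u0)) := by
  classical
  have hcom := near_comm hT hact hI v0 u0 h0 hinf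
  have hnb := near_nbr hT hact v0 u0 h0
  have hn0 := near_base (G := G) v0 u0
  obtain ⟨E, hE⟩ : ∃ E, E = Es G v0 u0 := ⟨_, rfl⟩
  rw [← hE] at hinf hS hcom hnb hN hn0 ⊢
  have hsame : ∀ v u w, T.Adj v u → T.Adj v w → Near E v → Near E u → Near E w → P v u = P v w :=
    fun v u w hu hw nv nu nw => hP.same v u w hu hw ((hcom v u hu nv nu).trans (hcom v w hw nv nw).symm)
  choose! nb hnb1 hnb2 using hnb
  obtain ⟨S, hSd⟩ : ∃ S : V → Set G, ∀ v, S v = {x | x ∈ P v (nb v) ∧ ∃ m : ℕ, m ≠ 0 ∧ x ^ m ∈ E} :=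
    ⟨_, fun _ => rfl⟩
  have hSu : ∀ v u, T.Adj v u → Near E v → Near E u → ∀ x, x ∈ S v ↔ x ∈ P v u ∧ ∃ m : ℕ, m ≠ 0 ∧ x ^ m ∈ E := by
    intro v u hvu nv nu x
    rw [hSd, hsame v (nb v) u (hnb1 v nv) hvu nv (hnb2 v nv) nu]
    exact Iff.rfl
  have hpw : ∀ A : Subgroup G, Commensurable A E → ∀ (x : G) (m : ℕ), m ≠ 0 → x ^ m ∈ E →
      ∃ k : ℕ, k ≠ 0 ∧ x ^ k ∈ A := by
    intro A hA x m hm hx
    obtain ⟨k, hk, -, hxk⟩ := Subgroup.exists_pow_mem_of_relIndex_ne_zero hA.1 hx
    refine ⟨m * k, mul_ne_zero hm hk.ne', ?_⟩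
    rw [pow_mul]
    exact hxk.1
  have hpw' : ∀ A : Subgroup G, Commensurable A E → ∀ x ∈ A, ∃ k : ℕ, k ≠ 0 ∧ x ^ k ∈ E := by
    intro A hA x hx
    obtain ⟨k, hk, -, hxk⟩ := Subgroup.exists_pow_mem_of_relIndex_ne_zero hA.2 hx
    exact ⟨k, hk.ne', hxk.1⟩
  obtain ⟨D, hD⟩ : ∃ D : V → Subgroup G, ∀ v, D v = closure (S v) := ⟨_, fun _ => rfl⟩
  have hDP : ∀ v u, T.Adj v u → Near E v → Near E u → D v ≤ P v u := by
    intro v u hvu nv nu
    rw [hD, closure_le]
    exact fun x hx => ((hSu v u hvu nv nu x).1 hx).1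
  have hED : ∀ v u, T.Adj v u → Near E v → Near E u → Es G v u ≤ D v := by
    intro v u hvu nv nu x hx
    rw [hD]
    refine subset_closure ((hSu v u hvu nv nu x).2 ⟨(hS v u hvu (hcom v u hvu nv nu)).1 hx, ?_⟩)
    exact hpw' _ (hcom v u hvu nv nu) x hx
  have hUR : ∀ v, Near E v → UR (D v) := fun v nv =>
    (hS v (nb v) (hnb1 v nv) (hcom v _ (hnb1 v nv) nv (hnb2 v nv))).2.mono
      (hDP v (nb v) (hnb1 v nv) nv (hnb2 v nv))
  have hDn : ∀ v u, T.Adj v u → Near E v → Near E u → Dn (D v) (Es G v u) := by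
    intro v u hvu nv nu
    refine ⟨S v, hD v, fun y hy => ?_⟩
    obtain ⟨-, m, hm, hym⟩ := (hSu v u hvu nv nu y).1 hy
    exact hpw _ (hcom v u hvu nv nu) y m hm hym
  obtain ⟨c, hc⟩ : ∃ c, Zs E c = E := by
    obtain ⟨c, hc⟩ := hN.nilpotent
    exact ⟨c, by rw [Zs, hc, ← MonoidHom.range_eq_map, Subgroup.range_subtype]⟩
  have hcE : ∀ v u, T.Adj v u → Near E v → Near E u → Zs (Es G v u) c = Es G v u := by
    intro v u hvu nv nu
    exact Zs_comm_top (hcom v u hvu nv nu).symm ((hUR v nv).mono (hED v u hvu nv nu)) hc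
  have hcD : ∀ v, Near E v → Zs (D v) c = D v := by
    intro v nv
    exact Zs_top (hUR v nv) (hED v (nb v) (hnb1 v nv) nv (hnb2 v nv))
      (hDn v (nb v) (hnb1 v nv) nv (hnb2 v nv)) (hcE v (nb v) (hnb1 v nv) nv (hnb2 v nv))
  have hDfix : ∀ v, Near E v → ∀ x ∈ D v, x • v = v := fun v nv x hx =>
    hP.fix v (nb v) (hnb1 v nv) x (hDP v (nb v) (hnb1 v nv) nv (hnb2 v nv) hx)
  have hedge : ∀ i, ∀ u v, T.Adj u v → Near E u → Near E v → ∀ x : G, x • u = u → x • v = v →
      (x ∈ Zs (D u) i ↔ x ∈ Zs (Es G u v) i) := by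
    intro i u v huv nu nv x hxu hxv
    exact ⟨Zs_sub (hED u v huv nu nv) i x ⟨hxu, hxv⟩,
      Zs_dense (hUR u nu) (hED u v huv nu nv) (hDn u v huv nu nv) i x⟩
  -- equivariance
  have hDc1 : ∀ g ∈ commensurator E, ∀ v, Near E v → ∀ x ∈ D v, g * x * g⁻¹ ∈ D (g • v) := by
    intro g hg v nv
    have h1 : D v ≤ (D (g • v)).comap (MulAut.conj g).toMonoidHom := by
      rw [hD v, closure_le]
      intro x hx
      obtain ⟨hxP, m, hm, hxm⟩ := (hSu v (nb v) (hnb1 v nv) nv (hnb2 v nv) x).1 hx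
      show g * x * g⁻¹ ∈ D (g • v)
      rw [hD (g • v)]
      refine subset_closure ((hSu (g • v) (g • nb v) (hact g _ _ (hnb1 v nv)) (near_smul hg nv)
        (near_smul hg (hnb2 v nv)) _).2 ⟨hP.conj g v (nb v) (hnb1 v nv) x hxP, ?_⟩)
      have h2 : (g * x * g⁻¹) ^ m ∈ ConjAct.toConjAct g • E := by
        rw [Subgroup.mem_pointwise_smul_iff_inv_smul_mem, ← ConjAct.toConjAct_inv,
          ConjAct.toConjAct_smul, inv_inv, conj_pow]
        have h3 : g⁻¹ * (g * x ^ m * g⁻¹) * g = x ^ m := by group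
        rw [h3]
        exact hxm
      have hg' : Commensurable (ConjAct.toConjAct g • E) E := by
        rw [← Commensurable.commensurator_mem_iff]
        exact hg
      obtain ⟨k, hk, hk'⟩ := hpw' _ hg' _ h2
      refine ⟨m * k, mul_ne_zero hm hk, ?_⟩
      rw [pow_mul]
      exact hk'
    exact fun x hx => h1 hx
  have hDc : ∀ g ∈ commensurator E, ∀ v, Near E v → ∀ x, x ∈ D v ↔ g * x * g⁻¹ ∈ D (g • v) := by
    intro g hg v nv x
    refine ⟨hDc1 g hg v nv x, fun h => ?_⟩
    have h1 := hDc1 g⁻¹ (inv_mem hg) (g • v) (near_smul hg nv) _ h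
    rw [inv_smul_smul] at h1
    have h2 : g⁻¹ * (g * x * g⁻¹) * g⁻¹⁻¹ = x := by group
    rwa [h2] at h1
  refine comm_series (T := T) hC hM hT hact E v0 hn0 c (fun i v => Zs (D v) i) ?_ ?_ ?_ ?_ ?_ ?_ ?_ ?_
  · exact fun v _ => Zs_zero _
  · exact fun i _ v _ => Zs_mono _ (Nat.le_succ i)
  · exact fun i _ v nv x hx => hDfix v nv x (Zs_le _ _ hx)
  · exact fun i _ g hg v nv x hx => Zs_conj (hDc g hg v nv) i x hx
  · intro i _ u v huv nu nv x hx hxv
    have hxu : x • u = u := hDfix u nu x (Zs_le _ _ hx)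
    have h1 := (hedge i u v huv nu nv x hxu hxv).1 hx
    rw [Es_comm] at h1
    exact (hedge i v u huv.symm nv nu x hxv hxu).2 h1
  · exact fun i _ v _ => Zs_comm _ i
  · intro u v huv nu nv g _ hgu hgv
    show g ∈ Zs (D u) c
    rw [hcD u nu]
    exact hED u v huv nu nv ⟨hgu, hgv⟩
  · intro v nv
    show QC C _ (Zs (D v) c)
    rw [hcD v nv]
    have hnil : Group.IsNilpotent (D v) := by
      refine ⟨c, ?_⟩
      rw [eq_top_iff]
      rintro ⟨x, hx⟩ -
      rw [← mem_Zs hx, hcD v nv]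
      exact hx
    refine (hsq v).quot (commensurator E ⊓ MulAction.stabilizer G v) (D v)
      (Subgroup.inclusion inf_le_right) (Subgroup.inclusion_injective _) ?_ ?_
    · let j : (D v).subgroupOf (commensurator E ⊓ MulAction.stabilizer G v) →* D v :=
        ((Subgroup.subtype _).comp (Subgroup.subtype _)).codRestrict (D v) fun y => y.2
      refine VS.of_injective j ?_ ⟨⊤, ?_, by rw [Subgroup.index_top]; exact one_ne_zero⟩
      · intro a b hab
        exact Subtype.ext (Subtype.ext (congrArg (fun t : D v => (t : G)) hab))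
      · have h1 : Group.IsSolvable (D v) := inferInstance
        exact Group.isSolvable_of_isSolvable_injective (Subgroup.subtype_injective (⊤ : Subgroup (D v)))
    · refine ⟨fun x hx g => ?_⟩
      rw [Subgroup.mem_subgroupOf] at hx ⊢
      have h1 := hDc1 g g.2.1 v nv x hx
      rwa [g.2.2] at h1

end Pool.Agent.U74.LN
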