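import Pool.Agent.U74.LN.Cm
import Pool.Agent.U74.LN.Sq

/-!
# Commensurators of edge stabilizers: compatible series, and edge stabilizers with stable centralizers
-/

set_option autoImplicit false

namespace Pool.Agent.U74.LN

open SimpleGraph Subgroup
open scoped Pointwise commutatorElement
open Subgroup.Commensurable (commensurator)
open Pool.Agent.Y110.FJ
open Pool.Agent.N509.TK
open Pool.Agent.N431.CE (Es mem_Es Es_comm Es_smul)
open Pool.Agent.U385.FJ (QC Series series_main quot_mem)
open Pool.Agent.U74.BC (fix_path)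

variable {C : ∀ (G : Type) [Group G], Prop}
variable {G V : Type} [Group G] [MulAction G V] {T : SimpleGraph V}

/-- the stabilizer of `v` contains a subgroup of finite index of `E` -/
def Near (E : Subgroup G) (v : V) : Prop := (MulAction.stabilizer G v).relIndex E ≠ 0

theorem stab_conj (g : G) (v : V) :
    MulAction.stabilizer G (g • v) = ConjAct.toConjAct g • MulAction.stabilizer G v := by
  ext x
  rw [Subgroup.mem_pointwise_smul_iff_inv_smul_mem, ← ConjAct.toConjAct_inv,
    ConjAct.toConjAct_smul, inv_inv, MulAction.mem_stabilizer_iff, MulAction.mem_stabilizer_iff,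
    mul_smul, mul_smul, inv_smul_eq_iff]

theorem cent_conj (g x : G) :
    Subgroup.centralizer {g * x * g⁻¹} = ConjAct.toConjAct g • Subgroup.centralizer {x} := by
  ext y
  rw [Subgroup.mem_pointwise_smul_iff_inv_smul_mem, ← ConjAct.toConjAct_inv,
    ConjAct.toConjAct_smul, inv_inv, Subgroup.mem_centralizer_singleton_iff,
    Subgroup.mem_centralizer_singleton_iff]
  constructor
  · intro h
    have h2 : g⁻¹ * (y * (g * x * g⁻¹)) * g = g⁻¹ * (g * x * g⁻¹ * y) * g := by rw [h]
    have e1 : g⁻¹ * (y * (g * x * g⁻¹)) * g = g⁻¹ * y * g * x := by group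
    have e2 : g⁻¹ * (g * x * g⁻¹ * y) * g = x * (g⁻¹ * y * g) := by group
    rw [e1, e2] at h2
    exact h2
  · intro h
    have h2 : g * (g⁻¹ * y * g * x) * g⁻¹ = g * (x * (g⁻¹ * y * g)) * g⁻¹ := by rw [h]
    have e1 : g * (g⁻¹ * y * g * x) * g⁻¹ = y * (g * x * g⁻¹) := by group
    have e2 : g * (x * (g⁻¹ * y * g)) * g⁻¹ = g * x * g⁻¹ * y := by group
    rw [e1, e2] at h2
    exact h2

/-- conjugation by elements of the commensurator -/
theorem rel_conj {A E : Subgroup G} {g : G} (hg : g ∈ commensurator E) (h : A.relIndex E ≠ 0) :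
    (ConjAct.toConjAct g • A).relIndex E ≠ 0 := by
  rw [Commensurable.commensurator_mem_iff] at hg
  refine Subgroup.relIndex_ne_zero_trans (K := ConjAct.toConjAct g • E) ?_ hg.1
  rw [Subgroup.relIndex_pointwise_smul]
  exact h

theorem near_smul {E : Subgroup G} {v : V} {g : G} (hg : g ∈ commensurator E) (hv : Near E v) :
    Near E (g • v) := by
  unfold Near
  rw [stab_conj]
  exact rel_conj hg hv

theorem rel_mono {A B E : Subgroup G} (h : A ≤ B) (hA : A.relIndex E ≠ 0) : B.relIndex E ≠ 0 :=
  fun h1 => hA (Subgroup.relIndex_eq_zero_of_le_left h h1)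

theorem near_path (hT : T.IsTree) (hact : ∀ (g : G) (u v : V), T.Adj u v → T.Adj (g • u) (g • v))
    {E : Subgroup G} {u v : V} (hu : Near E u) (hv : Near E v) (p : T.Walk u v) (hp : p.IsPath) :
    ∀ x ∈ p.support, Near E x := by
  intro x hx
  refine rel_mono ?_ (Subgroup.relIndex_inf_ne_zero hu hv)
  rintro g ⟨hgu, hgv⟩
  exact fix_path hT hact hgu hgv p hp x hx

/-- a compatible series for the commensurator of `E` on the tree of the points which are almost fixed by
`E` -/
theorem comm_series (hC : ClosedE C) (hM : ∀ (G : Type) [Group G], derivedSeries G 2 = ⊥ → C G)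
    (hT : T.IsTree) (hact : ∀ (g : G) (u v : V), T.Adj u v → T.Adj (g • u) (g • v))
    (E : Subgroup G) (v0 : V) (hv0 : Near E v0) (n : ℕ) (R : ℕ → V → Subgroup G)
    (bot : ∀ v, Near E v → R 0 v = ⊥)
    (mono : ∀ i < n, ∀ v, Near E v → R i v ≤ R (i + 1) v)
    (fix : ∀ i ≤ n, ∀ v, Near E v → ∀ x ∈ R i v, x • v = v)
    (conj : ∀ i ≤ n, ∀ g ∈ commensurator E, ∀ v, Near E v → ∀ x ∈ R i v, g * x * g⁻¹ ∈ R i (g • v))
    (edge : ∀ i ≤ n, ∀ u v, T.Adj u v → Near E u → Near E v → ∀ x ∈ R i u, x • v = v → x ∈ R i v)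
    (lay : ∀ i < n, ∀ v, Near E v → ⁅R (i + 1) v, R (i + 1) v⁆ ≤ R i v)
    (hE : ∀ u v, T.Adj u v → Near E u → Near E v → ∀ g ∈ commensurator E, g • u = u → g • v = v →
      g ∈ R n u)
    (hQ : ∀ v, Near E v → QC C (commensurator E ⊓ MulAction.stabilizer G v) (R n v)) :
    C (commensurator E) := by
  let _ : MulAction (commensurator E) {v : V | Near E v} :=
    { smul := fun g v => ⟨(g : G) • (v : V), near_smul g.2 v.2⟩
      one_smul := fun v => Subtype.ext (one_smul G (v : V))
      mul_smul := fun g h v => Subtype.ext (mul_smul (g : G) (h : G) (v : V)) }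
  have htree : (T.induce {v : V | Near E v}).IsTree := by
    refine ⟨?_, hT.isAcyclic.induce _⟩
    have : Nonempty {v : V | Near E v} := ⟨⟨v0, hv0⟩⟩
    refine ⟨fun v u => ?_⟩
    obtain ⟨p, hp, -⟩ := hT.existsUnique_path (v : V) (u : V)
    exact ⟨p.induce _ (near_path hT hact v.2 u.2 p hp)⟩
  have hact' : ∀ (g : commensurator E) (u v : {v : V | Near E v}),
      (T.induce {v : V | Near E v}).Adj u v →
      (T.induce {v : V | Near E v}).Adj (g • u) (g • v) := fun g u v h => hact g _ _ h
  have hser : Series (G := commensurator E) (V := {v : V | Near E v}) C (T.induce {v : V | Near E v}) n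
      (fun i v => (R i v).comap (commensurator E).subtype) := by
    refine ⟨?_, ?_, ?_, ?_, ?_, ?_⟩
    · intro v
      show (R 0 v).comap (commensurator E).subtype = ⊥
      rw [bot v v.2, eq_bot_iff]
      intro x hx
      exact Subtype.ext hx
    · exact fun i hi v => comap_mono (mono i hi v v.2)
    · exact fun i hi v x hx => Subtype.ext (fix i hi v v.2 x hx)
    · exact fun i hi g v x hx => conj i hi g g.2 v v.2 x hx
    · exact fun i hi u v huv x hx hxv => edge i hi u v huv u.2 v.2 x hx (congrArg Subtype.val hxv)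
    · intro i hi
      left
      intro v
      rw [commutator_le]
      intro a ha b hb
      exact lay i hi v v.2 (commutator_mem_commutator ha hb)
  have hn := (hser.fm le_rfl).normal
  refine series_main hC hM htree hact' hser (quot_mem hC htree hact' (hser.fm le_rfl) ?_ ?_)
  · intro u v huv g hgu hgv
    exact hE u v huv u.2 v.2 g g.2 (congrArg Subtype.val hgu) (congrArg Subtype.val hgv)
  · intro v
    obtain ⟨P, _, f, hP, hf⟩ := hQ v v.2
    let j : MulAction.stabilizer (commensurator E) v →*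
        ↥(commensurator E ⊓ MulAction.stabilizer G (v : V)) :=
      ((commensurator E).subtype.comp (Subgroup.subtype _)).codRestrict _ (by
        rintro ⟨g, hg⟩
        exact ⟨g.2, congrArg Subtype.val hg⟩)
    exact ⟨P, _, f.comp j, hP, fun g => hf (j g)⟩

/-- the elements which commute with a subgroup of finite index of `E` -/
def Ct (E : Subgroup G) : Subgroup G where
  carrier := {g | (Subgroup.centralizer {g}).relIndex E ≠ 0}
  one_mem' := by
    have h1 : Subgroup.centralizer {(1 : G)} = ⊤ := by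
      rw [eq_top_iff]
      intro x _
      rw [Subgroup.mem_centralizer_singleton_iff, one_mul, mul_one]
    show (Subgroup.centralizer {(1 : G)}).relIndex E ≠ 0
    rw [h1, Subgroup.relIndex_top_left]
    exact one_ne_zero
  mul_mem' := by
    intro a b ha hb
    refine rel_mono ?_ (Subgroup.relIndex_inf_ne_zero ha hb)
    rintro g ⟨hga, hgb⟩
    have hga' := Subgroup.mem_centralizer_singleton_iff.1 hga
    have hgb' := Subgroup.mem_centralizer_singleton_iff.1 hgb
    show g ∈ Subgroup.centralizer {a * b}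
    rw [Subgroup.mem_centralizer_singleton_iff, ← mul_assoc, hga', mul_assoc, hgb', mul_assoc]
  inv_mem' := by
    intro a ha
    refine rel_mono ?_ ha
    intro g hg
    have hg' := Subgroup.mem_centralizer_singleton_iff.1 hg
    show g ∈ Subgroup.centralizer {a⁻¹}
    rw [Subgroup.mem_centralizer_singleton_iff, eq_inv_mul_iff_mul_eq, ← mul_assoc, ← hg', mul_assoc,
      mul_inv_cancel, mul_one]

theorem mem_Ct {E : Subgroup G} {g : G} : g ∈ Ct E ↔ (Subgroup.centralizer {g}).relIndex E ≠ 0 := Iff.rfl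

theorem Ct_conj {E : Subgroup G} {g x : G} (hg : g ∈ commensurator E) (hx : x ∈ Ct E) :
    g * x * g⁻¹ ∈ Ct E := by
  rw [mem_Ct, cent_conj]
  exact rel_conj hg hx

/-- the stabilizer of the edge `{v, u}` is abelian, and the elements of the stabilizer of `v` which commute
with a subgroup of finite index of it commute with it -/
def Stb (G : Type) {V : Type} [Group G] [MulAction G V] (v u : V) : Prop :=
  (∀ x ∈ Es G v u, ∀ y ∈ Es G v u, x * y = y * x) ∧
    ∀ g : G, g • v = v → (Subgroup.centralizer {g}).relIndex (Es G v u) ≠ 0 →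
      ∀ x ∈ Es G v u, g * x = x * g

/-- the centre of the group of the elements of the stabilizer of `v` which commute with a subgroup
of finite index of `E` -/
def Ax (E : Subgroup G) (v : V) : Subgroup G :=
  Ct E ⊓ MulAction.stabilizer G v ⊓ Subgroup.centralizer ((Ct E ⊓ MulAction.stabilizer G v : Subgroup G) : Set G)

theorem mem_Ax {E : Subgroup G} {v : V} {x : G} :
    x ∈ Ax E v ↔ x ∈ Ct E ∧ x • v = v ∧ ∀ c, c ∈ Ct E → c • v = v → c * x = x * c := by
  unfold Ax
  rw [Subgroup.mem_inf, Subgroup.mem_inf, Subgroup.mem_centralizer_iff]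
  exact ⟨fun h => ⟨h.1.1, h.1.2, fun c hc hcv => h.2 c ⟨hc, hcv⟩⟩,
    fun h => ⟨⟨h.1, h.2.1⟩, fun c hc => h.2.2 c hc.1 hc.2⟩⟩

theorem Ax_conj {E : Subgroup G} {v : V} {g x : G} (hg : g ∈ commensurator E) (hx : x ∈ Ax E v) :
    g * x * g⁻¹ ∈ Ax E (g • v) := by
  rw [mem_Ax] at hx ⊢
  obtain ⟨h1, h2, h3⟩ := hx
  refine ⟨Ct_conj hg h1, by rw [mul_smul, inv_smul_smul, mul_smul, h2], fun c hc hcv => ?_⟩
  have h4 := Ct_conj (inv_mem hg) hc
  rw [inv_inv] at h4
  have h5 : (g⁻¹ * c * g) • v = v := by
    rw [mul_smul, mul_smul, hcv, inv_smul_smul]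
  have h6 := h3 _ h4 h5
  have h7 : g * (g⁻¹ * c * g * x) * g⁻¹ = g * (x * (g⁻¹ * c * g)) * g⁻¹ := by rw [h6]
  have e1 : g * (g⁻¹ * c * g * x) * g⁻¹ = c * (g * x * g⁻¹) := by group
  have e2 : g * (x * (g⁻¹ * c * g)) * g⁻¹ = g * x * g⁻¹ * c := by group
  rw [e1, e2] at h7
  exact h7

/-- commensurators of edge stabilizers with stable centralizers -/
theorem comm_stable (hC : ClosedE C) (hM : ∀ (G : Type) [Group G], derivedSeries G 2 = ⊥ → C G)
    (hT : T.IsTree) (hact : ∀ (g : G) (u v : V), T.Adj u v → T.Adj (g • u) (g • v))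
    (hI : IsoE G T) (hsq : ∀ v : V, SQ C (MulAction.stabilizer G v)) (v0 u0 : V) (h0 : T.Adj v0 u0)
    (hinf : Infinite (Es G v0 u0))
    (hS : ∀ v u, T.Adj v u → Commensurable (Es G v u) (Es G v0 u0) → Stb G v u) :
    C (commensurator (Es G v0 u0)) := by
  classical
  obtain ⟨E, hE⟩ : ∃ E, E = Es G v0 u0 := ⟨_, rfl⟩
  rw [← hE] at hinf hS ⊢
  have hn0 : Near E v0 := by
    unfold Near
    rw [hE, Subgroup.relIndex_eq_one.2 (show Es G v0 u0 ≤ MulAction.stabilizer G v0 from fun g hg => hg.1)]
    exact one_ne_zero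
  -- edges between near points
  have hcom : ∀ v u, T.Adj v u → Near E v → Near E u → Commensurable (Es G v u) E := by
    intro v u hvu hv hu
    obtain ⟨R, hR⟩ : ∃ R : Subgroup G, R = Es G v u ⊓ E := ⟨_, rfl⟩
    have hRi : R.relIndex E ≠ 0 := by
      rw [hR, Subgroup.inf_relIndex_right]
      exact Subgroup.relIndex_inf_ne_zero hv hu
    have hRinf : Infinite R := by
      by_contra hcon
      have hfin : Finite R := not_infinite_iff_finite.1 hcon
      have hc : Commensurable E R :=
        ⟨by rw [Subgroup.relIndex_eq_one.2 (by rw [hR]; exact inf_le_right)]; exact one_ne_zero, hRi⟩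
      have := comm_fin hc hfin
      exact not_finite E
    obtain ⟨p, hp, -⟩ := hT.existsUnique_path v0 v
    have hRE : ∀ r ∈ R, r ∈ Es G v0 u0 := fun r hr => by
      rw [hR] at hr
      rw [← hE]
      exact hr.2
    have hRv : ∀ r ∈ R, r ∈ Es G v u := fun r hr => by
      rw [hR] at hr
      exact hr.1
    have h1 := path_comm hI R hRinf p (fun x hx r hr =>
      fix_path hT hact (hRE r hr).1 (hRv r hr).1 p hp x hx) u0 u h0 hvu
      (fun r hr => (hRE r hr).2) (fun r hr => (hRv r hr).2)
    rw [← hE] at h1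
    exact h1.symm
  have hle : ∀ v u, T.Adj v u → Near E v → Near E u → ∀ x ∈ Es G v u, x ∈ Ax E v := by
    intro v u hvu hv hu x hx
    have h1 := hcom v u hvu hv hu
    have h2 := hS v u hvu h1
    rw [mem_Ax]
    refine ⟨?_, hx.1, fun c hc hcv => ?_⟩
    · rw [mem_Ct]
      refine rel_mono (A := Es G v u) (fun y hy => ?_) h1.1
      rw [Subgroup.mem_centralizer_singleton_iff]
      exact h2.1 y hy x hx
    · exact h2.2 c hcv (Subgroup.relIndex_ne_zero_trans hc h1.2) x hx
  refine comm_series (T := T) hC hM hT hact E v0 hn0 1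
    (fun i v => if i = 0 then ⊥ else Ax E v) ?_ ?_ ?_ ?_ ?_ ?_ ?_ ?_
  · intro v _
    exact if_pos rfl
  · intro i hi v _
    have : i = 0 := by omega
    subst this
    rw [if_pos rfl]
    exact bot_le
  · intro i hi v _ x hx
    by_cases h : i = 0
    · rw [if_pos h, Subgroup.mem_bot] at hx
      rw [hx, one_smul]
    · rw [if_neg h] at hx
      exact (mem_Ax.1 hx).2.1
  · intro i hi g hg v _ x hx
    by_cases h : i = 0
    · rw [if_pos h, Subgroup.mem_bot] at hx ⊢
      rw [hx, mul_one, mul_inv_cancel]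
    · rw [if_neg h] at hx ⊢
      exact Ax_conj hg hx
  · intro i hi u v huv hu hv x hx hxv
    by_cases h : i = 0
    · rw [if_pos h] at hx ⊢
      exact hx
    · rw [if_neg h] at hx ⊢
      refine hle v u huv.symm hv hu x ?_
      exact ⟨hxv, (mem_Ax.1 hx).2.1⟩
  · intro i hi v _
    have : i = 0 := by omega
    subst this
    rw [if_pos rfl, if_neg (by omega), Subgroup.commutator_le]
    intro a ha b hb
    rw [Subgroup.mem_bot, commutatorElement_eq_one_iff_mul_comm]
    rw [mem_Ax] at ha hb
    exact hb.2.2 a ha.1 ha.2.1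
  · intro u v huv hu hv g _ hgu hgv
    rw [if_neg (by omega)]
    exact hle u v huv hu hv g ⟨hgu, hgv⟩
  · intro v hv
    rw [if_neg (by omega)]
    refine (hsq v).quot (commensurator E ⊓ MulAction.stabilizer G v) (Ax E v)
      (Subgroup.inclusion inf_le_right) (Subgroup.inclusion_injective _) ?_ ?_
    · refine ⟨⊤, ?_, by rw [Subgroup.index_top]; exact one_ne_zero⟩
      refine Group.isSolvable_of_comm fun a b => ?_
      apply Subtype.ext
      apply Subtype.ext
      apply Subtype.ext
      have ha' := mem_Ax.1 (Subgroup.mem_subgroupOf.1 a.1.2)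
      have hb' := mem_Ax.1 (Subgroup.mem_subgroupOf.1 b.1.2)
      exact hb'.2.2 _ ha'.1 ha'.2.1
    · refine ⟨fun x hx g => ?_⟩
      rw [Subgroup.mem_subgroupOf] at hx ⊢
      have h1 := Ax_conj (E := E) g.2.1 hx
      rwa [g.2.2] at h1

end Pool.Agent.U74.LN
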