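import Pool.Agent.U74.LN.Ab

/-!
# Groups of two by two matrices with abelian edge groups
-/

set_option autoImplicit false

namespace Pool.Agent.U74.LN

open SimpleGraph Subgroup
open scoped Pointwise commutatorElement
open Pool.Agent.Y110.FJ
open Pool.Agent.N509.TX (AcylF)
open Pool.Agent.N431.CE (Es mem_Es Es_comm Es_smul)
open Pool.Agent.U385.FJ (QC)

theorem par {F : Type} [Field F] (q r t b c m b' c' m' : F) (h : q ≠ 0 ∨ r ≠ 0 ∨ t ≠ 0)
    (h1 : b * r = q * c) (h2 : m * q = b * t) (h3 : c * t = m * r)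
    (h1' : b' * r = q * c') (h2' : m' * q = b' * t) (h3' : c' * t = m' * r) :
    b * c' = b' * c ∧ m * b' = m' * b ∧ c * m' = c' * m := by
  rcases h with h | h | h
  · have E1 : b * c' = b' * c := mul_left_cancel₀ h (by linear_combination b' * h1 - b * h1')
    exact ⟨E1, mul_left_cancel₀ h (by linear_combination b' * h2 - b * h2'),
      mul_left_cancel₀ h (by linear_combination c * h2' - c' * h2 - t * E1)⟩
  · have E1 : b * c' = b' * c := mul_left_cancel₀ h (by linear_combination c' * h1 - c * h1')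
    exact ⟨E1, mul_left_cancel₀ h (by linear_combination -b' * h3 + b * h3' - t * E1),
      mul_left_cancel₀ h (by linear_combination -c * h3' + c' * h3)⟩
  · have E3 : c * m' = c' * m := mul_left_cancel₀ h (by linear_combination m' * h3 - m * h3')
    exact ⟨mul_left_cancel₀ h (by linear_combination -c' * h2 + c * h2' - q * E3),
      mul_left_cancel₀ h (by linear_combination -m * h2' + m' * h2), E3⟩

/-- matrices which commute with a non-scalar two by two matrix commute -/
theorem mat2 {F : Type} [Field F] (X A B : Matrix (Fin 2) (Fin 2) F) (hX : ¬ ∃ c : F, X = c • 1)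
    (hA : A * X = X * A) (hB : B * X = X * B) : A * B = B * A := by
  have ent : ∀ (M N : Matrix (Fin 2) (Fin 2) F) (i j : Fin 2),
      (M * N) i j = M i 0 * N 0 j + M i 1 * N 1 j := fun M N i j => by
    rw [Matrix.mul_apply, Fin.sum_univ_two]
  have hA00 := congrFun (congrFun hA 0) 0
  have hA01 := congrFun (congrFun hA 0) 1
  have hA10 := congrFun (congrFun hA 1) 0
  have hB00 := congrFun (congrFun hB 0) 0
  have hB01 := congrFun (congrFun hB 0) 1
  have hB10 := congrFun (congrFun hB 1) 0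
  rw [ent, ent] at hA00 hA01 hA10 hB00 hB01 hB10
  have e1 : X 0 1 ≠ 0 ∨ X 1 0 ≠ 0 ∨ X 0 0 - X 1 1 ≠ 0 := by
    by_contra hcon
    push Not at hcon
    obtain ⟨h1, h2, h3⟩ := hcon
    refine hX ⟨X 0 0, ?_⟩
    have h4 : X 1 1 = X 0 0 := (sub_eq_zero.1 h3).symm
    ext i j
    fin_cases i <;> fin_cases j
    · simp
    · simp [h1]
    · simp [h2]
    · simp [h4]
  obtain ⟨E1, E2, E3⟩ := par (X 0 1) (X 1 0) (X 0 0 - X 1 1) (A 0 1) (A 1 0) (A 0 0 - A 1 1)
    (B 0 1) (B 1 0) (B 0 0 - B 1 1) e1 (by linear_combination hA00) (by linear_combination hA01)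
    (by linear_combination hA10) (by linear_combination hB00) (by linear_combination hB01)
    (by linear_combination hB10)
  ext i j
  rw [ent, ent]
  fin_cases i <;> fin_cases j
  · show A 0 0 * B 0 0 + A 0 1 * B 1 0 = B 0 0 * A 0 0 + B 0 1 * A 1 0
    linear_combination E1
  · show A 0 0 * B 0 1 + A 0 1 * B 1 1 = B 0 0 * A 0 1 + B 0 1 * A 1 1
    linear_combination E2
  · show A 1 0 * B 0 0 + A 1 1 * B 1 0 = B 1 0 * A 0 0 + B 1 1 * A 1 0
    linear_combination E3
  · show A 1 0 * B 0 1 + A 1 1 * B 1 1 = B 1 0 * A 0 1 + B 1 1 * A 1 1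
    linear_combination -E1

variable {C : ∀ (G : Type) [Group G], Prop}
variable {G V : Type} [Group G] [MulAction G V] {T : SimpleGraph V}

/-- `A` is isomorphic to a group of two by two matrices over a field whose general linear groups are in
the class, with at most `k` scalar matrices -/
def Two (C : ∀ (G : Type) [Group G], Prop) (k : ℕ) (A : Type) [Group A] : Prop :=
  ∃ (F : Type) (_ : Field F) (ρ : A →* Matrix.GeneralLinearGroup (Fin 2) F),
    Function.Injective ρ ∧ (∀ m : ℕ, C (Matrix.GeneralLinearGroup (Fin m) F)) ∧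
    ∀ S : Finset A, (∀ x ∈ S, ∃ c : F, (ρ x : Matrix (Fin 2) (Fin 2) F) = c • 1) → S.card ≤ k

/-- **vertex stabilizers in `GL_2`, abelian edge stabilizers** -/
theorem two_main (hC : ClosedE C) (hM : ∀ (G : Type) [Group G], derivedSeries G 2 = ⊥ → C G)
    (hA : AcylF C) (hT : T.IsTree) (hact : ∀ (g : G) (u v : V), T.Adj u v → T.Adj (g • u) (g • v))
    (k : ℕ) (hV : ∀ v : V, Two C k (MulAction.stabilizer G v))
    (hE : ∀ v u, T.Adj v u → (∀ x ∈ Es G v u, ∀ y ∈ Es G v u, x * y = y * x) ∨ Sml G k v u) : C G := by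
  classical
  have hsq : ∀ v : V, SQ C (MulAction.stabilizer G v) := by
    intro v
    obtain ⟨F, _, ρ, hρ, hF, -⟩ := hV v
    exact lin_sq hC hM ⟨F, inferInstance, 2, ρ, hρ, hF⟩
  -- scalar elements
  obtain ⟨Sc, hSc1, hSc2, hSc3⟩ : ∃ Sc : V → G → Prop,
      (∀ v, ∀ x, Sc v x → x • v = v) ∧
      (∀ v, ∀ S : Finset G, (∀ x ∈ S, Sc v x) → S.card ≤ k) ∧
      (∀ v, ∀ x, x • v = v → ¬ Sc v x → ∀ a b : G, a • v = v → b • v = v → a * x = x * a →
        b * x = x * b → a * b = b * a) := by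
    have h1 : ∀ v : V, ∃ Sc : G → Prop, (∀ x, Sc x → x • v = v) ∧
        (∀ S : Finset G, (∀ x ∈ S, Sc x) → S.card ≤ k) ∧
        (∀ x, x • v = v → ¬ Sc x → ∀ a b : G, a • v = v → b • v = v → a * x = x * a →
          b * x = x * b → a * b = b * a) := by
      intro v
      obtain ⟨F, _, ρ, hρ, hF, hk⟩ := hV v
      refine ⟨fun x => ∃ h : x • v = v, ∃ c : F,
        (ρ ⟨x, h⟩ : Matrix (Fin 2) (Fin 2) F) = c • 1, fun x hx => hx.1, ?_, ?_⟩
      · intro S hS
        have h2 := hk (S.attach.image fun x => (⟨x.1, (hS x.1 x.2).1⟩ : MulAction.stabilizer G v)) (by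
          intro x hx
          rw [Finset.mem_image] at hx
          obtain ⟨y, -, rfl⟩ := hx
          exact (hS y.1 y.2).2)
        rwa [Finset.card_image_of_injective, Finset.card_attach] at h2
        intro a b hab
        exact Subtype.ext (congrArg (fun t : MulAction.stabilizer G v => (t : G)) hab)
      · intro x hx hns a b ha hb hax hbx
        have h2 : ¬ ∃ c : F, (ρ ⟨x, hx⟩ : Matrix (Fin 2) (Fin 2) F) = c • 1 := fun h => hns ⟨hx, h⟩
        have h3 := mat2 _ (ρ ⟨a, ha⟩ : Matrix (Fin 2) (Fin 2) F) (ρ ⟨b, hb⟩ : Matrix (Fin 2) (Fin 2) F) h2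
          (by
            rw [← Units.val_mul, ← Units.val_mul, ← map_mul, ← map_mul]
            congr 2
            exact Subtype.ext hax)
          (by
            rw [← Units.val_mul, ← Units.val_mul, ← map_mul, ← map_mul]
            congr 2
            exact Subtype.ext hbx)
        rw [← Units.val_mul, ← Units.val_mul, ← map_mul, ← map_mul] at h3
        have h4 := hρ (Units.ext h3)
        exact congrArg (fun t : MulAction.stabilizer G v => (t : G)) h4
    choose Sc h1 h2 h3 using h1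
    exact ⟨Sc, h1, h2, h3⟩
  have hns : ∀ v u, T.Adj v u → ¬ Sml G k v u → ∃ x ∈ Es G v u, ¬ Sc v x := by
    intro v u hvu hs
    by_contra hcon
    push Not at hcon
    exact hs fun S hS => hSc2 v S fun x hx => hcon x (hS x hx)
  have hab : ∀ v u, T.Adj v u → ¬ Sml G k v u → ∀ x ∈ Es G v u, ∀ y ∈ Es G v u, x * y = y * x := by
    intro v u hvu hs
    rcases hE v u hvu with h | h
    · exact h
    · exact absurd h hs
  obtain ⟨A, hAd⟩ : ∃ A : V → V → Subgroup G, ∀ v u, A v u =
      MulAction.stabilizer G v ⊓ Subgroup.centralizer (Es G v u : Set G) := ⟨_, fun _ _ => rfl⟩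
  have hm : ∀ v u x, x ∈ A v u ↔ x • v = v ∧ ∀ y ∈ Es G v u, y * x = x * y := by
    intro v u x
    rw [hAd, Subgroup.mem_inf, Subgroup.mem_centralizer_iff]
    exact Iff.rfl
  have hAab : ∀ v u, T.Adj v u → ¬ Sml G k v u → ∀ x ∈ A v u, ∀ y ∈ A v u, x * y = y * x := by
    intro v u hvu hs x hx y hy
    obtain ⟨z, hz, hzn⟩ := hns v u hvu hs
    rw [hm] at hx hy
    exact hSc3 v z hz.1 hzn x y hx.1 hy.1 (hx.2 z hz).symm (hy.2 z hz).symm
  refine ab_main hC hM hA hT hact (fun v => (hsq v).mem hC) k A ⟨?_, ?_, hAab, ?_, ?_⟩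
    fun v u hvu hs => (hsq v).norm (hAab v u hvu hs)
  · intro v u _ x hx
    exact ((hm v u x).1 hx).1
  · intro g v u _ x hx
    rw [hm] at hx ⊢
    refine ⟨by rw [mul_smul, inv_smul_smul, mul_smul, hx.1], fun y hy => ?_⟩
    have h1 : g⁻¹ * y * g ∈ Es G v u := by
      rw [Es_smul, Subgroup.mem_pointwise_smul_iff_inv_smul_mem, ← ConjAct.toConjAct_inv,
        ConjAct.toConjAct_smul, inv_inv] at hy
      exact hy
    have h2 := hx.2 _ h1
    have h3 : g * (g⁻¹ * y * g * x) * g⁻¹ = g * (x * (g⁻¹ * y * g)) * g⁻¹ := by rw [h2]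
    have e1 : g * (g⁻¹ * y * g * x) * g⁻¹ = y * (g * x * g⁻¹) := by group
    have e2 : g * (x * (g⁻¹ * y * g)) * g⁻¹ = g * x * g⁻¹ * y := by group
    rw [e1, e2] at h3
    exact h3
  · intro v u hvu hs x hx
    rw [hm]
    exact ⟨hx.1, fun y hy => hab v u hvu hs y hy x hx⟩
  · intro v a b ha hb hsa hsb hne S hS
    refine hSc2 v S fun x hx => ?_
    by_contra hxn
    obtain ⟨hxa, hxb⟩ := hS x hx
    have key : ∀ a b, T.Adj v a → T.Adj v b → ¬ Sml G k v b → x ∈ Es G v a → x ∈ Es G v b →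
        ∀ z ∈ A v a, z ∈ A v b := by
      intro a b ha hb hsb hxa hxb z hz
      rw [hm] at hz ⊢
      refine ⟨hz.1, fun y hy => ?_⟩
      exact hSc3 v x hxa.1 hxn y z hy.1 hz.1 (hab v b hb hsb y hy x hxb) (hz.2 x hxa).symm
    exact hne (le_antisymm (fun z hz => key a b ha hb hsb hxa hxb z hz)
      (fun z hz => key b a hb ha hsa hxb hxa z hz))

/-- special linear groups have at most two scalar matrices -/
theorem two_sl {A F : Type} [Group A] [Field F] (ρ : A →* Matrix.SpecialLinearGroup (Fin 2) F)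
    (hρ : Function.Injective ρ) (hF : ∀ m : ℕ, C (Matrix.GeneralLinearGroup (Fin m) F)) : Two C 2 A := by
  classical
  refine ⟨F, inferInstance, Matrix.SpecialLinearGroup.toGL.comp ρ, ?_, hF, ?_⟩
  · exact Matrix.SpecialLinearGroup.toGL_injective.comp hρ
  · intro S hS
    have h1 : ∀ x ∈ S, ((ρ x : Matrix (Fin 2) (Fin 2) F) 0 0) ∈ ({1, -1} : Finset F) ∧
        (ρ x : Matrix (Fin 2) (Fin 2) F) = ((ρ x : Matrix (Fin 2) (Fin 2) F) 0 0) • 1 := by
      intro x hx
      obtain ⟨c, hc⟩ := hS x hx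
      have hc' : (ρ x : Matrix (Fin 2) (Fin 2) F) = c • 1 := hc
      have h2 : (ρ x : Matrix (Fin 2) (Fin 2) F).det = 1 := (ρ x).2
      rw [hc', Matrix.det_smul, Matrix.det_one, mul_one, Fintype.card_fin, sq_eq_one_iff] at h2
      rw [hc']
      refine ⟨?_, ?_⟩
      · simpa using h2
      · simp
    have h3 : S.card ≤ ({1, -1} : Finset F).card := by
      refine Finset.card_le_card_of_injOn (fun x => (ρ x : Matrix (Fin 2) (Fin 2) F) 0 0)
        (fun x hx => (h1 x hx).1) ?_
      intro x hx y hy hxy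
      have hxy : (ρ x : Matrix (Fin 2) (Fin 2) F) 0 0 = (ρ y : Matrix (Fin 2) (Fin 2) F) 0 0 := hxy
      apply hρ
      apply Subtype.ext
      rw [(h1 x hx).2, (h1 y hy).2, hxy]
    exact h3.trans Finset.card_le_two

end Pool.Agent.U74.LN
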