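import Pool.Agent.U74.LN.Cy

/-!
# Matrices which are polynomials in their powers, unipotent matrices
-/

set_option autoImplicit false

namespace Pool.Agent.U74.LN

open SimpleGraph Subgroup Polynomial
open Subgroup.Commensurable (commensurator)
open Pool.Agent.Y110.FJ
open Pool.Agent.N509.TX (AcylF)
open Pool.Agent.N431.CE (Es mem_Es Es_comm Es_smul mem_comm_iff)

variable {C : ∀ (G : Type) [Group G], Prop}

theorem unip_mem {F A : Type} [Field F] [CharZero F] [Ring A] [Algebra F A] (N : A) (hN : IsNilpotent N)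
    (k : ℕ) (hk : k ≠ 0) : 1 + N ∈ Algebra.adjoin F {(1 + N) ^ k} := by
  obtain ⟨m, hm⟩ := hN
  obtain ⟨B, hB⟩ : ∃ B : Subalgebra F A, B = Algebra.adjoin F {(1 + N) ^ k} := ⟨_, rfl⟩
  rw [← hB]
  obtain ⟨P, hP⟩ : ∃ P : F[X], P = (1 + X) ^ k - 1 := ⟨_, rfl⟩
  have hMB : aeval N P ∈ B := by
    have h1 : (1 + N) ^ k ∈ B := by
      rw [hB]
      exact Algebra.self_mem_adjoin_singleton F _
    rw [hP]
    simp only [map_sub, map_pow, map_add, map_one, aeval_X]
    exact B.sub_mem h1 B.one_mem
  have hP0 : P.coeff 0 = 0 := by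
    rw [hP, coeff_sub, coeff_one_add_X_pow]
    simp
  have hP1 : P.coeff 1 = k := by
    rw [hP, coeff_sub, coeff_one_add_X_pow, coeff_one]
    simp
  have hQ : P = P.divX * X := by
    have := divX_mul_X_add P
    rw [hP0, C_0, add_zero] at this
    exact this.symm
  have key : ∀ d j : ℕ, 1 ≤ j → m ≤ j + d → ∀ p : F[X], aeval N (X ^ j * p) ∈ B := by
    intro d
    induction d with
    | zero =>
      intro j _ hj p
      rw [map_mul, map_pow, aeval_X, pow_eq_zero_of_le (by omega) hm, zero_mul]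
      exact B.zero_mem
    | succ d ih =>
      intro j hj hjd p
      -- `N ^ j` is in `B`
      have h1 : N ^ j ∈ B := by
        have h2 : ((P.divX) ^ j).coeff 0 = (k : F) ^ j := by
          rw [coeff_zero_eq_eval_zero, eval_pow, ← coeff_zero_eq_eval_zero, coeff_divX, zero_add, hP1]
        have h3 := divX_mul_X_add ((P.divX) ^ j)
        rw [h2] at h3
        have h4 : P ^ j = X ^ (j + 1) * (((P.divX) ^ j).divX) + C ((k : F) ^ j) * X ^ j := by
          conv_lhs => rw [hQ, mul_pow, ← h3]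
          ring
        have h5 : aeval N (P ^ j) ∈ B := by
          rw [map_pow]
          exact B.pow_mem hMB j
        rw [h4, map_add, map_mul (aeval N) (C _), aeval_C, map_pow (aeval N) X, aeval_X] at h5
        have h6 := ih (j + 1) (by omega) (by omega) (((P.divX) ^ j).divX)
        have h7 : algebraMap F A ((k : F) ^ j) * N ^ j ∈ B := by
          have h8 := B.sub_mem h5 h6
          rwa [add_sub_cancel_left] at h8
        have h9 : (k : F) ^ j ≠ 0 := pow_ne_zero _ (Nat.cast_ne_zero.2 hk)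
        have h10 := B.smul_mem h7 ((k : F) ^ j)⁻¹
        rwa [← Algebra.smul_def, smul_smul, inv_mul_cancel₀ h9, one_smul] at h10
      have h2 := divX_mul_X_add p
      rw [← h2, mul_add, map_add]
      refine B.add_mem ?_ ?_
      · have h3 : X ^ j * (p.divX * X) = X ^ (j + 1) * p.divX := by ring
        rw [h3]
        exact ih (j + 1) (by omega) (by omega) _
      · rw [map_mul, aeval_C, map_pow, aeval_X]
        exact B.mul_mem h1 (B.algebraMap_mem _)
  have h1 := key m 1 le_rfl (by omega) 1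
  rw [pow_one, mul_one, aeval_X] at h1
  exact B.add_mem B.one_mem h1

/-- the matrix `a` is a polynomial in `a ^ k` for all `k ≠ 0` -/
def StbM {F : Type} [Field F] {n : ℕ} (a : Matrix (Fin n) (Fin n) F) : Prop :=
  ∀ k : ℕ, k ≠ 0 → a ∈ Algebra.adjoin F {a ^ k}

theorem unip_stb {F : Type} [Field F] [CharZero F] {n : ℕ} (a : Matrix (Fin n) (Fin n) F)
    (h : IsNilpotent (a - 1)) : StbM a := by
  intro k hk
  have := unip_mem (F := F) (a - 1) h k hk
  rwa [add_sub_cancel] at this

variable {G V : Type} [Group G] [MulAction G V] {T : SimpleGraph V}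

/-- the vertex stabilizers are groups of matrices, and the infinite edge stabilizers are abelian groups of
matrices with `StbM` -/
def StbEdges (C : ∀ (G : Type) [Group G], Prop) (G : Type) {V : Type} [Group G] [MulAction G V]
    (T : SimpleGraph V) : Prop :=
  ∀ v : V, ∃ (F : Type) (_ : Field F) (n : ℕ)
    (ρ : MulAction.stabilizer G v →* Matrix.GeneralLinearGroup (Fin n) F),
    Function.Injective ρ ∧ (∀ m : ℕ, C (Matrix.GeneralLinearGroup (Fin m) F)) ∧
    ∀ u, T.Adj v u → Infinite (Es G v u) →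
      (∀ x ∈ Es G v u, ∀ y ∈ Es G v u, x * y = y * x) ∧
      ∀ g : MulAction.stabilizer G v, (g : G) • u = u → StbM (ρ g : Matrix (Fin n) (Fin n) F)

theorem stb_of {v u : V} {F : Type} [Field F] {n : ℕ}
    (ρ : MulAction.stabilizer G v →* Matrix.GeneralLinearGroup (Fin n) F) (hρ : Function.Injective ρ)
    (hab : ∀ x ∈ Es G v u, ∀ y ∈ Es G v u, x * y = y * x)
    (h : ∀ g : MulAction.stabilizer G v, (g : G) • u = u → StbM (ρ g : Matrix (Fin n) (Fin n) F)) :
    Stb G v u := by
  refine ⟨hab, fun g hg hrel x hx => ?_⟩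
  obtain ⟨k, hk, -, hk'⟩ := Subgroup.exists_pow_mem_of_relIndex_ne_zero hrel hx
  have h1 : x ^ k * g = g * x ^ k := (Subgroup.mem_centralizer_singleton_iff.1 hk'.1)
  let x' : MulAction.stabilizer G v := ⟨x, hx.1⟩
  let g' : MulAction.stabilizer G v := ⟨g, hg⟩
  have h2 : x' ^ k * g' = g' * x' ^ k := Subtype.ext h1
  have h3 : (ρ x' : Matrix (Fin n) (Fin n) F) ^ k * (ρ g' : Matrix (Fin n) (Fin n) F) =
      (ρ g' : Matrix (Fin n) (Fin n) F) * (ρ x' : Matrix (Fin n) (Fin n) F) ^ k := by
    have h4 := congrArg (fun z => ((ρ z : Matrix.GeneralLinearGroup (Fin n) F) : Matrix (Fin n) (Fin n) F)) h2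
    simpa using h4
  have h5 := h x' hx.2 k (by omega)
  have h6 : Algebra.adjoin F {(ρ x' : Matrix (Fin n) (Fin n) F) ^ k} ≤
      Subalgebra.centralizer F {(ρ g' : Matrix (Fin n) (Fin n) F)} := by
    rw [Algebra.adjoin_le_iff, Set.singleton_subset_iff]
    show _ ∈ Subalgebra.centralizer F _
    rw [Subalgebra.mem_centralizer_iff]
    rintro _ rfl
    exact h3.symm
  have h7 := h6 h5
  rw [Subalgebra.mem_centralizer_iff] at h7
  have h8 := h7 _ rfl
  have h9 : ρ (g' * x') = ρ (x' * g') := by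
    rw [map_mul, map_mul]
    exact Units.ext h8
  exact congrArg Subtype.val (hρ h9)

/-- abelian edge stabilizers of matrices which are polynomials in their powers -/
theorem stbm_main (hC : ClosedE C) (hM : ∀ (G : Type) [Group G], derivedSeries G 2 = ⊥ → C G)
    (hA : AcylF C) (hT : T.IsTree) (hact : ∀ (g : G) (u v : V), T.Adj u v → T.Adj (g • u) (g • v))
    (hI : IsoE G T) (h : StbEdges C G T) : C G := by
  have hinf : ∀ {A B : Subgroup G}, Commensurable A B → Infinite B → Infinite A := by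
    intro A B hAB hB
    exact comm_inf hAB hB
  refine mix_main hC hM hA hT hact hI (fun v => ?_) (fun _ _ => ⊥) ?_ fun v u hvu hi => ?_
  · obtain ⟨F, _, n, ρ, hρ, hF, -⟩ := h v
    exact lin_sq hC hM ⟨F, inferInstance, n, ρ, hρ, hF⟩
  · refine ⟨fun v u _ x hx => ?_, fun g v u _ x hx => ?_, fun v u w _ _ _ => rfl⟩
    · rw [Subgroup.mem_bot.1 hx, one_smul]
    · rw [Subgroup.mem_bot.1 hx, mul_one, mul_inv_cancel]
      exact Subgroup.one_mem _
  · refine Or.inr (Or.inl fun a b hab hc => ?_)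
    obtain ⟨F, _, n, ρ, hρ, hF, hE⟩ := h a
    obtain ⟨h1, h2⟩ := hE b hab (hinf hc hi)
    exact stb_of ρ hρ h1 h2

end Pool.Agent.U74.LN
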