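import Pool.Agent.U74.LQ.VSolv
import Pool.Agent.U385.FJ.Ser

/-!
# Virtually solvable groups
-/

set_option autoImplicit false

namespace Pool.Agent.U74.LN

open Subgroup
open scoped commutatorElement
open Pool.Agent.Y110.FJ
open Pool.Agent.R941.FJ (C_equiv C_le C_cyc mem_sup_normal)
open Pool.Agent.U74.LQ

variable {C : ∀ (G : Type) [Group G], Prop}

/-- virtually solvable groups -/
def VS (G : Type) [Group G] : Prop := ∃ S : Subgroup G, Group.IsSolvable S ∧ S.index ≠ 0

theorem VS.of_injective {A B : Type} [Group A] [Group B] (φ : A →* B)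
    (hφ : Function.Injective φ) (h : VS B) : VS A := by
  obtain ⟨S, hS, hi⟩ := h
  refine ⟨S.comap φ, ?_, ?_⟩
  · let f : S.comap φ →* S := (φ.comp (S.comap φ).subtype).codRestrict S fun x => x.2
    refine Group.isSolvable_of_isSolvable_injective (f := f) ?_
    intro x y hxy
    exact Subtype.ext (hφ (congrArg (fun z : S => (z : B)) hxy))
  · rw [Subgroup.index_comap]
    have : S.FiniteIndex := ⟨hi⟩
    exact (inferInstance : (S.subgroupOf φ.range).FiniteIndex).index_ne_zero

theorem VS.of_surjective {A B : Type} [Group A] [Group B] (φ : A →* B)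
    (hφ : Function.Surjective φ) (h : VS A) : VS B := by
  obtain ⟨S, hS, hi⟩ := h
  refine ⟨S.map φ, ?_, ?_⟩
  · exact Group.isSolvable_of_surjective (f := φ.subgroupMap S) (MonoidHom.subgroupMap_surjective _ S)
  · intro h0
    apply hi
    have h1 := Subgroup.index_map_dvd (H := S) hφ
    rw [h0] at h1
    exact Nat.eq_zero_of_zero_dvd h1

/-- overgroups of finite index -/
theorem VS.finiteIndex {G : Type} [Group G] (H : Subgroup G) (hH : H.index ≠ 0) (h : VS H) : VS G := by
  obtain ⟨S, hS, hi⟩ := h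
  refine ⟨S.map H.subtype, ?_, ?_⟩
  · exact Group.isSolvable_of_surjective (f := H.subtype.subgroupMap S) (MonoidHom.subgroupMap_surjective _ S)
  · rw [Subgroup.index_map_subtype]
    exact mul_ne_zero hi hH

/-- solvable groups are in the class -/
theorem C_solv (hC : ClosedE C) (hM : ∀ (G : Type) [Group G], derivedSeries G 2 = ⊥ → C G) (d : ℕ) :
    ∀ (G : Type) [Group G], derivedSeries G d = ⊥ → C G := by
  induction d with
  | zero =>
    intro G _ h
    refine hM G ?_
    rw [eq_bot_iff, ← h]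
    exact derivedSeries_antitone G (Nat.zero_le 2)
  | succ d ih =>
    intro G _ h
    have h1 : C (G ⧸ derivedSeries G d) := by
      refine ih _ ?_
      rw [← map_derivedSeries_eq (QuotientGroup.mk'_surjective (derivedSeries G d)) d, eq_bot_iff]
      rintro _ ⟨x, hx, rfl⟩
      exact (QuotientGroup.eq_one_iff x).2 hx
    refine ext_ab hC hM (QuotientGroup.mk' (derivedSeries G d)) h1 ?_
    intro x y hx hy
    have hx' : x ∈ derivedSeries G d := (QuotientGroup.eq_one_iff x).1 hx
    have hy' : y ∈ derivedSeries G d := (QuotientGroup.eq_one_iff y).1 hy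
    have h2 : ⁅x, y⁆ ∈ derivedSeries G (d + 1) := Subgroup.commutator_mem_commutator hx' hy'
    rw [h, Subgroup.mem_bot, commutatorElement_eq_one_iff_mul_comm] at h2
    exact h2

theorem C_vs (hC : ClosedE C) (hM : ∀ (G : Type) [Group G], derivedSeries G 2 = ⊥ → C G)
    {G : Type} [Group G] (h : VS G) : C G := by
  obtain ⟨S, hS, hi⟩ := h
  obtain ⟨d, hd⟩ := hS.solvable
  exact hC.base.finiteIndex G S ⟨hi⟩ (C_solv hC hM d S hd)

/-- virtually solvable normal subgroups and cyclic subgroups -/
theorem vs_sup {G : Type} [Group G] (R : Subgroup G) (hR : R.Normal) (h : VS R) (g : G) :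
    VS ↥(R ⊔ Subgroup.zpowers g) := by
  obtain ⟨S0, hS0, hi⟩ := h
  obtain ⟨S, hSn, hSR, hSs, hSf⟩ := exists_rad R hR (S0.map R.subtype)
    (Group.isSolvable_of_surjective (f := R.subtype.subgroupMap S0) (MonoidHom.subgroupMap_surjective _ S0))
    (by
      rw [Subgroup.relIndex]
      have h1 : (S0.map R.subtype).subgroupOf R = S0 := by
        rw [← Subgroup.comap_subtype, Subgroup.comap_map_eq_self_of_injective R.subtype_injective]
      rw [h1]
      exact hi)
  have h1 : (S ⊔ Subgroup.zpowers g).relIndex (R ⊔ Subgroup.zpowers g) ≠ 0 := by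
    have hfin : Finite (R ⧸ S.subgroupOf R) := Subgroup.index_ne_zero_iff_finite.1 hSf
    let j : R → ↥(R ⊔ Subgroup.zpowers g) := fun r => ⟨r, Subgroup.mem_sup_left r.2⟩
    let f : R ⧸ S.subgroupOf R → ↥(R ⊔ Subgroup.zpowers g) ⧸
        (S ⊔ Subgroup.zpowers g).subgroupOf (R ⊔ Subgroup.zpowers g) :=
      Quotient.map' j (by
        intro a b hab
        rw [QuotientGroup.leftRel_apply, Subgroup.mem_subgroupOf] at hab ⊢
        exact Subgroup.mem_sup_left hab)
    have hf : Function.Surjective f := by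
      intro q
      obtain ⟨⟨x, hx⟩, rfl⟩ := QuotientGroup.mk_surjective q
      obtain ⟨a, ha, b, hb, rfl⟩ := Subgroup.mem_sup_of_normal_left.1 hx
      refine ⟨QuotientGroup.mk ⟨a, ha⟩, ?_⟩
      show (QuotientGroup.mk (j ⟨a, ha⟩) : _ ⧸ (S ⊔ Subgroup.zpowers g).subgroupOf (R ⊔ Subgroup.zpowers g)) = _
      rw [QuotientGroup.eq, Subgroup.mem_subgroupOf]
      show a⁻¹ * (a * b) ∈ S ⊔ Subgroup.zpowers g
      rw [inv_mul_cancel_left]
      exact Subgroup.mem_sup_right hb
    have := Finite.of_surjective f hf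
    exact Subgroup.index_ne_zero_of_finite
  have h3 : Group.IsSolvable ↥(S ⊔ Subgroup.zpowers g) := by
    refine sup_solv S (Subgroup.zpowers g) hSn hSs ?_
    refine Group.isSolvable_of_comm fun x y => ?_
    obtain ⟨_, i, rfl⟩ := x
    obtain ⟨_, j, rfl⟩ := y
    exact Subtype.ext (Commute.zpow_zpow_self g i j).eq
  refine ⟨(S ⊔ Subgroup.zpowers g).subgroupOf (R ⊔ Subgroup.zpowers g), ?_, h1⟩
  have h4 : S ⊔ Subgroup.zpowers g ≤ R ⊔ Subgroup.zpowers g := sup_le_sup_right hSR _
  exact Group.isSolvable_of_isSolvable_injective (f := (Subgroup.subgroupOfEquivOfLe h4).toMonoidHom)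
    (Subgroup.subgroupOfEquivOfLe h4).injective

/-- extensions with virtually solvable kernels -/
theorem ext_vs (hC : ClosedE C) (hM : ∀ (G : Type) [Group G], derivedSeries G 2 = ⊥ → C G)
    {G : Type} [Group G] (R : Subgroup G) [R.Normal] (hR : VS R) (hQ : C (G ⧸ R)) : C G :=
  Pool.Agent.Y529.FJ.t_ext C hC _ R (C_vs hC hM hR) hQ fun g _ => C_vs hC hM (vs_sup R inferInstance hR g)

/-- all quotients of subgroups by virtually solvable normal subgroups are in the class -/
def SQ (C : ∀ (G : Type) [Group G], Prop) (A : Type) [Group A] : Prop :=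
  ∀ (N : Subgroup A) (R : Subgroup N) [R.Normal], VS R → C (N ⧸ R)

theorem vs_bot {G : Type} [Group G] : VS (⊥ : Subgroup G) :=
  ⟨⊤, Group.isSolvable_of_comm fun x y => Subtype.ext (Subsingleton.elim _ _), by
    rw [Subgroup.index_top]
    exact one_ne_zero⟩

/-- a reformulation for subgroups of a group -/
theorem SQ.quot {A G : Type} [Group A] [Group G] (h : SQ C A) (N R : Subgroup G)
    (f : N →* A) (hf : Function.Injective f) (hR : VS (R.subgroupOf N)) (hn : (R.subgroupOf N).Normal) :
    Pool.Agent.U385.FJ.QC C N R := by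
  obtain ⟨e, he⟩ : ∃ e : N →* f.range, e = f.rangeRestrict := ⟨_, rfl⟩
  have hes : Function.Surjective e := by
    rw [he]
    exact f.rangeRestrict_surjective
  have hei : Function.Injective e := by
    rw [he]
    exact (MonoidHom.rangeRestrict_injective_iff).2 hf
  have hn' : ((R.subgroupOf N).map e).Normal := hn.map e hes
  have hvs : VS ((R.subgroupOf N).map e) :=
    hR.of_surjective (e.subgroupMap _) (MonoidHom.subgroupMap_surjective _ _)
  refine ⟨_, _, (QuotientGroup.mk' ((R.subgroupOf N).map e)).comp e, h _ _ hvs, fun x => ?_⟩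
  show (QuotientGroup.mk (e x) : f.range ⧸ (R.subgroupOf N).map e) = 1 ↔ _
  rw [QuotientGroup.eq_one_iff]
  constructor
  · rintro ⟨y, hy, hyx⟩
    rw [← hei hyx]
    exact hy
  · intro hx
    exact ⟨x, hx, rfl⟩

theorem SQ.mem (hC : ClosedE C) {A : Type} [Group A] (h : SQ C A) : C A := by
  have h1 := h ⊤ ⊥ vs_bot
  have h2 : C (⊤ : Subgroup A) := C_equiv hC.base (QuotientGroup.quotientBot).symm h1
  exact C_equiv hC.base Subgroup.topEquiv.symm h2

/-- linear groups -/
theorem lin_sq (hC : ClosedE C) (hM : ∀ (G : Type) [Group G], derivedSeries G 2 = ⊥ → C G)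
    {A : Type} [Group A] (h : ∃ (F : Type) (_ : Field F) (n : ℕ) (ρ : A →* Matrix.GeneralLinearGroup (Fin n) F),
      Function.Injective ρ ∧ ∀ m : ℕ, C (Matrix.GeneralLinearGroup (Fin m) F)) : SQ C A := by
  obtain ⟨F, _, n, ρ, hρ, hF⟩ := h
  rintro N R hR ⟨S, hS, hi⟩
  refine lin_vsolv hC hM hF (ρ.comp N.subtype) (hρ.comp N.subtype_injective) R hR (S.map R.subtype) ?_ ?_
  · exact Group.isSolvable_of_surjective (f := R.subtype.subgroupMap S) (MonoidHom.subgroupMap_surjective _ S)
  · rw [Subgroup.relIndex]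
    have h1 : (S.map R.subtype).subgroupOf R = S := by
      rw [← Subgroup.comap_subtype, Subgroup.comap_map_eq_self_of_injective R.subtype_injective]
    rw [h1]
    exact hi

end Pool.Agent.U74.LN
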